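import Pool.Agent.H804.OP.Defs
import Mathlib.Analysis.InnerProductSpace.PiL2

/-!
# Identities for Clifford systems
-/

open Real Set
open scoped RealInnerProductSpace

namespace H804OP.Cl

variable {A : Fin 9 → E16 →L[ℝ] E16}

lemma inner_AA (hA : IsClifford A) (i : Fin 9) (x y : E16) : ⟪A i x, A i y⟫ = ⟪x, y⟫ := by
  rw [hA.symm, hA.sq]

lemma norm_A (hA : IsClifford A) (i : Fin 9) (x : E16) : ‖A i x‖ = ‖x‖ := by
  have h := inner_AA hA i x x
  rw [real_inner_self_eq_norm_sq, real_inner_self_eq_norm_sq] at h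
  exact (pow_left_inj₀ (norm_nonneg _) (norm_nonneg _) two_ne_zero).1 h

lemma anti' (hA : IsClifford A) {i j : Fin 9} (hij : i ≠ j) (x : E16) :
    A i (A j x) = -A j (A i x) := eq_neg_of_add_eq_zero_left (hA.anti i j x hij)

lemma inner_Ai_Aj (hA : IsClifford A) {i j : Fin 9} (hij : i ≠ j) (x y : E16) :
    ⟪A i x, A j y⟫ + ⟪A j x, A i y⟫ = 0 := by
  rw [hA.symm, hA.symm, ← inner_add_right, hA.anti i j y hij, inner_zero_right]

lemma inner_orth (hA : IsClifford A) {i j : Fin 9} (hij : i ≠ j) (x : E16) :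
    ⟪A i x, A j x⟫ = 0 := by
  have h := inner_Ai_Aj hA hij x x
  rw [real_inner_comm (A i x) (A j x)] at h
  linarith

/-- eigenvectors of `A i` for different eigenvalues are orthogonal -/
lemma eig_orth (hA : IsClifford A) (i : Fin 9) {x y : E16} (hx : A i x = x) (hy : A i y = -y) :
    ⟪x, y⟫ = 0 := by
  have h := hA.symm i x y
  rw [hx, hy, inner_neg_right] at h
  linarith

lemma eig_orth' (hA : IsClifford A) (i : Fin 9) {x y : E16} (hx : A i x = x) (hy : A i y = -y) :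
    ⟪y, x⟫ = 0 := by
  rw [real_inner_comm]
  exact eig_orth hA i hx hy

lemma eig_swap (hA : IsClifford A) {i j : Fin 9} (hij : i ≠ j) {x : E16} (hx : A i x = x) :
    A i (A j x) = -(A j x) := by
  rw [anti' hA hij, hx]

lemma eig_swap' (hA : IsClifford A) {i j : Fin 9} (hij : i ≠ j) {x : E16} (hx : A i x = -x) :
    A i (A j x) = A j x := by
  rw [anti' hA hij, hx, map_neg, neg_neg]

/-- the orthonormal basis -/
noncomputable def vec (A : Fin 9 → E16 →L[ℝ] E16) (y : E16) : Fin 8 ⊕ Fin 8 → E16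
  | Sum.inl i => A i.succ y
  | Sum.inr i => A 1 (A i.succ y)

lemma vec_orthonormal (hA : IsClifford A) {y : E16} (hy : A 0 y = -y) (hy1 : ‖y‖ = 1) :
    Orthonormal ℝ (vec A y) := by
  have hs : ∀ i : Fin 8, (0 : Fin 9) ≠ i.succ := fun i => (Fin.succ_ne_zero i).symm
  have e1 : ∀ i : Fin 8, A 0 (A i.succ y) = A i.succ y := fun i => eig_swap' hA (hs i) hy
  have e2 : ∀ i : Fin 8, A 0 (A 1 (A i.succ y)) = -(A 1 (A i.succ y)) := fun i =>
    eig_swap hA (by decide) (e1 i)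
  refine ⟨?_, ?_⟩
  · rintro (i | i)
    · simp only [vec]; rw [norm_A hA, hy1]
    · simp only [vec]; rw [norm_A hA, norm_A hA, hy1]
  · rintro (i | i) (j | j) hij
    · simp only [vec]
      exact inner_orth hA (fun h => hij (by rw [Fin.succ_injective _ h])) y
    · simp only [vec]
      exact eig_orth hA 0 (e1 i) (e2 j)
    · simp only [vec]
      exact eig_orth' hA 0 (e1 j) (e2 i)
    · simp only [vec]
      rw [inner_AA hA]
      exact inner_orth hA (fun h => hij (by rw [Fin.succ_injective _ h])) y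

lemma sum_sq_unit (hA : IsClifford A) {x y : E16} (hx : A 0 x = x) (hy : A 0 y = -y)
    (hy1 : ‖y‖ = 1) : ∑ i : Fin 8, ⟪A i.succ y, x⟫ ^ 2 = ‖x‖ ^ 2 := by
  have hon := vec_orthonormal hA hy hy1
  have hcard : Fintype.card (Fin 8 ⊕ Fin 8) = Module.finrank ℝ E16 := by
    simp
  have hsp : (⊤ : Submodule ℝ E16) ≤ Submodule.span ℝ (Set.range (vec A y)) :=
    (hon.linearIndependent.span_eq_top_of_card_eq_finrank hcard).ge
  have hsum := (OrthonormalBasis.mk hon hsp).sum_sq_norm_inner_right x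
  have hs : ∀ i : Fin 8, (0 : Fin 9) ≠ i.succ := fun i => (Fin.succ_ne_zero i).symm
  have e1 : ∀ i : Fin 8, A 0 (A i.succ y) = A i.succ y := fun i => eig_swap' hA (hs i) hy
  have e2 : ∀ i : Fin 8, A 0 (A 1 (A i.succ y)) = -(A 1 (A i.succ y)) := fun i =>
    eig_swap hA (by decide) (e1 i)
  rw [Fintype.sum_sum_type] at hsum
  simp only [OrthonormalBasis.coe_mk, vec, Real.norm_eq_abs, sq_abs] at hsum
  have h0 : ∑ i : Fin 8, ⟪A 1 (A i.succ y), x⟫ ^ 2 = 0 := by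
    apply Finset.sum_eq_zero
    intro i _
    rw [eig_orth' hA 0 hx (e2 i)]
    norm_num
  rw [h0, add_zero] at hsum
  exact hsum

lemma sum_sq_eig (hA : IsClifford A) {x y : E16} (hx : A 0 x = x) (hy : A 0 y = -y) :
    ∑ i : Fin 8, ⟪A i.succ y, x⟫ ^ 2 = ‖x‖ ^ 2 * ‖y‖ ^ 2 := by
  rcases eq_or_ne y 0 with rfl | h0
  · simp
  have hn : ‖y‖ ≠ 0 := norm_ne_zero_iff.2 h0
  have h1 := sum_sq_unit hA (x := x) (y := ‖y‖⁻¹ • y) hx (by rw [map_smul, hy, smul_neg])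
    (by rw [norm_smul, norm_inv, norm_norm, inv_mul_cancel₀ hn])
  have h2 : ∀ i : Fin 8, ⟪A i.succ (‖y‖⁻¹ • y), x⟫ ^ 2 = ‖y‖⁻¹ ^ 2 * ⟪A i.succ y, x⟫ ^ 2 := by
    intro i
    rw [map_smul, real_inner_smul_left]
    ring
  simp only [h2] at h1
  rw [← Finset.mul_sum] at h1
  rw [← h1]
  field_simp

/-- the Hopf map preserves the unit spheres -/
lemma sum_hopf (hA : IsClifford A) (z : E16) : ∑ i, ⟪A i z, z⟫ ^ 2 = ‖z‖ ^ 4 := by
  set x : E16 := (2 : ℝ)⁻¹ • (z + A 0 z) with hx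
  set y : E16 := (2 : ℝ)⁻¹ • (z - A 0 z) with hy
  have hz : z = x + y := by
    rw [hx, hy]
    module
  have hAx : A 0 x = x := by
    rw [hx, map_smul, map_add, hA.sq, add_comm]
  have hAy : A 0 y = -y := by
    rw [hy, map_smul, map_sub, hA.sq]
    module
  clear_value x y
  subst hz
  have hxy : ⟪x, y⟫ = 0 := eig_orth hA 0 hAx hAy
  have hs : ∀ i : Fin 8, (0 : Fin 9) ≠ i.succ := fun i => (Fin.succ_ne_zero i).symm
  have e0 : ⟪A 0 (x + y), x + y⟫ = ‖x‖ ^ 2 - ‖y‖ ^ 2 := by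
    rw [map_add, hAx, hAy, inner_add_left, inner_add_right, inner_add_right, inner_neg_left,
      inner_neg_left, real_inner_self_eq_norm_sq, real_inner_self_eq_norm_sq,
      real_inner_comm x y, hxy]
    ring
  have e1 : ∀ i : Fin 8, ⟪A i.succ (x + y), x + y⟫ = 2 * ⟪A i.succ y, x⟫ := by
    intro i
    have a1 : ⟪A i.succ x, x⟫ = 0 := eig_orth' hA 0 hAx (eig_swap hA (hs i) hAx)
    have a2 : ⟪A i.succ y, y⟫ = 0 := eig_orth hA 0 (eig_swap' hA (hs i) hAy) hAy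
    have a3 : ⟪A i.succ x, y⟫ = ⟪A i.succ y, x⟫ := by
      rw [hA.symm, real_inner_comm]
    rw [map_add, inner_add_left, inner_add_right, inner_add_right, a1, a2, a3]
    ring
  have e2 : ‖x + y‖ ^ 2 = ‖x‖ ^ 2 + ‖y‖ ^ 2 := by
    rw [← real_inner_self_eq_norm_sq, inner_add_left, inner_add_right, inner_add_right,
      real_inner_self_eq_norm_sq, real_inner_self_eq_norm_sq, real_inner_comm x y, hxy]
    ring
  rw [Fin.sum_univ_succ, e0]
  simp only [e1]
  have e3 : ∑ i : Fin 8, (2 * ⟪A i.succ y, x⟫) ^ 2 = 4 * (‖x‖ ^ 2 * ‖y‖ ^ 2) := by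
    rw [← sum_sq_eig hA hAx hAy, Finset.mul_sum]
    apply Finset.sum_congr rfl
    intro i _
    ring
  rw [e3]
  have e4 : ‖x + y‖ ^ 4 = (‖x + y‖ ^ 2) ^ 2 := by ring
  rw [e4, e2]
  ring

/-- the key identity -/
lemma key (hA : IsClifford A) (z : E16) : ∑ i, ⟪A i z, z⟫ • A i z = ‖z‖ ^ 2 • z := by
  rw [eq_comm, ← sub_eq_zero]
  set d := ‖z‖ ^ 2 • z - ∑ i, ⟪A i z, z⟫ • A i z with hd
  have h1 : ∀ j, ⟪A j z, d⟫ = 0 := by
    intro j
    rw [hd, inner_sub_right, inner_sum, real_inner_smul_right,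
      Finset.sum_eq_single j]
    · rw [real_inner_smul_right, inner_AA hA, real_inner_self_eq_norm_sq]
      ring
    · intro i _ hij
      rw [real_inner_smul_right, inner_orth hA hij.symm, mul_zero]
    · intro h
      exact absurd (Finset.mem_univ j) h
  have h2 : ⟪z, d⟫ = 0 := by
    rw [hd, inner_sub_right, inner_sum, real_inner_smul_right, real_inner_self_eq_norm_sq]
    have : ∑ i, ⟪z, ⟪A i z, z⟫ • A i z⟫ = ∑ i, ⟪A i z, z⟫ ^ 2 := by
      apply Finset.sum_congr rfl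
      intro i _
      rw [real_inner_smul_right, real_inner_comm]
      ring
    rw [this, sum_hopf hA]
    ring
  have h3 : ⟪d, d⟫ = 0 := by
    conv_lhs => rw [hd, inner_sub_left, real_inner_smul_left, ← hd, h2, sum_inner]
    have : ∑ i, ⟪⟪A i z, z⟫ • A i z, d⟫ = 0 := by
      apply Finset.sum_eq_zero
      intro i _
      rw [real_inner_smul_left, h1, mul_zero]
    rw [this]
    ring
  exact inner_self_eq_zero.1 h3

/-- the polarised key identity -/
lemma key2 (hA : IsClifford A) (z w : E16) :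
    (2 : ℝ) • ∑ i, ⟪A i z, w⟫ • A i z + ∑ i, ⟪A i z, z⟫ • A i w = ‖z‖ ^ 2 • w + (2 * ⟪z, w⟫) • z := by
  have h1 := key hA (z + w)
  have h2 := key hA (z - w)
  have h3 := key hA w
  have n1 : ‖z + w‖ ^ 2 = ‖z‖ ^ 2 + 2 * ⟪z, w⟫ + ‖w‖ ^ 2 := norm_add_sq_real z w
  have n2 : ‖z - w‖ ^ 2 = ‖z‖ ^ 2 - 2 * ⟪z, w⟫ + ‖w‖ ^ 2 := norm_sub_sq_real z w
  have e1 : ∀ i, ⟪A i (z + w), z + w⟫ • A i (z + w) =
      (⟪A i z, z⟫ + 2 * ⟪A i z, w⟫ + ⟪A i w, w⟫) • (A i z + A i w) := by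
    intro i
    have a3 : ⟪A i w, z⟫ = ⟪A i z, w⟫ := by rw [hA.symm, real_inner_comm]
    rw [map_add, inner_add_left, inner_add_right, inner_add_right, a3]
    congr 1
    ring
  have e2 : ∀ i, ⟪A i (z - w), z - w⟫ • A i (z - w) =
      (⟪A i z, z⟫ - 2 * ⟪A i z, w⟫ + ⟪A i w, w⟫) • (A i z - A i w) := by
    intro i
    have a3 : ⟪A i w, z⟫ = ⟪A i z, w⟫ := by rw [hA.symm, real_inner_comm]
    rw [map_sub, inner_sub_left, inner_sub_right, inner_sub_right, a3]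
    congr 1
    ring
  simp only [e1] at h1
  simp only [e2] at h2
  rw [n1] at h1
  rw [n2] at h2
  have h4 : ∑ i, ((⟪A i z, z⟫ + 2 * ⟪A i z, w⟫ + ⟪A i w, w⟫) • (A i z + A i w) -
      (⟪A i z, z⟫ - 2 * ⟪A i z, w⟫ + ⟪A i w, w⟫) • (A i z - A i w) - (2 : ℝ) • ⟪A i w, w⟫ • A i w) =
      ∑ i, ((4 : ℝ) • ⟪A i z, w⟫ • A i z + (2 : ℝ) • ⟪A i z, z⟫ • A i w) := by
    apply Finset.sum_congr rfl
    intro i _
    module
  rw [Finset.sum_sub_distrib, Finset.sum_sub_distrib, h1, h2, ← Finset.smul_sum, h3,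
    Finset.sum_add_distrib, ← Finset.smul_sum, ← Finset.smul_sum] at h4
  linear_combination (norm := module) (-(1 / 2) : ℝ) • h4

end H804OP.Cl
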