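import Pool.Graph.R_seed8.H738R3.CP.Defs

/-!
# `Spin(9)`-invariant metrics on the Cayley plane: definitions

Metrics `dr² + f(r)² g_V + h(r)² g_H`, `0 ≤ r ≤ L`, on the Cayley plane `𝕆P²`, where `r` is the distance
from a fixed point, `g_V` and `g_H` are the restrictions of the round metric of `S^15 ⊂ ℝ^16` to the
tangent spaces of the fibres of the octonionic Hopf fibration `S^15 → S^8` and to their orthogonal
complements.  The group `Spin(9)`, the isotropy group of the fixed point, acts on `ℝ^16` by the spin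
representation, and the tangent spaces of `S^15` split into these two inequivalent representations of
`Spin(7)`, so all `Spin(9)`-invariant metrics are of this form.  The conditions for a smooth metric on
`𝕆P²` are the same as for `ℂP^n` (`H738CP.IsProfileCP`).

The octonionic Hopf map is given by a Clifford system `A_0, …, A_8` of `ℝ^16` (there is exactly one up to
isometries and sign): `z ↦ (⟨A_i z, z⟩)_i`.
-/

open Real Set MeasureTheory
open scoped ContDiff

namespace H804OP

/-- The Euclidean space `ℝ^16`. -/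
abbrev E16 := EuclideanSpace ℝ (Fin 16)

/-- `A_0, …, A_8` is a Clifford system on `ℝ^16`: the `A_i` are symmetric and
`A_i A_j + A_j A_i = 2 δ_ij`. -/
structure IsClifford (A : Fin 9 → E16 →L[ℝ] E16) : Prop where
  symm : ∀ i x y, inner ℝ (A i x) y = inner ℝ x (A i y)
  sq : ∀ i x, A i (A i x) = x
  anti : ∀ i j x, i ≠ j → A i (A j x) + A j (A i x) = 0

/-- The octonionic Hopf map `S^15 → S^8`. -/
noncomputable def hopf9 (A : Fin 9 → E16 →L[ℝ] E16) (z : E16) : Fin 9 → ℝ :=
  fun i => inner ℝ (A i z) z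

/-- The point of `𝕆P²` at distance `r` from the fixed point in direction `z ∈ S^15`, for `0 ≤ r ≤ L`; for
all real `r` by continuing the normal geodesic.  The embedding of `𝕆P²` in
`ℝ ⊕ ℝ^16 ⊕ ℝ^9` is, up to a linear isomorphism, the one in the trace free part of the Albert algebra
`H_3(𝕆)`: the idempotent `v v*` of `v = (cos s, sin s z)`, `2 s = π r / L`, has the components
`cos² s = (1 + cos 2s) / 2`, `cos s sin s z = sin 2s z / 2` and `sin² s z z* = (1 - cos 2s) z z* / 2`, and
`z z* ∈ H_2(𝕆)` is given by the image of `z` under the Hopf map. -/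
noncomputable def opt (A : Fin 9 → E16 →L[ℝ] E16) (L r : ℝ) (z : E16) : ℝ × E16 × (Fin 9 → ℝ) :=
  (Real.cos (π * r / L), Real.sin (π * r / L) • z, (1 - Real.cos (π * r / L)) • hopf9 A z)

/-- The squared length of the horizontal part (orthogonal to the fibre of the Hopf map) of a tangent
vector `w` of `S^15` at `z`. -/
noncomputable def hsq (A : Fin 9 → E16 →L[ℝ] E16) (z w : E16) : ℝ := ∑ i, inner ℝ (A i z) w ^ 2

/-- The squared length of the vertical part (tangent to the fibre of the Hopf map) of a tangent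
vector `w` of `S^15` at `z`. -/
noncomputable def vsq (A : Fin 9 → E16 →L[ℝ] E16) (z w : E16) : ℝ := ‖w‖ ^ 2 - hsq A z w

/-- The horizontal part of a tangent vector `w` of `S^15` at `z`. -/
noncomputable def horp (A : Fin 9 → E16 →L[ℝ] E16) (z w : E16) : E16 :=
  ∑ i, inner ℝ (A i z) w • A i z

/-- The momentum of a curve `(r, z)`: the derivative with respect to `z'` of the Lagrangian
`ℓ = (r'² + f(r)² vsq z z' + h(r)² hsq z z') / 2`. -/
noncomputable def mom (A : Fin 9 → E16 →L[ℝ] E16) (f h r : ℝ → ℝ) (z : ℝ → E16) (t : ℝ) : E16 :=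
  f (r t) ^ 2 • deriv z t + (h (r t) ^ 2 - f (r t) ^ 2) • horp A (z t) (deriv z t)

/-- The derivative with respect to `z` of the Lagrangian
`ℓ = (r'² + f(r)² vsq z z' + h(r)² hsq z z') / 2`. -/
noncomputable def force (A : Fin 9 → E16 →L[ℝ] E16) (f h r : ℝ → ℝ) (z : ℝ → E16) (t : ℝ) : E16 :=
  (h (r t) ^ 2 - f (r t) ^ 2) • ∑ i, inner ℝ (A i (z t)) (deriv z t) • A i (deriv z t)

/-- `γ` is a geodesic of speed `v` of the metric `dr² + f(r)² g_V + h(r)² g_H` on `𝕆P²`, written in
extended coordinates `(r, z)`, `z ∈ S^15 ⊂ ℝ^16`: the Euler-Lagrange equations for `r` and, with the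
Lagrange multiplier `l` of the constraint `|z| = 1`, for `z`. -/
def IsGeodesicOP (A : Fin 9 → E16 →L[ℝ] E16) (L : ℝ) (f h : ℝ → ℝ) (v : ℝ)
    (γ : ℝ → ℝ × E16 × (Fin 9 → ℝ)) : Prop :=
  ∃ (r : ℝ → ℝ) (z : ℝ → E16),
    ContDiff ℝ 2 r ∧ ContDiff ℝ 2 z ∧ (∀ t, ‖z t‖ = 1) ∧ (∀ t, γ t = opt A L (r t) (z t)) ∧
    (∀ t, deriv (deriv r) t = f (r t) * deriv f (r t) * vsq A (z t) (deriv z t)
      + h (r t) * deriv h (r t) * hsq A (z t) (deriv z t)) ∧
    (∀ t, ∃ l : ℝ, deriv (mom A f h r z) t - force A f h r z t = l • z t) ∧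
    (∀ t, deriv r t ^ 2 + f (r t) ^ 2 * vsq A (z t) (deriv z t)
      + h (r t) ^ 2 * hsq A (z t) (deriv z t) = v ^ 2)

end H804OP
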