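import Pool.Agent.H804.OP.Sl

/-!
# Geodesics of the totally geodesic `ℂP²` in the Cayley plane
-/

open Real Set MeasureTheory Filter Topology
open scoped ContDiff RealInnerProductSpace
open H738CP

namespace H804OP.Em

open Cl Sl

variable {A : Fin 9 → E16 →L[ℝ] E16}

section
variable {e : E16} (hA : IsClifford A) (he : A 0 e = e) (he1 : ‖e‖ = 1)
include hA he he1

/-- the points of `ℂP²` and of `𝕆P²` -/
theorem opt_eq (L r r' : ℝ) (z z' : EuclideanSpace ℂ (Fin 2)) (hz : ‖z‖ = 1) (hz' : ‖z'‖ = 1)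
    (h : cpt L r z = cpt L r' z') : opt A L r (Ph A e z) = opt A L r' (Ph A e z') := by
  have hm : (((Real.cos (π * r / (2 * L)) : ℂ), ((Real.sin (π * r / (2 * L)) : ℝ) : ℂ) • z) :
      ℂ × EuclideanSpace ℂ (Fin 2)) ∈ cpt L r' z' := by
    rw [← h]
    exact Submodule.mem_span_singleton_self _
  unfold cpt at hm
  rw [Submodule.mem_span_singleton] at hm
  obtain ⟨l, hl⟩ := hm
  have h1 := congrArg Prod.fst hl
  have h2 := congrArg Prod.snd hl
  simp only [Prod.smul_fst, Prod.smul_snd, smul_eq_mul] at h1 h2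
  set c := Real.cos (π * r / (2 * L)) with hc
  set s := Real.sin (π * r / (2 * L)) with hs
  set c' := Real.cos (π * r' / (2 * L)) with hc'
  set s' := Real.sin (π * r' / (2 * L)) with hs'
  have t0 : (z 0).re ^ 2 + (z 0).im ^ 2 + (z 1).re ^ 2 + (z 1).im ^ 2 = 1 := by
    rw [← nsq2, hz]; norm_num
  have t0' : (z' 0).re ^ 2 + (z' 0).im ^ 2 + (z' 1).re ^ 2 + (z' 1).im ^ 2 = 1 := by
    rw [← nsq2, hz']; norm_num
  have hcs : s ^ 2 + c ^ 2 = 1 := Real.sin_sq_add_cos_sq _
  have hcs' : s' ^ 2 + c' ^ 2 = 1 := Real.sin_sq_add_cos_sq _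
  obtain ⟨p, q, rfl⟩ : ∃ p q : ℝ, l = p + q * Complex.I := ⟨l.re, l.im, (Complex.re_add_im l).symm⟩
  have a1 := congrArg Complex.re h1
  have a2 := congrArg Complex.im h1
  have b1 : ∀ j, s * (z j).re = p * (s' * (z' j).re) - q * (s' * (z' j).im) := by
    intro j
    have := congrArg (fun w : EuclideanSpace ℂ (Fin 2) => (w j).re) h2
    simp at this
    linarith
  have b2 : ∀ j, s * (z j).im = p * (s' * (z' j).im) + q * (s' * (z' j).re) := by
    intro j
    have := congrArg (fun w : EuclideanSpace ℂ (Fin 2) => (w j).im) h2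
    simp at this
    linarith
  simp at a1 a2
  have b10 := b1 0
  have b11 := b1 1
  have b20 := b2 0
  have b21 := b2 1
  clear b1 b2 h1 h2 hl h
  set x0 := (z 0).re
  set y0 := (z 0).im
  set x1 := (z 1).re
  set y1 := (z 1).im
  set x0' := (z' 0).re
  set y0' := (z' 0).im
  set x1' := (z' 1).re
  set y1' := (z' 1).im
  -- the modulus of the factor
  have hl1 : p ^ 2 + q ^ 2 = 1 := by
    have e1 : s ^ 2 = (p ^ 2 + q ^ 2) * s' ^ 2 := by
      calc s ^ 2 = (s * x0) ^ 2 + (s * y0) ^ 2 + (s * x1) ^ 2 + (s * y1) ^ 2 := by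
            linear_combination (-s ^ 2) * t0
        _ = (p ^ 2 + q ^ 2) * s' ^ 2 * (x0' ^ 2 + y0' ^ 2 + x1' ^ 2 + y1' ^ 2) := by
            rw [b10, b11, b20, b21]; ring
        _ = _ := by rw [t0', mul_one]
    have e2 : c ^ 2 = (p ^ 2 + q ^ 2) * c' ^ 2 := by
      rw [← a1]
      rcases a2 with a2 | a2
      · rw [a2]; ring
      · rw [a2]; ring
    have e3 : (p ^ 2 + q ^ 2) * (s' ^ 2 + c' ^ 2) = 1 := by linarith
    rw [hcs', mul_one] at e3
    exact e3
  have hqc : q * c' = 0 := by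
    rcases a2 with a2 | a2
    · rw [a2, zero_mul]
    · rw [a2, mul_zero]
  have hC : Real.cos (π * r / L) = Real.cos (π * r' / L) := by
    have d1 : π * r / L = 2 * (π * r / (2 * L)) := by
      rcases eq_or_ne L 0 with h | h
      · rw [h]; simp
      · field_simp
    have d2 : π * r' / L = 2 * (π * r' / (2 * L)) := by
      rcases eq_or_ne L 0 with h | h
      · rw [h]; simp
      · field_simp
    rw [d1, d2, Real.cos_two_mul, Real.cos_two_mul, ← hc, ← hc', ← a1]
    linear_combination 2 * c' ^ 2 * hl1 - 2 * q * c' * hqc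
  have hS : Real.sin (π * r / L) = 2 * s * c := by
    have d1 : π * r / L = 2 * (π * r / (2 * L)) := by
      rcases eq_or_ne L 0 with h | h
      · rw [h]; simp
      · field_simp
    rw [d1, Real.sin_two_mul]
  have hS' : Real.sin (π * r' / L) = 2 * s' * c' := by
    have d1 : π * r' / L = 2 * (π * r' / (2 * L)) := by
      rcases eq_or_ne L 0 with h | h
      · rw [h]; simp
      · field_simp
    rw [d1, Real.sin_two_mul]
  have hC2 : 1 - Real.cos (π * r / L) = 2 * s ^ 2 := by
    have d1 : π * r / L = 2 * (π * r / (2 * L)) := by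
      rcases eq_or_ne L 0 with h | h
      · rw [h]; simp
      · field_simp
    rw [d1, Real.cos_two_mul, ← hc]
    linarith
  have hC2' : 1 - Real.cos (π * r' / L) = 2 * s' ^ 2 := by
    have d1 : π * r' / L = 2 * (π * r' / (2 * L)) := by
      rcases eq_or_ne L 0 with h | h
      · rw [h]; simp
      · field_simp
    rw [d1, Real.cos_two_mul, ← hc']
    linarith
  unfold opt
  refine Prod.ext hC (Prod.ext ?_ ?_)
  · show Real.sin (π * r / L) • Ph A e z = Real.sin (π * r' / L) • Ph A e z'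
    rw [hS, hS', Ph_apply, Ph_apply]
    have f1 : 2 * s * c * x0 = 2 * s' * c' * x0' := by
      rw [← a1]
      linear_combination 2 * (p * c') * b10 + 2 * c' * s' * x0' * hl1 - 2 * s' * (p * y0' + q * x0') * hqc
    have f2 : 2 * s * c * y0 = 2 * s' * c' * y0' := by
      rw [← a1]
      linear_combination 2 * (p * c') * b20 + 2 * c' * s' * y0' * hl1 - 2 * s' * (- p * x0' + q * y0') * hqc
    have f3 : 2 * s * c * x1 = 2 * s' * c' * x1' := by
      rw [← a1]
      linear_combination 2 * (p * c') * b11 + 2 * c' * s' * x1' * hl1 - 2 * s' * (p * y1' + q * x1') * hqc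
    have f4 : 2 * s * c * y1 = 2 * s' * c' * y1' := by
      rw [← a1]
      linear_combination 2 * (p * c') * b21 + 2 * c' * s' * y1' * hl1 - 2 * s' * (- p * x1' + q * y1') * hqc
    simp only [smul_add, smul_smul]
    rw [f1, f2, f3, f4]
  · show (1 - Real.cos (π * r / L)) • hopf9 A (Ph A e z) =
      (1 - Real.cos (π * r' / L)) • hopf9 A (Ph A e z')
    rw [hC2, hC2']
    funext i
    simp only [hopf9, Pi.smul_apply, smul_eq_mul]
    by_cases h0 : i = 0
    · subst h0
      rw [in0 hA he he1, in0 hA he he1]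
      calc 2 * s ^ 2 * (x0 * x0 + y0 * y0 - x1 * x1 - y1 * y1) =
          2 * ((s * x0) ^ 2 + (s * y0) ^ 2 - (s * x1) ^ 2 - (s * y1) ^ 2) := by ring
        _ = (p ^ 2 + q ^ 2) * (2 * s' ^ 2 * (x0' * x0' + y0' * y0' - x1' * x1' - y1' * y1')) := by
            rw [b10, b11, b20, b21]; ring
        _ = _ := by rw [hl1, one_mul]
    by_cases h1 : i = 1
    · subst h1
      rw [in1 hA he he1, in1 hA he he1]
      calc 2 * s ^ 2 * (x1 * x0 + y1 * y0 + x0 * x1 + y0 * y1) =
          4 * ((s * x0) * (s * x1) + (s * y0) * (s * y1)) := by ring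
        _ = (p ^ 2 + q ^ 2) * (2 * s' ^ 2 * (x1' * x0' + y1' * y0' + x0' * x1' + y0' * y1')) := by
            rw [b10, b11, b20, b21]; ring
        _ = _ := by rw [hl1, one_mul]
    by_cases h2 : i = 2
    · subst h2
      rw [in2 hA he he1, in2 hA he he1]
      calc 2 * s ^ 2 * (y1 * x0 - x1 * y0 - y0 * x1 + x0 * y1) =
          4 * ((s * x0) * (s * y1) - (s * y0) * (s * x1)) := by ring
        _ = (p ^ 2 + q ^ 2) * (2 * s' ^ 2 * (y1' * x0' - x1' * y0' - y0' * x1' + x0' * y1')) := by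
            rw [b10, b11, b20, b21]; ring
        _ = _ := by rw [hl1, one_mul]
    rw [ino hA he i h0 h1 h2, ino hA he i h0 h1 h2]
    ring

/-- geodesics of the totally geodesic `ℂP²`. -/
theorem embedOP {L : ℝ} {f h : ℝ → ℝ} (hf : IsProfileCP L f h) {v : ℝ}
    {γ : ℝ → Submodule ℂ (ℂ × EuclideanSpace ℂ (Fin 2))} (hγ : IsGeodesicCP L f h v γ) :
    ∃ γ' : ℝ → ℝ × E16 × (Fin 9 → ℝ), IsGeodesicOP A L f h v γ' ∧
      ∀ T, (∀ t, γ (t + T) = γ t) → ∀ t, γ' (t + T) = γ' t := by
  obtain ⟨r, z, hr, hz, hz1, hpt', e1, ⟨P, e2⟩, e3, e4⟩ := hγ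
  have hzd : ∀ t, HasDerivAt z (deriv z t) t := fun t => (hz.differentiable (by norm_num) t).hasDerivAt
  have hrd : ∀ t, HasDerivAt r (deriv r t) t := fun t => (hr.differentiable (by norm_num) t).hasDerivAt
  have hhd : ∀ x, HasDerivAt h (deriv h x) x := fun x =>
    (hf.smooth_h.differentiable (by norm_num) x).hasDerivAt
  have hdz : ContDiff ℝ 1 (deriv z) := by
    have : ContDiff ℝ (1 + 1) z := by norm_num; exact hz
    exact (contDiff_succ_iff_deriv.1 this).2.2
  have hhor : ∀ t, DifferentiableAt ℝ (hor z) t := by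
    intro t
    have hd : DifferentiableAt ℝ (deriv z) t := (hdz.differentiable one_ne_zero) t
    have hi : DifferentiableAt ℝ (fun s => (inner ℂ (z s) (deriv z s) : ℂ)) t :=
      (hzd t).differentiableAt.inner ℂ hd
    have hh : DifferentiableAt ℝ (fun s => hopf z s) t := by
      unfold hopf
      exact (Complex.imCLM.differentiableAt).comp t hi
    have hc : DifferentiableAt ℝ (fun s => ((hopf z s : ℂ) * Complex.I)) t := by
      have : DifferentiableAt ℝ (fun s => ((hopf z s : ℝ) : ℂ)) t :=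
        (Complex.ofRealCLM.differentiableAt).comp t hh
      exact this.mul_const _
    show DifferentiableAt ℝ (fun s => deriv z s - ((hopf z s : ℂ) * Complex.I) • z s) t
    exact hd.sub (hc.smul (hzd t).differentiableAt)
  have hΦd : ∀ t, deriv (fun s => Ph A e (z s)) t = Ph A e (deriv z t) := fun t =>
    ((Ph A e).hasFDerivAt.comp_hasDerivAt t (hzd t)).deriv
  have hsplit : ∀ t, deriv z t = hor z t + ((hopf z t : ℂ) * Complex.I) • z t := by
    intro t
    unfold hor
    rw [sub_add_cancel]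
  have hnh : ∀ t, ‖hor z t‖ ^ 2 = ‖deriv z t‖ ^ 2 - hopf z t ^ 2 := by
    intro t
    have h1 : (z t 0).re ^ 2 + (z t 0).im ^ 2 + (z t 1).re ^ 2 + (z t 1).im ^ 2 = 1 := by
      rw [← nsq2, hz1]; norm_num
    have h2 : ∀ j, ((hor z t) j).re = (deriv z t j).re + hopf z t * (z t j).im := by
      intro j
      unfold hor
      simp
    have h3 : ∀ j, ((hor z t) j).im = (deriv z t j).im - hopf z t * (z t j).re := by
      intro j
      unfold hor
      simp
    have h4 : hopf z t = (z t 0).re * (deriv z t 0).im - (z t 0).im * (deriv z t 0).re +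
        ((z t 1).re * (deriv z t 1).im - (z t 1).im * (deriv z t 1).re) := innim _ _
    rw [nsq2, nsq2, h2, h2, h3, h3]
    linear_combination (hopf z t) ^ 2 * h1 + 2 * hopf z t * h4
  have hhs : ∀ t, hsq A (Ph A e (z t)) (Ph A e (deriv z t)) = ‖hor z t‖ ^ 2 := by
    intro t
    rw [hsq_Ph hA he he1, hz1, hnh]
    unfold hopf
    ring
  have hvs : ∀ t, vsq A (Ph A e (z t)) (Ph A e (deriv z t)) = hopf z t ^ 2 := by
    intro t
    unfold vsq
    rw [hhs, nsq_Ph hA he he1, hnh]
    ring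
  refine ⟨fun t => opt A L (r t) (Ph A e (z t)), ⟨r, fun t => Ph A e (z t), hr,
    (Ph A e).contDiff.comp hz, ?_, fun t => rfl, ?_, ?_, ?_⟩, ?_⟩
  · intro t
    have h1 := nsq_Ph hA he he1 (z t)
    rw [hz1] at h1
    exact (pow_left_inj₀ (norm_nonneg _) zero_le_one two_ne_zero).1 h1
  · intro t
    rw [hΦd, hvs, hhs]
    exact e1 t
  · intro t
    refine ⟨-((2 * h (r t) ^ 2 - f (r t) ^ 2) * ‖hor z t‖ ^ 2 + f (r t) ^ 2 * hopf z t ^ 2), ?_⟩
    have hmom : mom A f h r (fun t => Ph A e (z t)) = fun s =>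
        Ph A e ((h (r s) ^ 2) • hor z s + ((P : ℂ) * Complex.I) • z s) := by
      funext s
      unfold mom
      rw [hΦd]
      simp only
      rw [horp_Ph hA he he1 _ _ (hz1 s), ← map_smul, ← map_smul, ← map_add]
      congr 1
      have h5 : deriv z s - (((inner ℂ (z s) (deriv z s)).im : ℂ) * Complex.I) • z s = hor z s := rfl
      rw [h5, hsplit s]
      ext j
      have h6 : ((P : ℝ) : ℂ) = (f (r s) : ℂ) ^ 2 * (hopf z s : ℂ) := by
        rw [← e2 s]
        push_cast
        ring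
      simp only [PiLp.add_apply, PiLp.smul_apply, smul_eq_mul, Complex.real_smul]
      rw [h6]
      push_cast
      ring
    have hmd : HasDerivAt (fun s => Ph A e ((h (r s) ^ 2) • hor z s + ((P : ℂ) * Complex.I) • z s))
        (Ph A e (((h (r t) ^ 2) • deriv (hor z) t + (2 * h (r t) * (deriv h (r t) * deriv r t)) • hor z t)
          + ((P : ℂ) * Complex.I) • deriv z t)) t := by
      apply (Ph A e).hasFDerivAt.comp_hasDerivAt t
      have g1 : HasDerivAt (fun s => h (r s) ^ 2) (2 * h (r t) * (deriv h (r t) * deriv r t)) t := by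
        have := ((hhd (r t)).comp t (hrd t)).pow 2
        refine this.congr_deriv ?_
        simp
      have g2 : HasDerivAt (fun s => ((P : ℂ) * Complex.I) • z s)
          (((P : ℂ) * Complex.I) • deriv z t) t := (hzd t).const_smul ((P : ℂ) * Complex.I)
      exact (g1.smul (hhor t).hasDerivAt).add g2
    have hforce : force A f h r (fun t => Ph A e (z t)) t =
        Ph A e ((h (r t) ^ 2 - f (r t) ^ 2) • (((hopf z t : ℂ) * Complex.I) • deriv z t +
          (‖deriv z t‖ ^ 2) • z t)) := by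
      unfold force
      rw [hΦd]
      simp only
      rw [force_Ph hA he he1, map_smul]
      rfl
    rw [hmom, hmd.deriv, hforce, ← map_sub, ← map_smul]
    congr 1
    ext j
    have hj := congrArg (fun w : EuclideanSpace ℂ (Fin 2) => w j) (e3 t)
    have hs := congrArg (fun w : EuclideanSpace ℂ (Fin 2) => w j) (hsplit t)
    have hN : ((‖deriv z t‖ ^ 2 : ℝ) : ℂ) = ((‖hor z t‖ ^ 2 : ℝ) : ℂ) + (hopf z t : ℂ) ^ 2 := by
      rw [hnh]
      push_cast
      ring
    have h6 : ((P : ℝ) : ℂ) = (f (r t) : ℂ) ^ 2 * (hopf z t : ℂ) := by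
      rw [← e2 t]
      push_cast
      ring
    simp only [PiLp.add_apply, PiLp.sub_apply, PiLp.smul_apply, smul_eq_mul, Complex.real_smul,
      PiLp.zero_apply] at hj hs ⊢
    rw [hN, h6, hs]
    push_cast at hj ⊢
    linear_combination hj + (2 * (f (r t) : ℂ) ^ 2 - (h (r t) : ℂ) ^ 2) * (hopf z t : ℂ) ^ 2 * z t j *
      Complex.I_sq
  · intro t
    rw [hΦd, hvs, hhs]
    exact e4 t
  · intro T hT t
    exact opt_eq hA he he1 L _ _ _ _ (hz1 _) (hz1 _) (by rw [← hpt', ← hpt', hT])

end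

end H804OP.Em
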