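import Pool.Agent.H804.OP.Defs

/-!
# Existence of a Clifford system on `ℝ^16` (the octonionic one, by signed permutation matrices)
-/

open Real Set
open scoped RealInnerProductSpace

namespace H804OP.Ex

/-- the translations -/
def mm : Fin 9 → Fin 16 := ![0, 8, 9, 10, 11, 12, 13, 14, 15]

/-- the sign patterns, as binary numbers -/
def ss : Fin 9 → ℕ := ![65280, 0, 21930, 39270, 49980, 27030, 4080, 42330, 13260]

/-- the signs -/
def sg (i : Fin 9) (j : Fin 16) : ℤ := if Nat.testBit (ss i) j.val then -1 else 1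

/-- the involutions -/
def pp (i : Fin 9) (j : Fin 16) : Fin 16 := ⟨(j.val ^^^ (mm i).val) % 16, Nat.mod_lt _ (by decide)⟩

lemma pp_invol : ∀ i j, pp i (pp i j) = j := by decide

lemma sg_symm : ∀ i j, sg i (pp i j) = sg i j := by decide

lemma sg_sq : ∀ i j, sg i j * sg i j = 1 := by decide

set_option maxRecDepth 100000 in
lemma pp_comm : ∀ i k j, pp i (pp k j) = pp k (pp i j) := by decide

set_option maxRecDepth 100000 in
lemma sg_anti : ∀ i k j, i ≠ k → sg i j * sg k (pp i j) + sg k j * sg i (pp k j) = 0 := by decide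

/-- the linear maps -/
noncomputable def AL (i : Fin 9) : E16 →ₗ[ℝ] E16 where
  toFun x := WithLp.toLp 2 (fun j => (sg i j : ℝ) * x (pp i j))
  map_add' x y := by
    ext j
    simp [mul_add]
  map_smul' c x := by
    ext j
    simp
    ring

/-- the Clifford system -/
noncomputable def AA (i : Fin 9) : E16 →L[ℝ] E16 := LinearMap.toContinuousLinearMap (AL i)

lemma AA_apply (i : Fin 9) (x : E16) (j : Fin 16) : AA i x j = (sg i j : ℝ) * x (pp i j) := rfl

theorem exists_clifford : ∃ A : Fin 9 → E16 →L[ℝ] E16, IsClifford A := by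
  refine ⟨AA, ?_, ?_, ?_⟩
  · intro i x y
    rw [PiLp.inner_apply, PiLp.inner_apply]
    have h := Equiv.sum_comp (Function.Involutive.toPerm (pp i) (pp_invol i))
      (fun j => ⟪x j, AA i y j⟫)
    rw [← h]
    apply Finset.sum_congr rfl
    intro j _
    rw [Function.Involutive.coe_toPerm, AA_apply, AA_apply, pp_invol, sg_symm]
    simp only [RCLike.inner_apply, conj_trivial]
    ring
  · intro i x
    ext j
    rw [AA_apply, AA_apply, pp_invol, sg_symm, ← mul_assoc]
    have h : ((sg i j : ℝ) * (sg i j : ℝ)) = 1 := by exact_mod_cast sg_sq i j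
    rw [h, one_mul]
  · intro i k x hik
    ext j
    rw [PiLp.add_apply, PiLp.zero_apply, AA_apply, AA_apply, AA_apply, AA_apply, pp_comm k i j]
    have h : ((sg i j : ℝ) * (sg k (pp i j) : ℝ) + (sg k j : ℝ) * (sg i (pp k j) : ℝ)) = 0 := by
      exact_mod_cast sg_anti i k j hik
    linear_combination x (pp i (pp k j)) * h

end H804OP.Ex
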