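import Pool.Graph.R_seed8.H738R3.CP.HL
import Pool.Graph.R_seed8.H738R3.CP.FP
import Pool.Agent.H804.OP.Cl

/-!
# Closed geodesics of the symmetric metric of the Cayley plane have length at least `π`
-/

open Real Set MeasureTheory Filter Topology
open scoped ContDiff RealInnerProductSpace
open H738CP

namespace H804OP.Low

open Cl

theorem per {E : Type} [NormedAddCommGroup E] [NormedSpace ℝ E] {Y V : ℝ → E} {om T : ℝ}
    (hom : 0 < om) (hT : 0 < T) (hlt : om * T < 2 * π) (h1 : ∀ t, HasDerivAt Y (V t) t)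
    (h2 : ∀ t, HasDerivAt V (-(om ^ 2) • Y t) t) (hper : ∀ t, Y (t + T) = Y t) (t : ℝ) :
    Y t = 0 := by
  have hVper : ∀ t, V (t + T) = V t := by
    intro t
    have e1 : HasDerivAt (fun s => Y (s + T)) (V (t + T)) t := (h1 (t + T)).comp_add_const t T
    have e2 : (fun s => Y (s + T)) = Y := funext hper
    rw [e2] at e1
    exact e1.unique (h1 t)
  have s1 : ∀ s, HasDerivAt (fun s => Y (t + s)) (V (t + s)) s := fun s =>
    (h1 (t + s)).comp_const_add t s
  have s2 : ∀ s, HasDerivAt (fun s => V (t + s)) (-(om ^ 2) • Y (t + s)) s := fun s =>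
    (h2 (t + s)).comp_const_add t s
  have s3 : ∀ s, HasDerivAt (fun s => -(om ^ 2) • Y (t + s)) (-(om ^ 2) • V (t + s)) s := fun s =>
    (s1 s).const_smul _
  have a1 := HL.osc hom s1 s2 T
  have a2 := HL.osc hom s2 s3 T
  simp only [add_zero, hper, hVper] at a1 a2
  have hc : Real.cos (om * T) ≠ 1 := by
    intro h
    have h0 : 0 < om * T := mul_pos hom hT
    have := (Real.cos_eq_one_iff_of_lt_of_lt (by linarith [Real.pi_pos]) hlt).1 h
    exact h0.ne' this
  have hcs := Real.sin_sq_add_cos_sq (om * T)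
  set c := Real.cos (om * T)
  set s := Real.sin (om * T)
  have b1 : (s / om) • V t = (c - 1) • Y t := by
    linear_combination (norm := module) (-1 : ℝ) • a1
  have b2 : (c - 1) • V t = -(s * om) • Y t := by
    have e : (s / om) • -(om ^ 2) • Y t = -(s * om) • Y t := by
      rw [smul_smul]
      congr 1
      field_simp
    rw [e] at a2
    linear_combination (norm := module) (1 : ℝ) • a2
  have b3 : (2 - 2 * c) • Y t = 0 := by
    have e1 : (c - 1) • (c - 1) • Y t = (s / om) • (c - 1) • V t := by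
      rw [← b1, smul_comm]
    rw [b2, smul_smul, smul_smul] at e1
    have e2 : s / om * -(s * om) = -s ^ 2 := by field_simp
    rw [e2] at e1
    have e3 : (2 - 2 * c) = (c - 1) * (c - 1) + s ^ 2 := by linear_combination -hcs
    rw [e3, add_smul, e1]
    rw [neg_smul, neg_add_cancel]
  rcases smul_eq_zero.1 b3 with h | h
  · exact absurd (by linarith) hc
  · exact h

theorem length_OP {A : Fin 9 → E16 →L[ℝ] E16} (hA : IsClifford A)
    {γ : ℝ → ℝ × E16 × (Fin 9 → ℝ)} {v T : ℝ} (hv : 0 < v) (hT : 0 < T)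
    (hγ : IsGeodesicOP A (π / 2) (fun r => Real.sin r * Real.cos r) Real.sin v γ)
    (hper : ∀ t, γ (t + T) = γ t) : π ≤ v * T := by
  by_contra hlt
  push Not at hlt
  obtain ⟨r, z, hr, hz, hz1, hpt, e1, e2, e3⟩ := hγ
  have hpi := Real.pi_pos
  -- derivatives
  have hzd : ∀ t, HasDerivAt z (deriv z t) t := fun t => (hz.differentiable (by norm_num) t).hasDerivAt
  have hrd : ∀ t, HasDerivAt r (deriv r t) t := fun t => (hr.differentiable (by norm_num) t).hasDerivAt
  have hdz : ContDiff ℝ 1 (deriv z) := by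
    have : ContDiff ℝ (1 + 1) z := by norm_num; exact hz
    exact (contDiff_succ_iff_deriv.1 this).2.2
  have hdr : ContDiff ℝ 1 (deriv r) := by
    have : ContDiff ℝ (1 + 1) r := by norm_num; exact hr
    exact (contDiff_succ_iff_deriv.1 this).2.2
  have hwd : ∀ t, HasDerivAt (deriv z) (deriv (deriv z) t) t := fun t =>
    (hdz.differentiable (by norm_num) t).hasDerivAt
  have hrdd : ∀ t, HasDerivAt (deriv r) (deriv (deriv r) t) t := fun t =>
    (hdr.differentiable (by norm_num) t).hasDerivAt
  have hfd : ∀ x, deriv (fun r => Real.sin r * Real.cos r) x = Real.cos x ^ 2 - Real.sin x ^ 2 :=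
    fun x => (FP.hasDeriv_sc x).deriv
  -- abbreviations
  set w := deriv z with hw
  set a : Fin 9 → ℝ → ℝ := fun i t => ⟪A i (z t), w t⟫ with ha
  set η : Fin 9 → ℝ → ℝ := fun i t => ⟪A i (z t), z t⟫ with hη
  set β : Fin 9 → ℝ → ℝ := fun i t => ⟪A i (w t), w t⟫ with hβ
  set S : ℝ → ℝ := fun t => hsq A (z t) (w t) with hS
  set N : ℝ → ℝ := fun t => ‖w t‖ ^ 2 with hN
  have hSa : ∀ t, S t = ∑ i, a i t ^ 2 := fun t => rfl
  have hvs : ∀ t, vsq A (z t) (w t) = N t - S t := fun t => rfl
  have hzz : ∀ t, ⟪z t, z t⟫ = (1 : ℝ) := by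
    intro t
    rw [real_inner_self_eq_norm_sq, hz1]
    norm_num
  have hzw : ∀ t, ⟪z t, w t⟫ = (0 : ℝ) := by
    intro t
    have h1 : HasDerivAt (fun s => ⟪z s, z s⟫) (⟪z t, w t⟫ + ⟪w t, z t⟫) t :=
      (hzd t).inner ℝ (hzd t)
    have h2 : (fun s => ⟪z s, z s⟫) = fun _ => (1 : ℝ) := funext hzz
    rw [h2] at h1
    have h3 := h1.unique (hasDerivAt_const t (1 : ℝ))
    rw [real_inner_comm (z t) (w t)] at h3
    linarith
  have hwz : ∀ t, ⟪w t, z t⟫ = (0 : ℝ) := fun t => by rw [real_inner_comm]; exact hzw t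
  have hww : ∀ t, ⟪w t, w t⟫ = N t := fun t => real_inner_self_eq_norm_sq _
  have hawz : ∀ i t, ⟪A i (w t), z t⟫ = a i t := by
    intro i t
    rw [hA.symm, real_inner_comm]
  have haz : ∀ i t, HasDerivAt (fun s => A i (z s)) (A i (w t)) t := fun i t =>
    (A i).hasFDerivAt.comp_hasDerivAt t (hzd t)
  have haw : ∀ i t, HasDerivAt (fun s => A i (w s)) (A i (deriv w t)) t := fun i t =>
    (A i).hasFDerivAt.comp_hasDerivAt t (hwd t)
  have had : ∀ i t, HasDerivAt (a i) (⟪A i (z t), deriv w t⟫ + β i t) t := fun i t =>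
    (haz i t).inner ℝ (hwd t)
  have hηd : ∀ i t, HasDerivAt (η i) (2 * a i t) t := by
    intro i t
    refine ((haz i t).inner ℝ (hzd t)).congr_deriv ?_
    rw [hawz]
    ring
  -- the momentum
  have hhorp : ∀ t, horp A (z t) (w t) = ∑ i, a i t • A i (z t) := fun t => rfl
  have hhd : ∀ t, HasDerivAt (fun s => ∑ i, a i s • A i (z s))
      (∑ i, (a i t • A i (w t) + (⟪A i (z t), deriv w t⟫ + β i t) • A i (z t))) t := by
    intro t
    exact HasDerivAt.fun_sum (fun i _ => (had i t).smul (haz i t))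
  set m : ℝ → E16 := mom A (fun r => Real.sin r * Real.cos r) Real.sin r z with hm
  set F : ℝ → ℝ := fun t => (Real.sin (r t) * Real.cos (r t)) ^ 2 with hF
  set H : ℝ → ℝ := fun t => Real.sin (r t) ^ 2 with hH
  have hmt : ∀ t, m t = F t • w t + (H t - F t) • ∑ i, a i t • A i (z t) := fun t => rfl
  have hsd : ∀ t, HasDerivAt (fun s => Real.sin (r s)) (Real.cos (r t) * deriv r t) t :=
    fun t => (hrd t).sin
  have hcd : ∀ t, HasDerivAt (fun s => Real.cos (r s)) (-Real.sin (r t) * deriv r t) t :=
    fun t => (hrd t).cos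
  have hFd : ∀ t, DifferentiableAt ℝ F t := fun t =>
    ((hsd t).differentiableAt.mul (hcd t).differentiableAt).pow 2
  have hHd : ∀ t, DifferentiableAt ℝ H t := fun t => (hsd t).differentiableAt.pow 2
  have hmd : ∀ t, HasDerivAt m (deriv m t) t := by
    intro t
    have h1 : DifferentiableAt ℝ (fun t => F t • w t + (H t - F t) • ∑ i, a i t • A i (z t)) t :=
      ((hFd t).smul (hwd t).differentiableAt).add
        (((hHd t).sub (hFd t)).smul (hhd t).differentiableAt)
    have h2 : m = fun t => F t • w t + (H t - F t) • ∑ i, a i t • A i (z t) := funext hmt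
    rw [h2]
    exact h1.hasDerivAt
  -- sums
  have hsum1 : ∀ i t, ⟪A i (z t), ∑ j, a j t • A j (z t)⟫ = a i t := by
    intro i t
    rw [inner_sum, Finset.sum_eq_single i]
    · rw [real_inner_smul_right, inner_AA hA, hzz, mul_one]
    · intro j _ hj
      rw [real_inner_smul_right, inner_orth hA hj.symm, mul_zero]
    · intro h
      exact absurd (Finset.mem_univ i) h
  have hkz : ∀ t, ∑ i, η i t • A i (z t) = z t := by
    intro t
    have := key hA (z t)
    rw [hz1, one_pow, one_smul] at this
    exact this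
  have haη : ∀ t, ∑ i, a i t * η i t = 0 := by
    intro t
    have h1 : ⟪∑ i, η i t • A i (z t), w t⟫ = ∑ i, a i t * η i t := by
      rw [sum_inner]
      apply Finset.sum_congr rfl
      intro i _
      rw [real_inner_smul_left, mul_comm]
    rw [← h1, hkz, hzw]
  have haβ : ∀ t, ∑ i, a i t * β i t = 0 := by
    intro t
    have h1 : ⟪∑ i, β i t • A i (w t), z t⟫ = ∑ i, a i t * β i t := by
      rw [sum_inner]
      apply Finset.sum_congr rfl
      intro i _
      rw [real_inner_smul_left, hawz, mul_comm]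
    rw [← h1, key hA (w t), real_inner_smul_left, hwz, mul_zero]
  have hmA : ∀ i t, ⟪A i (z t), m t⟫ = H t * a i t := by
    intro i t
    rw [hmt, inner_add_right, real_inner_smul_right, real_inner_smul_right, hsum1]
    show F t * a i t + _ = _
    ring
  have hmz : ∀ t, ⟪m t, z t⟫ = 0 := by
    intro t
    have h1 : ⟪∑ i, a i t • A i (z t), z t⟫ = 0 := by
      rw [sum_inner, ← haη t]
      apply Finset.sum_congr rfl
      intro i _
      rw [real_inner_smul_left]
    rw [hmt, inner_add_left, real_inner_smul_left, real_inner_smul_left, hwz, h1]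
    ring
  have hmw : ∀ t, ⟪m t, w t⟫ = F t * N t + (H t - F t) * S t := by
    intro t
    have h1 : ⟪∑ i, a i t • A i (z t), w t⟫ = S t := by
      rw [sum_inner, hSa]
      apply Finset.sum_congr rfl
      intro i _
      rw [real_inner_smul_left, pow_two]
    rw [hmt, inner_add_left, real_inner_smul_left, real_inner_smul_left, hww, h1]
  -- the multiplier
  choose l hl using e2
  have hm' : ∀ t, deriv m t = (H t - F t) • ∑ i, a i t • A i (w t) + l t • z t := by
    intro t
    have h1 := hl t
    have h2 : force A (fun r => Real.sin r * Real.cos r) Real.sin r z t =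
        (H t - F t) • ∑ i, a i t • A i (w t) := rfl
    rw [h2] at h1
    exact sub_eq_iff_eq_add'.1 h1
  have hlt' : ∀ t, l t = -(F t * N t) - 2 * ((H t - F t) * S t) := by
    intro t
    have h1 : HasDerivAt (fun s => ⟪m s, z s⟫) (⟪m t, w t⟫ + ⟪deriv m t, z t⟫) t :=
      (hmd t).inner ℝ (hzd t)
    have h2 : (fun s => ⟪m s, z s⟫) = fun _ => (0 : ℝ) := funext hmz
    rw [h2] at h1
    have h3 := h1.unique (hasDerivAt_const t (0 : ℝ))
    have h4 : ⟪∑ i, a i t • A i (w t), z t⟫ = S t := by
      rw [sum_inner, hSa]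
      apply Finset.sum_congr rfl
      intro i _
      rw [real_inner_smul_left, hawz, pow_two]
    rw [hmw, hm', inner_add_left, real_inner_smul_left, real_inner_smul_left, h4, hzz] at h3
    linarith
  have hud : ∀ i t, HasDerivAt (fun s => H s * a i s) (F t * β i t + l t * η i t) t := by
    intro i t
    have h1 : HasDerivAt (fun s => ⟪A i (z s), m s⟫) (⟪A i (z t), deriv m t⟫ + ⟪A i (w t), m t⟫) t :=
      (haz i t).inner ℝ (hmd t)
    have h2 : (fun s => ⟪A i (z s), m s⟫) = fun s => H s * a i s := funext (hmA i)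
    rw [h2] at h1
    refine h1.congr_deriv ?_
    rw [hm', hmt, inner_add_right, inner_add_right, real_inner_smul_right, real_inner_smul_right,
      real_inner_smul_right, real_inner_smul_right, inner_sum, inner_sum]
    have h3 : ∑ j, ⟪A i (z t), a j t • A j (w t)⟫ + ∑ j, ⟪A i (w t), a j t • A j (z t)⟫ = 0 := by
      rw [← Finset.sum_add_distrib]
      apply Finset.sum_eq_zero
      intro j _
      rw [real_inner_smul_right, real_inner_smul_right, ← mul_add]
      by_cases hij : i = j
      · subst hij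
        rw [inner_AA hA, inner_AA hA, hzw, hwz]
        ring
      · rw [real_inner_comm (A j (z t)) (A i (w t)), inner_Ai_Aj hA hij, mul_zero]
    show (H t - F t) * ∑ j, ⟪A i (z t), a j t • A j (w t)⟫ + l t * η i t +
      (F t * β i t + (H t - F t) * ∑ j, ⟪A i (w t), a j t • A j (z t)⟫) = _
    linear_combination (H t - F t) * h3
  -- the conserved quantity
  have hKd : ∀ t, HasDerivAt (fun s => H s ^ 2 * S s) 0 t := by
    intro t
    have h1 : HasDerivAt (fun s => ∑ i, (H s * a i s) ^ 2)
        (∑ i, 2 * (H t * a i t) * (F t * β i t + l t * η i t)) t := by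
      apply HasDerivAt.fun_sum
      intro i _
      refine ((hud i t).fun_pow 2).congr_deriv ?_
      simp
    have h2 : (fun s => ∑ i, (H s * a i s) ^ 2) = fun s => H s ^ 2 * S s := by
      funext s
      rw [hSa, Finset.mul_sum]
      apply Finset.sum_congr rfl
      intro i _
      rw [mul_pow]
    rw [h2] at h1
    refine h1.congr_deriv ?_
    have h3 : ∑ i, 2 * (H t * a i t) * (F t * β i t + l t * η i t) =
        2 * H t * F t * (∑ i, a i t * β i t) + 2 * H t * l t * (∑ i, a i t * η i t) := by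
      rw [Finset.mul_sum, Finset.mul_sum, ← Finset.sum_add_distrib]
      apply Finset.sum_congr rfl
      intro i _
      ring
    rw [h3, haη, haβ]
    ring
  obtain ⟨K, hK⟩ : ∃ K, ∀ t, H t ^ 2 * S t = K :=
    ⟨H 0 ^ 2 * S 0, fun t => is_const_of_deriv_eq_zero (fun t => (hKd t).differentiableAt)
      (fun t => (hKd t).deriv) t 0⟩
  -- the first component
  set C : ℝ → ℝ := fun t => Real.cos (2 * r t) with hC
  have hC2 : ∀ t, C t = Real.cos (r t) ^ 2 - Real.sin (r t) ^ 2 := fun t => Real.cos_two_mul' _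
  have hS2 : ∀ t, Real.sin (2 * r t) = 2 * Real.sin (r t) * Real.cos (r t) := fun t =>
    Real.sin_two_mul _
  have h2r : ∀ t, HasDerivAt (fun s => 2 * r s) (2 * deriv r t) t := fun t => (hrd t).const_mul 2
  set Y : ℝ → ℝ := fun t => -Real.sin (2 * r t) * (2 * deriv r t) with hY
  have hCd : ∀ t, HasDerivAt C (Y t) t := fun t => (h2r t).cos
  have hE : ∀ t, deriv r t ^ 2 + F t * (N t - S t) + H t * S t = v ^ 2 := fun t => e3 t
  have hR : ∀ t, deriv (deriv r) t = Real.sin (r t) * Real.cos (r t) *
      (Real.cos (r t) ^ 2 - Real.sin (r t) ^ 2) * (N t - S t) +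
      Real.sin (r t) * Real.cos (r t) * S t := by
    intro t
    have h1 := e1 t
    rw [hfd, Real.deriv_sin] at h1
    exact h1
  have hYd : ∀ t, HasDerivAt Y (-(4 * v ^ 2) * C t - 4 * K) t := by
    intro t
    have h1 : HasDerivAt Y (-(Real.cos (2 * r t) * (2 * deriv r t)) * (2 * deriv r t) +
        -Real.sin (2 * r t) * (2 * deriv (deriv r) t)) t :=
      ((h2r t).sin.neg).mul ((hrdd t).const_mul 2)
    refine h1.congr_deriv ?_
    rw [← hK t, hR t, hC2]
    have h2 := hE t
    have h3 : Real.cos (2 * r t) = Real.cos (r t) ^ 2 - Real.sin (r t) ^ 2 := hC2 t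
    rw [h3, hS2]
    simp only [hF, hH] at h2 ⊢
    linear_combination (-4 * (Real.cos (r t) ^ 2 - Real.sin (r t) ^ 2)) * h2
  have hpt2 : ∀ t, γ t = (C t, Real.sin (2 * r t) • z t, (1 - C t) • hopf9 A (z t)) := by
    intro t
    rw [hpt]
    unfold opt
    have h1 : π * r t / (π / 2) = 2 * r t := by
      field_simp
    rw [h1]
  have hCper : ∀ t, C (t + T) = C t := by
    intro t
    have h1 := hper t
    rw [hpt2, hpt2] at h1
    exact congrArg Prod.fst h1
  have hYper : ∀ t, Y (t + T) = Y t := by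
    intro t
    have e1 : HasDerivAt (fun s => C (s + T)) (Y (t + T)) t := (hCd (t + T)).comp_add_const t T
    have e2 : (fun s => C (s + T)) = C := funext hCper
    rw [e2] at e1
    exact e1.unique (hCd t)
  have h2v : 0 < 2 * v := by positivity
  have hlt2 : 2 * v * T < 2 * π := by linarith
  have hY0 : ∀ t, Y t = 0 := by
    apply per (V := fun t => -(4 * v ^ 2) * C t - 4 * K) h2v hT hlt2 hYd ?_ hYper
    intro t
    refine (((hCd t).const_mul (-(4 * v ^ 2))).sub_const _).congr_deriv ?_
    rw [smul_eq_mul]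
    ring
  have hCK : ∀ t, v ^ 2 * C t + K = 0 := by
    intro t
    have h1 := hYd t
    have h2 : Y = fun _ => (0 : ℝ) := funext hY0
    rw [h2] at h1
    have h3 := h1.unique (hasDerivAt_const t (0 : ℝ))
    linarith
  have hr0 : ∀ t, deriv r t = 0 := by
    intro t
    by_cases hs : Real.sin (2 * r t) = 0
    · have h1 : ∀ u, Real.sin (2 * r u) = 0 := by
        intro u
        have a1 := hCK t
        have a2 := hCK u
        have a3 : C u = C t := by
          have : v ^ 2 * (C u - C t) = 0 := by linarith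
          rcases mul_eq_zero.1 this with h | h
          · exact absurd h (by positivity)
          · linarith
        have a4 := Real.sin_sq_add_cos_sq (2 * r t)
        have a5 := Real.sin_sq_add_cos_sq (2 * r u)
        have a6 : Real.cos (2 * r u) = Real.cos (2 * r t) := a3
        rw [hs] at a4
        rw [a6] at a5
        have a7 : Real.sin (2 * r u) ^ 2 = 0 := by linarith
        exact pow_eq_zero_iff two_ne_zero |>.1 a7
      have h2 : HasDerivAt (fun u => Real.sin (2 * r u)) (Real.cos (2 * r t) * (2 * deriv r t)) t :=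
        (h2r t).sin
      have h3 : (fun u => Real.sin (2 * r u)) = fun _ => (0 : ℝ) := funext h1
      rw [h3] at h2
      have h4 := h2.unique (hasDerivAt_const t (0 : ℝ))
      have h5 : Real.cos (2 * r t) ≠ 0 := by
        intro h6
        have a4 := Real.sin_sq_add_cos_sq (2 * r t)
        rw [hs, h6] at a4
        norm_num at a4
      rcases mul_eq_zero.1 h4 with h | h
      · exact absurd h h5
      · linarith
    · have h1 := hY0 t
      rcases mul_eq_zero.1 h1 with h | h
      · exact absurd (neg_eq_zero.1 h) hs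
      · linarith
  have hrc : ∀ t, r t = r 0 := fun t =>
    is_const_of_deriv_eq_zero (fun t => (hrd t).differentiableAt) hr0 t 0
  -- constants
  obtain ⟨ρ, hρ⟩ : ∃ ρ, ∀ t, r t = ρ := ⟨r 0, hrc⟩
  set s := Real.sin ρ with hs
  set c := Real.cos ρ with hc
  have hsc : s ^ 2 + c ^ 2 = 1 := Real.sin_sq_add_cos_sq _
  have hFc : ∀ t, F t = s ^ 2 * c ^ 2 := by
    intro t
    simp only [hF, hρ]
    ring
  have hHc : ∀ t, H t = s ^ 2 := by
    intro t
    simp only [hH, hρ]
    rfl
  have hCc : ∀ t, C t = c ^ 2 - s ^ 2 := by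
    intro t
    rw [hC2, hρ]
  have hE2 : ∀ t, s ^ 2 * c ^ 2 * (N t - S t) + s ^ 2 * S t = v ^ 2 := by
    intro t
    have h1 := hE t
    rw [hr0, hFc, hHc] at h1
    linarith
  have hs0 : s ≠ 0 := by
    intro h
    have h1 := hE2 0
    rw [h] at h1
    have h2 : 0 < v ^ 2 := by positivity
    linarith
  have hK2 : ∀ t, v ^ 2 * (c ^ 2 - s ^ 2) + s ^ 4 * S t = 0 := by
    intro t
    have h1 := hCK t
    rw [hCc, ← hK t, hHc] at h1
    linarith
  have hG : s ^ 2 - s ^ 2 * c ^ 2 = s ^ 4 := by
    linear_combination (s ^ 2) * (-hsc)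
  have hlc : ∀ t, l t = -(2 * v ^ 2 * s ^ 2) := by
    intro t
    rw [hlt', hFc, hHc]
    linear_combination -hE2 t - hK2 t - S t * hG + v ^ 2 * hsc
  have hFN : ∀ t, F t * N t = 2 * v ^ 2 * c ^ 2 := by
    intro t
    rw [hFc]
    linear_combination hE2 t - hK2 t - S t * hG - v ^ 2 * hsc
  -- the derivative of `a`
  have had2 : ∀ i t, HasDerivAt (a i) ((F t * β i t + l t * η i t) / s ^ 2) t := by
    intro i t
    have h1 := (hud i t).div_const (s ^ 2)
    refine h1.congr_of_eventuallyEq ?_
    refine Eventually.of_forall (fun u => ?_)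
    simp only [hHc]
    field_simp
  have hFw : ∀ t, F t • deriv w t = l t • z t -
      (H t - F t) • ∑ i, ((F t * β i t + l t * η i t) / s ^ 2) • A i (z t) := by
    intro t
    have h0 : (fun u => m u) = fun u => (s ^ 2 * c ^ 2) • w u + (s ^ 2 - s ^ 2 * c ^ 2) •
        ∑ i, a i u • A i (z u) := by
      funext u
      rw [hmt, hFc, hHc]
    have h1 : HasDerivAt (fun u => ∑ i, a i u • A i (z u))
        (∑ i, (a i t • A i (w t) + ((F t * β i t + l t * η i t) / s ^ 2) • A i (z t))) t :=
      HasDerivAt.fun_sum (fun i _ => (had2 i t).smul (haz i t))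
    have h2 : HasDerivAt (fun u => m u) ((s ^ 2 * c ^ 2) • deriv w t + (s ^ 2 - s ^ 2 * c ^ 2) •
        (∑ i, (a i t • A i (w t) + ((F t * β i t + l t * η i t) / s ^ 2) • A i (z t)))) t := by
      rw [h0]
      exact ((hwd t).const_smul (s ^ 2 * c ^ 2)).add (h1.const_smul (s ^ 2 - s ^ 2 * c ^ 2))
    have h3 := h2.unique (hmd t)
    rw [hm', Finset.sum_add_distrib, hHc, hFc] at h3
    rw [hHc, hFc]
    linear_combination (norm := module) (1 : ℝ) • h3
  -- the derivative of `F β` vanishes
  have hwA : ∀ i t, ∑ j, η j t * ⟪A i (w t), A j (z t)⟫ = a i t := by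
    intro i t
    have h1 : ⟪A i (w t), ∑ j, η j t • A j (z t)⟫ = ∑ j, η j t * ⟪A i (w t), A j (z t)⟫ := by
      rw [inner_sum]
      apply Finset.sum_congr rfl
      intro j _
      rw [real_inner_smul_right]
    rw [← h1, hkz, hawz]
  have hwB : ∀ i t, ∑ j, β j t * ⟪A i (w t), A j (z t)⟫ = -(N t * a i t) := by
    intro i t
    have h1 : ⟪A i (w t), ∑ j, β j t • A j (z t)⟫ = ∑ j, β j t * ⟪A i (w t), A j (z t)⟫ := by
      rw [inner_sum]
      apply Finset.sum_congr rfl
      intro j _
      rw [real_inner_smul_right]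
    have h2 : (2 : ℝ) • ∑ j, a j t • A j (w t) + ∑ j, β j t • A j (z t) = N t • z t := by
      have h3 := key2 hA (w t) (z t)
      rw [hwz, mul_zero, zero_smul, add_zero] at h3
      rw [← h3]
      congr 2
      apply Finset.sum_congr rfl
      intro j _
      rw [hawz]
    have h3 : ⟪A i (w t), ∑ j, a j t • A j (w t)⟫ = N t * a i t := by
      rw [inner_sum, Finset.sum_eq_single i]
      · rw [real_inner_smul_right, inner_AA hA, hww, mul_comm]
      · intro j _ hj
        rw [real_inner_smul_right, inner_orth hA hj.symm, mul_zero]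
      · intro h
        exact absurd (Finset.mem_univ i) h
    have h4 := congrArg (fun x => ⟪A i (w t), x⟫) h2
    simp only [inner_add_right, real_inner_smul_right] at h4
    rw [h3, h1, hawz] at h4
    linarith
  have hBd : ∀ i t, HasDerivAt (fun u => F u * β i u) 0 t := by
    intro i t
    have h0 : (fun u => F u * β i u) = fun u => (s ^ 2 * c ^ 2) * β i u := by
      funext u
      rw [hFc]
    rw [h0]
    have h1 : HasDerivAt (β i) (⟪A i (w t), deriv w t⟫ + ⟪A i (deriv w t), w t⟫) t :=
      (haw i t).inner ℝ (hwd t)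
    have h2 : ⟪A i (deriv w t), w t⟫ = ⟪A i (w t), deriv w t⟫ := by
      rw [hA.symm, real_inner_comm]
    refine (h1.const_mul (s ^ 2 * c ^ 2)).congr_deriv ?_
    rw [h2, ← hFc t]
    have h3 : F t * ⟪A i (w t), deriv w t⟫ = 0 := by
      rw [← real_inner_smul_right, hFw, inner_sub_right, real_inner_smul_right,
        real_inner_smul_right, hawz, inner_sum]
      have h4 : ∑ j, ⟪A i (w t), ((F t * β j t + l t * η j t) / s ^ 2) • A j (z t)⟫ =
          (F t * (-(N t * a i t)) + l t * a i t) / s ^ 2 := by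
        rw [← hwB, ← hwA i t, Finset.mul_sum, Finset.mul_sum, ← Finset.sum_add_distrib,
          Finset.sum_div]
        apply Finset.sum_congr rfl
        intro j _
        rw [real_inner_smul_right]
        ring
      rw [h4, hHc, hFc t, hG]
      have h5 : s ^ 2 * c ^ 2 * -(N t * a i t) = -(2 * v ^ 2 * c ^ 2) * a i t := by
        rw [← hFN t, hFc]
        ring
      rw [h5, hlc]
      field_simp
      linear_combination (2 * v ^ 2 * s ^ 2 * a i t) * hsc
    linear_combination 2 * h3
  -- the second derivative of `a`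
  have ha2 : ∀ i t, HasDerivAt (fun u => (F u * β i u + l u * η i u) / s ^ 2)
      (-((2 * v) ^ 2) • a i t) t := by
    intro i t
    have h0 : (fun u => (F u * β i u + l u * η i u) / s ^ 2) =
        fun u => (F u * β i u + -(2 * v ^ 2 * s ^ 2) * η i u) / s ^ 2 := by
      funext u
      rw [hlc]
    rw [h0]
    refine (((hBd i t).add ((hηd i t).const_mul (-(2 * v ^ 2 * s ^ 2)))).div_const
      (s ^ 2)).congr_deriv ?_
    rw [smul_eq_mul]
    field_simp
    ring
  have hs2 : 1 - (c ^ 2 - s ^ 2) ≠ 0 := by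
    have h1 : 1 - (c ^ 2 - s ^ 2) = 2 * s ^ 2 := by linear_combination -hsc
    rw [h1]
    positivity
  have hηper : ∀ i t, η i (t + T) = η i t := by
    intro i t
    have h1 := hper t
    rw [hpt2, hpt2, hCc, hCc] at h1
    have h2 := congrArg (fun p : ℝ × E16 × (Fin 9 → ℝ) => p.2.2 i) h1
    simp only [Pi.smul_apply, smul_eq_mul] at h2
    exact mul_left_cancel₀ hs2 h2
  have haper : ∀ i t, a i (t + T) = a i t := by
    intro i t
    have e1 : HasDerivAt (fun s => η i (s + T)) (2 * a i (t + T)) t :=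
      (hηd i (t + T)).comp_add_const t T
    have e2 : (fun s => η i (s + T)) = η i := funext (hηper i)
    rw [e2] at e1
    have e3 := e1.unique (hηd i t)
    linarith
  have ha0 : ∀ i t, a i t = 0 := fun i =>
    per h2v hT hlt2 (had2 i) (ha2 i) (haper i)
  have hS0 : ∀ t, S t = 0 := by
    intro t
    rw [hSa]
    apply Finset.sum_eq_zero
    intro i _
    rw [ha0]
    norm_num
  have hcs : c ^ 2 - s ^ 2 = 0 := by
    have h1 := hK2 0
    rw [hS0, mul_zero, add_zero] at h1
    rcases mul_eq_zero.1 h1 with h | h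
    · exact absurd h (by positivity)
    · exact h
  have hs2' : s ^ 2 = 1 / 2 := by linarith
  have hc2' : c ^ 2 = 1 / 2 := by linarith
  have had0 : ∀ i t, (F t * β i t + l t * η i t) / s ^ 2 = 0 := by
    intro i t
    have h1 := had2 i t
    have h2 : a i = fun _ => (0 : ℝ) := funext (ha0 i)
    rw [h2] at h1
    exact h1.unique (hasDerivAt_const t (0 : ℝ))
  have hw' : ∀ t, HasDerivAt w (-((2 * v) ^ 2) • z t) t := by
    intro t
    refine (hwd t).congr_deriv ?_
    have h1 := hFw t
    have h2 : ∑ i, ((F t * β i t + l t * η i t) / s ^ 2) • A i (z t) = 0 := by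
      apply Finset.sum_eq_zero
      intro i _
      rw [had0, zero_smul]
    rw [h2, smul_zero, sub_zero, hFc, hlc, hs2', hc2'] at h1
    linear_combination (norm := module) (4 : ℝ) • h1
  have hzper : ∀ t, z (t + T) = z t := by
    intro t
    have h1 := hper t
    rw [hpt2, hpt2, hρ, hρ] at h1
    have h2 := congrArg (fun p : ℝ × E16 × (Fin 9 → ℝ) => p.2.1) h1
    simp only at h2
    have h3 : Real.sin (2 * ρ) ≠ 0 := by
      rw [Real.sin_two_mul]
      intro h4
      have h5 : (2 * Real.sin ρ * Real.cos ρ) ^ 2 = 0 := by rw [h4]; norm_num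
      have h6 : (2 * Real.sin ρ * Real.cos ρ) ^ 2 = 4 * s ^ 2 * c ^ 2 := by
        rw [← hs, ← hc]; ring
      rw [h6, hs2', hc2'] at h5
      norm_num at h5
    exact smul_right_injective _ h3 h2
  have hz0 : ∀ t, z t = 0 := per h2v hT hlt2 hzd hw' hzper
  have h1 := hz1 0
  rw [hz0, norm_zero] at h1
  exact zero_ne_one h1

end H804OP.Low
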