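import Pool.Graph.R_seed8.H738R3.CP.VB

/-!
# The volume bound on the Cayley plane
-/

open Real Set MeasureTheory
open scoped ContDiff
open Pool.Agent.H206R2.Rot2 (Veff)
open Pool.Agent.H206R2.Rot2.TI (gg gg_measurable gg_nonneg gg_bound gg_integrable gg_integral SC)
open H738CP
open H738CP.VB (Reg_measurable Reg_subset snd_le Reg_subset_Ioc key_iff gg_le gg_lt)

namespace H804OP.Vol

/-- the integrand of the layer cake formula -/
noncomputable def AA (c : ℝ × ℝ) (t : ℝ) : ℝ :=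
  (if c.1 + √(c.1 ^ 2 + c.2 ^ 2) < t then 1 else 0) * (c.1 ^ 6 * c.2 ^ 7)

lemma AA_meas : Measurable (fun p : (ℝ × ℝ) × ℝ => AA p.1 p.2) := by
  unfold AA
  apply Measurable.mul
  · exact Measurable.ite (measurableSet_lt (by fun_prop) (by fun_prop)) measurable_const
      measurable_const
  · fun_prop

lemma AA_bound {R : ℝ} {c : ℝ × ℝ} (t : ℝ) (h01 : 0 < c.1) (h02 : c.1 ≤ R)
    (h1 : 0 < c.2) (h2 : c.2 ≤ R) :
    ‖AA c t‖ ≤ R ^ 6 * R ^ 7 := by
  have h3 : c.2 ^ 7 ≤ R ^ 7 := pow_le_pow_left₀ h1.le h2 7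
  have h4 : c.1 ^ 6 ≤ R ^ 6 := pow_le_pow_left₀ h01.le h02 6
  have hR : 0 < R := lt_of_lt_of_le h01 h02
  have h5 : c.1 ^ 6 * c.2 ^ 7 ≤ R ^ 6 * R ^ 7 :=
    mul_le_mul h4 h3 (pow_pos h1 7).le (by positivity)
  have h6 : 0 < c.1 ^ 6 * c.2 ^ 7 := mul_pos (pow_pos h01 6) (pow_pos h1 7)
  unfold AA
  rw [Real.norm_eq_abs, abs_mul, abs_of_pos h6]
  split_ifs
  · rw [abs_one, one_mul]; exact h5
  · rw [abs_zero, zero_mul]; exact h6.le.trans h5

lemma step1 {R : ℝ} {c : ℝ × ℝ} (h1 : 0 < c.1) :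
    ∫ t in Ioc 0 R, AA c t =
      max (R - c.1 - √(c.1 ^ 2 + c.2 ^ 2)) 0 * (c.1 ^ 6 * c.2 ^ 7) := by
  unfold AA
  rw [integral_mul_const]
  congr 1
  set s := c.1 + √(c.1 ^ 2 + c.2 ^ 2) with hs
  have hs0 : 0 < s := by
    have := Real.sqrt_nonneg (c.1 ^ 2 + c.2 ^ 2)
    linarith
  have e : (fun t : ℝ => if s < t then (1 : ℝ) else 0) = indicator (Ioi s) (fun _ => (1 : ℝ)) := by
    ext t
    simp [indicator]
  rw [e, setIntegral_indicator measurableSet_Ioi, Ioc_inter_Ioi, setIntegral_const,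
    Real.volume_real_Ioc, max_eq_right hs0.le, smul_eq_mul, mul_one, hs, sub_add_eq_sub_sub]

lemma inner {R t : ℝ} (ht : 0 < t) (htR : t ≤ R) (y : ℝ) :
    ∫ x in Ioc 0 R, AA (x, y) t = max ((t ^ 2 - y ^ 2) / (2 * t)) 0 ^ 7 / 7 * y ^ 7 := by
  unfold AA
  change ∫ x in Ioc 0 R, (if x + √(x ^ 2 + y ^ 2) < t then (1 : ℝ) else 0) * (x ^ 6 * y ^ 7) = _
  have e0 : (fun x : ℝ => (if x + √(x ^ 2 + y ^ 2) < t then (1 : ℝ) else 0) * (x ^ 6 * y ^ 7)) =
      fun x : ℝ => ((if x + √(x ^ 2 + y ^ 2) < t then (1 : ℝ) else 0) * x ^ 6) * y ^ 7 := by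
    funext x
    ring
  rw [e0, integral_mul_const]
  congr 1
  set X := (t ^ 2 - y ^ 2) / (2 * t) with hX
  have hXt : X ≤ t / 2 := by
    rw [hX, div_le_div_iff₀ (by positivity) (by positivity)]
    nlinarith [sq_nonneg y]
  have e : ∫ x in Ioc 0 R, (if x + √(x ^ 2 + y ^ 2) < t then (1 : ℝ) else 0) * x ^ 6 =
      ∫ x in Ioc 0 R, indicator (Iio X) (fun x => x ^ 6) x := by
    apply setIntegral_congr_fun measurableSet_Ioc
    intro x hx
    simp only [indicator, mem_Iio, key_iff hx.1 ht, ← hX]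
    split_ifs <;> simp
  rw [e, setIntegral_indicator measurableSet_Iio]
  have e2 : Ioc 0 R ∩ Iio X = Ioo 0 X := by
    ext x
    simp only [mem_inter_iff, mem_Ioc, mem_Iio, mem_Ioo]
    constructor
    · rintro ⟨⟨a1, a2⟩, a3⟩
      exact ⟨a1, a3⟩
    · rintro ⟨a1, a3⟩
      exact ⟨⟨a1, by linarith⟩, a3⟩
  rw [e2]
  rcases le_or_gt X 0 with hX0 | hX0
  · rw [Ioo_eq_empty (not_lt.2 hX0), max_eq_right hX0]
    simp
  · rw [max_eq_left hX0.le, ← integral_Ioc_eq_integral_Ioo,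
      ← intervalIntegral.integral_of_le hX0.le, integral_pow]
    norm_num

lemma AA_int_box {R : ℝ} (t : ℝ) :
    IntegrableOn (fun c : ℝ × ℝ => AA c t) (Ioc 0 R ×ˢ Ioc 0 R) := by
  refine Measure.integrableOn_of_bounded (M := R ^ 6 * R ^ 7) ?_ ?_ ?_
  · rw [Measure.volume_eq_prod, Measure.prod_prod]
    simp [ENNReal.mul_eq_top]
  · exact (AA_meas.comp (measurable_id.prodMk measurable_const)).aestronglyMeasurable
  · filter_upwards [ae_restrict_mem (measurableSet_Ioc.prod measurableSet_Ioc)] with c hc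
    exact AA_bound t hc.1.1 hc.1.2 hc.2.1 hc.2.2

lemma poly_int {t : ℝ} (ht : 0 < t) :
    ∫ y in (0 : ℝ)..t, (1 / (896 * t ^ 7)) * ((t ^ 2 - y ^ 2) ^ 7 * y ^ 7) = t ^ 15 / 2365440 := by
  have hd : ∀ y ∈ uIcc (0 : ℝ) t, HasDerivAt (fun y : ℝ => (1 / (896 * t ^ 7)) *
      (t ^ 14 * y ^ 8 / 8 - 7 * t ^ 12 * y ^ 10 / 10 + 21 * t ^ 10 * y ^ 12 / 12
        - 35 * t ^ 8 * y ^ 14 / 14 + 35 * t ^ 6 * y ^ 16 / 16 - 21 * t ^ 4 * y ^ 18 / 18
        + 7 * t ^ 2 * y ^ 20 / 20 - y ^ 22 / 22))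
      ((1 / (896 * t ^ 7)) * ((t ^ 2 - y ^ 2) ^ 7 * y ^ 7)) y := by
    intro y _
    have h8 := ((hasDerivAt_pow 8 y).const_mul (t ^ 14)).div_const 8
    have h10 := ((hasDerivAt_pow 10 y).const_mul (7 * t ^ 12)).div_const 10
    have h12 := ((hasDerivAt_pow 12 y).const_mul (21 * t ^ 10)).div_const 12
    have h14 := ((hasDerivAt_pow 14 y).const_mul (35 * t ^ 8)).div_const 14
    have h16 := ((hasDerivAt_pow 16 y).const_mul (35 * t ^ 6)).div_const 16
    have h18 := ((hasDerivAt_pow 18 y).const_mul (21 * t ^ 4)).div_const 18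
    have h20 := ((hasDerivAt_pow 20 y).const_mul (7 * t ^ 2)).div_const 20
    have h22 := (hasDerivAt_pow 22 y).div_const 22
    refine (((((((((h8.sub h10).add h12).sub h14).add h16).sub h18).add h20).sub h22)).const_mul
      (1 / (896 * t ^ 7))).congr_deriv ?_
    congr 1
    push_cast
    norm_num
    ring
  rw [intervalIntegral.integral_eq_sub_of_hasDerivAt hd
    (Continuous.intervalIntegrable (by fun_prop) _ _)]
  have ht0 : t ≠ 0 := ht.ne'
  field_simp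
  ring

lemma step2 {R t : ℝ} (ht : 0 < t) (htR : t ≤ R) :
    ∫ c in Ioc 0 R ×ˢ Ioc 0 R, AA c t = t ^ 15 / 2365440 := by
  have hi := AA_int_box (R := R) t
  unfold IntegrableOn at hi
  rw [Measure.volume_eq_prod, ← Measure.prod_restrict] at hi ⊢
  rw [integral_prod_symm _ hi]
  simp_rw [inner ht htR]
  have e1 : ∫ y in Ioc 0 R, max ((t ^ 2 - y ^ 2) / (2 * t)) 0 ^ 7 / 7 * y ^ 7 =
      ∫ y in Ioc 0 t, max ((t ^ 2 - y ^ 2) / (2 * t)) 0 ^ 7 / 7 * y ^ 7 := by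
    apply setIntegral_eq_of_subset_of_forall_sdiff_eq_zero measurableSet_Ioc
      (Ioc_subset_Ioc_right htR)
    intro y hy
    have h1 : t < y := by
      by_contra h
      exact hy.2 ⟨hy.1.1, not_lt.1 h⟩
    have h2 : (t ^ 2 - y ^ 2) / (2 * t) ≤ 0 :=
      div_nonpos_of_nonpos_of_nonneg (by nlinarith) (by positivity)
    rw [max_eq_right h2]
    ring
  have e2 : ∫ y in Ioc 0 t, max ((t ^ 2 - y ^ 2) / (2 * t)) 0 ^ 7 / 7 * y ^ 7 =
      ∫ y in Ioc 0 t, (1 / (896 * t ^ 7)) * ((t ^ 2 - y ^ 2) ^ 7 * y ^ 7) := by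
    apply setIntegral_congr_fun measurableSet_Ioc
    intro y hy
    have h2 : 0 ≤ (t ^ 2 - y ^ 2) / (2 * t) :=
      div_nonneg (by nlinarith [hy.1, hy.2]) (by positivity)
    simp only
    rw [max_eq_left h2, div_pow, mul_pow]
    field_simp
    ring
  rw [e1, e2, ← intervalIntegral.integral_of_le ht.le, poly_int ht]

lemma lower_int {R : ℝ} (hR : 0 < R) :
    ∫ c in Reg R, π * (R - c.1 - √(c.1 ^ 2 + c.2 ^ 2)) * (c.1 ^ 6 * c.2 ^ 7) =
      π * (R ^ 16 / 37847040) := by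
  set S : Set (ℝ × ℝ) := Ioc (0 : ℝ) R ×ˢ Ioc (0 : ℝ) R with hS
  have hSm : MeasurableSet S := measurableSet_Ioc.prod measurableSet_Ioc
  have e0 : ∫ c in Reg R, π * (R - c.1 - √(c.1 ^ 2 + c.2 ^ 2)) * (c.1 ^ 6 * c.2 ^ 7) =
      ∫ c in Reg R, π * (max (R - c.1 - √(c.1 ^ 2 + c.2 ^ 2)) 0 * (c.1 ^ 6 * c.2 ^ 7)) := by
    apply setIntegral_congr_fun (Reg_measurable R)
    intro c hc
    simp only
    rw [max_eq_left (by linarith [hc.2.2])]
    ring
  have e1 : ∫ c in Reg R, π * (max (R - c.1 - √(c.1 ^ 2 + c.2 ^ 2)) 0 * (c.1 ^ 6 * c.2 ^ 7)) =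
      ∫ c in S, π * (max (R - c.1 - √(c.1 ^ 2 + c.2 ^ 2)) 0 * (c.1 ^ 6 * c.2 ^ 7)) := by
    symm
    apply setIntegral_eq_of_subset_of_forall_sdiff_eq_zero hSm (Reg_subset_Ioc R)
    intro c hc
    have : R ≤ c.1 + √(c.1 ^ 2 + c.2 ^ 2) := by
      by_contra h
      exact hc.2 ⟨hc.1.1.1, hc.1.2.1, not_le.1 h⟩
    rw [max_eq_right (by linarith)]
    ring
  rw [e0, e1, integral_const_mul]
  congr 1
  have e2 : ∫ c in S, max (R - c.1 - √(c.1 ^ 2 + c.2 ^ 2)) 0 * (c.1 ^ 6 * c.2 ^ 7) =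
      ∫ c in S, ∫ t in Ioc 0 R, AA c t := by
    apply setIntegral_congr_fun hSm
    intro c hc
    exact (step1 hc.1.1).symm
  rw [e2]
  have hSfin : volume S ≠ ⊤ := by
    rw [hS, Measure.volume_eq_prod, Measure.prod_prod]
    simp [ENNReal.mul_eq_top]
  have : IsFiniteMeasure (volume.restrict S) :=
    ⟨by rw [Measure.restrict_apply_univ]; exact lt_top_iff_ne_top.2 hSfin⟩
  have hint : Integrable (fun p : (ℝ × ℝ) × ℝ => AA p.1 p.2)
      ((volume.restrict S).prod (volume.restrict (Ioc (0 : ℝ) R))) := by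
    refine Integrable.of_bound AA_meas.aestronglyMeasurable (R ^ 6 * R ^ 7) ?_
    rw [Measure.prod_restrict]
    filter_upwards [ae_restrict_mem (hSm.prod measurableSet_Ioc)] with p hp
    exact AA_bound p.2 hp.1.1.1 hp.1.1.2 hp.1.2.1 hp.1.2.2
  rw [integral_integral_swap hint]
  have e3 : ∫ t in Ioc 0 R, ∫ c in S, AA c t = ∫ t in Ioc 0 R, (1 / 2365440) * t ^ 15 := by
    apply setIntegral_congr_fun measurableSet_Ioc
    intro t ht
    simp only
    rw [hS, step2 ht.1 ht.2]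
    ring
  rw [e3, ← intervalIntegral.integral_of_le hR.le, intervalIntegral.integral_const_mul,
    integral_pow]
  norm_num
  ring

/-! ### The theorem -/

theorem volume_boundOP {L : ℝ} {f h : ℝ → ℝ} (hf : IsProfileCP L f h)
    {R : ℝ} (hR : 0 < R)
    (hA : ∀ c ∈ Reg R, π * (R - c.1 - √(c.1 ^ 2 + c.2 ^ 2)) ≤
      2 * ∫ r in Ioo 0 L, √(1 - Veff f h c.1 c.2 r))
    (hbig : ∃ r, 0 < r ∧ r < L ∧ R < 2 * f r) :
    R ^ 16 < 2640 * ∫ r in (0 : ℝ)..L, f r ^ 7 * h r ^ 8 := by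
  have hfc : Continuous f := hf.smooth_f.continuous
  have hhc : Continuous h := hf.smooth_h.continuous
  have hfm : Measurable f := hfc.measurable
  have hhm : Measurable h := hhc.measurable
  set J1 := ∫ x in (0 : ℝ)..1, √(1 - x ^ 2) * x ^ 7 with hJ1
  set K := J1 * SC 6 (7 + 3) with hK
  set μ : Measure ℝ := volume.restrict (Ioo 0 L) with hμ
  set ν : Measure (ℝ × ℝ) := volume.restrict (Reg R) with hν
  have hTfin : volume (Reg R) ≠ ⊤ := by
    have h1 : volume (Icc (0 : ℝ) R ×ˢ Icc (0 : ℝ) R) < ⊤ :=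
      (isCompact_Icc.prod isCompact_Icc).measure_lt_top
    exact ((measure_mono ((Reg_subset_Ioc R).trans
      (prod_mono Ioc_subset_Icc_self Ioc_subset_Icc_self))).trans_lt h1).ne
  have : IsFiniteMeasure ν := ⟨by rw [hν, Measure.restrict_apply_univ]; exact lt_top_iff_ne_top.2 hTfin⟩
  have : IsFiniteMeasure μ := ⟨by rw [hμ, Measure.restrict_apply_univ]; simp⟩
  -- Fubini
  have hmeas : Measurable (fun p : ℝ × (ℝ × ℝ) => gg (f p.1) (h p.1) 6 7 p.2) := by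
    unfold gg
    fun_prop
  have hint : Integrable (fun p : ℝ × (ℝ × ℝ) => gg (f p.1) (h p.1) 6 7 p.2) (μ.prod ν) := by
    have hb : ∀ᵐ p ∂(μ.prod ν), ‖gg (f p.1) (h p.1) 6 7 p.2‖ ≤ R ^ 6 * R ^ 7 := by
      have e : μ.prod ν = (volume.prod volume).restrict (Ioo 0 L ×ˢ Reg R) := by
        rw [hμ, hν, Measure.prod_restrict]
      rw [e]
      filter_upwards [ae_restrict_mem (measurableSet_Ioo.prod (Reg_measurable R))] with p hp
      have h1 := (Reg_subset_Ioc R) hp.2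
      exact gg_bound 6 7 hp.2.1 hp.2.2.1 h1.1.2 h1.2.2
    exact Integrable.of_bound hmeas.aestronglyMeasurable _ hb
  have hswap := integral_integral_swap (f := fun r c => gg (f r) (h r) 6 7 c) (μ := μ) (ν := ν) hint
  -- lower bound
  have hact : ∀ c : ℝ × ℝ, (2 * ∫ r in Ioo 0 L, √(1 - Veff f h c.1 c.2 r)) * (c.1 ^ 6 * c.2 ^ 7) =
      2 * ∫ r, gg (f r) (h r) 6 7 c ∂μ := by
    intro c
    rw [mul_assoc, ← integral_mul_const]
    rfl
  have h1 : π * (R ^ 16 / 37847040) ≤ 2 * ∫ c, ∫ r, gg (f r) (h r) 6 7 c ∂μ ∂ν := by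
    rw [← lower_int hR, ← integral_const_mul]
    apply setIntegral_mono_on _ _ (Reg_measurable R)
    · intro c hc
      rw [← hact]
      apply mul_le_mul_of_nonneg_right (hA c hc)
      have := hc.1
      have := hc.2.1
      positivity
    · have h2 : IntegrableOn (fun c : ℝ × ℝ =>
          π * (R - c.1 - √(c.1 ^ 2 + c.2 ^ 2)) * (c.1 ^ 6 * c.2 ^ 7))
          (Icc (0 : ℝ) R ×ˢ Icc (0 : ℝ) R) :=
        (Continuous.continuousOn (by fun_prop)).integrableOn_compact (isCompact_Icc.prod isCompact_Icc)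
      exact h2.mono_set ((Reg_subset_Ioc R).trans
        (prod_mono Ioc_subset_Icc_self Ioc_subset_Icc_self))
    · exact (hint.integral_prod_right).const_mul 2
  rw [← hswap] at h1
  -- comparison
  have hIm : Integrable (fun r => ∫ c, gg (f r) (h r) 6 7 c ∂ν) μ := hint.integral_prod_left
  have hfi : Integrable (fun r => f r ^ (6 + 1) * h r ^ (7 + 1) * K) μ := by
    have h3 : IntegrableOn (fun r => f r ^ (6 + 1) * h r ^ (7 + 1) * K) (Icc 0 L) :=
      (Continuous.continuousOn (by fun_prop)).integrableOn_Icc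
    exact h3.mono_set Ioo_subset_Icc_self
  have h3 : ∫ r, ∫ c, gg (f r) (h r) 6 7 c ∂ν ∂μ < ∫ r, f r ^ (6 + 1) * h r ^ (7 + 1) * K ∂μ := by
    rw [← sub_pos, ← integral_sub hfi hIm]
    rw [integral_pos_iff_support_of_nonneg_ae]
    · obtain ⟨r₀, hr0, hrL, hrR⟩ := hbig
      have hopen : IsOpen (Ioo 0 L ∩ {r | R < 2 * f r}) :=
        isOpen_Ioo.inter (isOpen_lt continuous_const (by fun_prop))
      have hpos : 0 < volume (Ioo 0 L ∩ {r | R < 2 * f r}) :=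
        hopen.measure_pos volume ⟨r₀, ⟨hr0, hrL⟩, hrR⟩
      have hμpos : 0 < μ (Ioo 0 L ∩ {r | R < 2 * f r}) := by
        rw [hμ, Measure.restrict_apply hopen.measurableSet]
        have : Ioo 0 L ∩ {r | R < 2 * f r} ∩ Ioo 0 L = Ioo 0 L ∩ {r | R < 2 * f r} := by
          ext x; simp; tauto
        rwa [this]
      refine hμpos.trans_le (measure_mono ?_)
      intro r hr
      rw [Function.mem_support]
      have h5 := gg_lt (hf.f_pos r hr.1.1 hr.1.2) (hf.h_pos r hr.1.1 hr.1.2.le) hR hr.2 6 7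
      exact (sub_pos.mpr h5).ne'
    · have hae : ∀ᵐ r ∂μ, r ∈ Ioo 0 L := ae_restrict_mem measurableSet_Ioo
      filter_upwards [hae] with r hr
      have h5 := gg_le (R := R) (hf.f_pos r hr.1 hr.2) (hf.h_pos r hr.1 hr.2.le) 6 7
      simp only [Pi.zero_apply]
      exact sub_nonneg.2 h5
    · exact hfi.sub hIm
  have h4 : ∫ r, f r ^ (6 + 1) * h r ^ (7 + 1) * K ∂μ =
      K * ∫ r in (0 : ℝ)..L, f r ^ 7 * h r ^ 8 := by
    rw [integral_mul_const, intervalIntegral.integral_of_le hf.pos.le, hμ,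
      integral_Ioc_eq_integral_Ioo, mul_comm]
  -- constants
  have hB : J1 = (1 / (((7 : ℕ) : ℝ) + 2)) * ∫ x in (0 : ℝ)..(π / 2), Real.sin x ^ 7 :=
    Pool.Agent.H206R2.Rot.TE.B_eq 7
  have hid := Pool.Agent.H206R2.Rot2.TI.beta_id 6 7
  rw [← hB, ← hK] at hid
  have hS : SC (6 + 1) (7 + 1) = 16 / 6435 := by
    have s1 := Pool.Agent.H206R2.Rot2.TI.SC_one 8
    have s3 := Pool.Agent.H206R2.Rot2.TI.SC_left 1 8
    have s5 := Pool.Agent.H206R2.Rot2.TI.SC_left 3 8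
    have s7 := Pool.Agent.H206R2.Rot2.TI.SC_left 5 8
    norm_num at s1 s3 s5 s7 ⊢
    rw [s1] at s3
    have t3 : SC 3 8 = 2 / 99 := by linarith
    rw [t3] at s5
    have t5 : SC 5 8 = 8 / 1287 := by linarith
    rw [t5] at s7
    linarith
  rw [hS] at hid
  have hf16 : ((6 + 7 + 3).factorial : ℝ) = 20922789888000 := by
    norm_num [Nat.factorial]
  have hf6 : ((6 : ℕ).factorial : ℝ) = 720 := by norm_num [Nat.factorial]
  have hf7 : ((7 : ℕ).factorial : ℝ) = 5040 := by norm_num [Nat.factorial]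
  rw [hf16, hf6, hf7] at hid
  have hKv : K = π / 28672 := by
    linarith
  rw [h4] at h3
  have hpi := Real.pi_pos
  have hKpos : 0 < K := by
    rw [hKv]
    positivity
  rw [hKv] at h3
  have h8 : π * (R ^ 16) < π * (2640 * ∫ r in (0 : ℝ)..L, f r ^ 7 * h r ^ 8) := by
    linarith
  exact lt_of_mul_lt_mul_left h8 hpi.le

end H804OP.Vol
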