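import Pool.Graph.R_seed8.H738R3.CP.Main
import Pool.Agent.H804.OP.Em
import Pool.Agent.H804.OP.Vol

/-!
# Short periodic geodesics for `Spin(9)`-invariant metrics on the Cayley plane
-/

open Real Set MeasureTheory Filter Topology
open scoped ContDiff
open Pool.Agent.H206R2.Rot2 (Veff well actW)
open H738CP

namespace H804OP.Main

theorem short_geodesicOP {A : Fin 9 → E16 →L[ℝ] E16} (hA : IsClifford A) {L : ℝ} {f h : ℝ → ℝ}
    (hf : IsProfileCP L f h) :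
    ∃ (γ : ℝ → ℝ × E16 × (Fin 9 → ℝ)) (T : ℝ), 0 < T ∧
      IsGeodesicOP A L f h 1 γ ∧ (∀ t, γ (t + T) = γ t) ∧
      T ^ 16 ≤ 2640 * π ^ 16 * ∫ r in (0 : ℝ)..L, f r ^ 7 * h r ^ 8 := by
  obtain ⟨e, he, he1⟩ := Sl.exists_e hA
  have hfc : Continuous f := hf.smooth_f.continuous
  have hhc : Continuous h := hf.smooth_h.continuous
  have hLpos := hf.pos
  have hpi := Real.pi_pos
  set V : ℝ := ∫ r in (0 : ℝ)..L, f r ^ 7 * h r ^ 8 with hVdef
  have hV : 0 < V := by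
    refine intervalIntegral.intervalIntegral_pos_of_pos_on
      (((hfc.pow _).mul (hhc.pow _)).intervalIntegrable _ _) (fun x hx => ?_) hLpos
    exact mul_pos (pow_pos (hf.f_pos x hx.1 hx.2) _) (pow_pos (hf.h_pos x hx.1 hx.2.le) _)
  obtain ⟨R, hR, hRn⟩ : ∃ R : ℝ, 0 < R ∧ R ^ 16 = 2640 * V := by
    refine ⟨(2640 * V) ^ (((16 : ℕ) : ℝ)⁻¹), Real.rpow_pos_of_pos (by positivity) _, ?_⟩
    rw [Real.rpow_inv_natCast_pow (by positivity) (by norm_num)]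
  suffices hmain : ∃ (γ : ℝ → ℝ × E16 × (Fin 9 → ℝ)) (T : ℝ),
      0 < T ∧ IsGeodesicOP A L f h 1 γ ∧ (∀ t, γ (t + T) = γ t) ∧ T ≤ π * R by
    obtain ⟨γ, T, hT, hγ, hper, hle⟩ := hmain
    refine ⟨γ, T, hT, hγ, hper, ?_⟩
    have h1 : T ^ 16 ≤ (π * R) ^ 16 := pow_le_pow_left₀ hT.le hle _
    calc T ^ 16 ≤ (π * R) ^ 16 := h1
      _ = π ^ 16 * R ^ 16 := mul_pow _ _ _
      _ = 2640 * π ^ 16 * V := by rw [hRn]; ring
  by_contra hcon
  have hno : ∀ (γ : ℝ → Submodule ℂ (ℂ × EuclideanSpace ℂ (Fin 2))) (T : ℝ), 0 < T →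
      IsGeodesicCP L f h 1 γ → (∀ t, γ (t + T) = γ t) → π * R < T := by
    intro γ T hT hγ hper
    by_contra hle
    obtain ⟨γ', hγ', hper'⟩ := Em.embedOP hA he he1 hf hγ
    exact hcon ⟨γ', T, hT, hγ', hper' T hper, not_lt.1 hle⟩
  obtain ⟨hAc, hbig⟩ := H738CP.Main.action_bound hf le_rfl hR hno
  have h1 := Vol.volume_boundOP hf hR hAc hbig
  rw [← hVdef, hRn] at h1
  exact lt_irrefl _ h1

end H804OP.Main
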