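import Pool.Graph.R_seed8.H738R3.CP.Main
import Pool.Graph.R_seed8.H738R3.CP.FL
import Pool.Graph.R_seed8.H738R3.CP.FP

/-!
# Equality in the volume bounds: all moments
-/

open Real Set MeasureTheory
open scoped ContDiff Pointwise
open Pool.Agent.H206R2.Rot2 (Veff)
open Pool.Agent.H206R2.Rot2.TI (gg gg_measurable gg_nonneg gg_bound gg_integrable gg_integral gg_zero SC)
open H738CP
open H738CP.VB (Reg_measurable Reg_subset Reg_subset_Ioc)

namespace H804OP.Rig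

/-- the constant of the integral over the quadrant -/
noncomputable def Kc (a b : ℕ) : ℝ := (∫ x in (0 : ℝ)..1, √(1 - x ^ 2) * x ^ b) * SC a (b + 3)

/-- the moments of a profile -/
noncomputable def Vm (L : ℝ) (f h : ℝ → ℝ) (a b : ℕ) : ℝ :=
  ∫ r in (0 : ℝ)..L, f r ^ (a + 1) * h r ^ (b + 1)

/-- the action of the Fubini-Study metric -/
noncomputable def Gam (R : ℝ) (c : ℝ × ℝ) : ℝ := π * (R - c.1 - √(c.1 ^ 2 + c.2 ^ 2))

/-- the moments of the action of the Fubini-Study metric -/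
noncomputable def Lam (R : ℝ) (a b : ℕ) : ℝ := ∫ c in Reg R, Gam R c * (c.1 ^ a * c.2 ^ b)

lemma Kc_nonneg (a b : ℕ) : 0 ≤ Kc a b := by
  unfold Kc SC
  apply mul_nonneg
  · apply intervalIntegral.integral_nonneg zero_le_one
    intro x hx
    exact mul_nonneg (Real.sqrt_nonneg _) (pow_nonneg hx.1 _)
  · apply intervalIntegral.integral_nonneg (by positivity)
    intro x hx
    exact mul_nonneg (pow_nonneg (Real.sin_nonneg_of_mem_Icc ⟨hx.1, by linarith [hx.2, Real.pi_pos]⟩) _)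
      (pow_nonneg (Real.cos_nonneg_of_mem_Icc ⟨by linarith [hx.1, Real.pi_pos], hx.2⟩) _)

lemma Kc_pos (a b : ℕ) : 0 < Kc a b := by
  refine lt_of_le_of_ne (Kc_nonneg a b) (fun h0 => ?_)
  have hB : ∫ x in (0 : ℝ)..1, √(1 - x ^ 2) * x ^ b =
    (1 / ((b : ℝ) + 2)) * ∫ x in (0 : ℝ)..(π / 2), Real.sin x ^ b := Pool.Agent.H206R2.Rot.TE.B_eq b
  have hid := Pool.Agent.H206R2.Rot2.TI.beta_id a b
  rw [← hB] at hid
  unfold Kc at h0
  rw [← h0] at hid
  have h1 : 0 < π * (a.factorial : ℝ) * b.factorial / ((a + b + 3).factorial : ℝ) := by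
    have := Real.pi_pos
    positivity
  linarith

lemma Reg_mono {R M : ℝ} (h : R ≤ M) : Reg R ⊆ Ioc (0 : ℝ) M ×ˢ Ioc (0 : ℝ) M :=
  (Reg_subset_Ioc R).trans (prod_mono (Ioc_subset_Ioc_right h) (Ioc_subset_Ioc_right h))

lemma box {L M : ℝ} {f h : ℝ → ℝ} (hfc : Continuous f) (hhc : Continuous h) (hL : 0 ≤ L)
    (hM : ∀ r ∈ Ioo 0 L, 0 < f r ∧ f r ≤ M ∧ 0 < h r ∧ h r ≤ M) (i j : ℕ) :
    IntegrableOn (fun c : ℝ × ℝ => (∫ r in Ioo 0 L, √(1 - Veff f h c.1 c.2 r)) *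
      (c.1 ^ i * c.2 ^ j)) (Ioc (0 : ℝ) M ×ˢ Ioc (0 : ℝ) M) ∧
    ∫ c in Ioc (0 : ℝ) M ×ˢ Ioc (0 : ℝ) M, (∫ r in Ioo 0 L, √(1 - Veff f h c.1 c.2 r)) *
      (c.1 ^ i * c.2 ^ j) = Kc i j * Vm L f h i j := by
  have hfm : Measurable f := hfc.measurable
  have hhm : Measurable h := hhc.measurable
  set B : Set (ℝ × ℝ) := Ioc (0 : ℝ) M ×ˢ Ioc (0 : ℝ) M with hB
  have hBm : MeasurableSet B := measurableSet_Ioc.prod measurableSet_Ioc
  set μ : Measure ℝ := volume.restrict (Ioo 0 L) with hμ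
  set ν : Measure (ℝ × ℝ) := volume.restrict B with hν
  have hBfin : volume B ≠ ⊤ := by
    rw [hB, Measure.volume_eq_prod, Measure.prod_prod]
    simp [ENNReal.mul_eq_top]
  have : IsFiniteMeasure ν := ⟨by rw [hν, Measure.restrict_apply_univ]; exact lt_top_iff_ne_top.2 hBfin⟩
  have : IsFiniteMeasure μ := ⟨by rw [hμ, Measure.restrict_apply_univ]; simp⟩
  have hmeas : Measurable (fun p : ℝ × (ℝ × ℝ) => gg (f p.1) (h p.1) i j p.2) := by
    unfold gg
    fun_prop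
  have hint : Integrable (fun p : ℝ × (ℝ × ℝ) => gg (f p.1) (h p.1) i j p.2) (μ.prod ν) := by
    have hb : ∀ᵐ p ∂(μ.prod ν), ‖gg (f p.1) (h p.1) i j p.2‖ ≤ M ^ i * M ^ j := by
      have e : μ.prod ν = (volume.prod volume).restrict (Ioo 0 L ×ˢ B) := by
        rw [hμ, hν, Measure.prod_restrict]
      rw [e]
      filter_upwards [ae_restrict_mem (measurableSet_Ioo.prod hBm)] with p hp
      exact gg_bound i j hp.2.1.1 hp.2.2.1 hp.2.1.2 hp.2.2.2
    exact Integrable.of_bound hmeas.aestronglyMeasurable _ hb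
  have hswap := integral_integral_swap (f := fun r c => gg (f r) (h r) i j c) (μ := μ) (ν := ν) hint
  have hact : (fun c : ℝ × ℝ => (∫ r, √(1 - Veff f h c.1 c.2 r) ∂μ) * (c.1 ^ i * c.2 ^ j)) =
      fun c => ∫ r, gg (f r) (h r) i j c ∂μ := by
    funext c
    rw [← integral_mul_const]
    rfl
  rw [hact]
  refine ⟨hint.integral_prod_right, ?_⟩
  rw [← hswap]
  have e1 : ∫ r, ∫ c, gg (f r) (h r) i j c ∂ν ∂μ =
      ∫ r in Ioo 0 L, f r ^ (i + 1) * h r ^ (j + 1) * Kc i j := by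
    rw [hμ]
    apply setIntegral_congr_fun measurableSet_Ioo
    intro r hr
    obtain ⟨h1, h2, h3, h4⟩ := hM r hr
    simp only
    rw [Kc, ← gg_integral h1 h3 i j]
    symm
    apply setIntegral_eq_of_subset_of_forall_sdiff_eq_zero
      (measurableSet_Ioi.prod measurableSet_Ioi)
      (prod_mono Ioc_subset_Ioi_self Ioc_subset_Ioi_self)
    intro c hc
    apply gg_zero h1 h3 i j
    intro h5
    exact hc.2 ⟨⟨hc.1.1, h5.1.trans h2⟩, ⟨hc.1.2, h5.2.trans h4⟩⟩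
  rw [e1, integral_mul_const, Vm, intervalIntegral.integral_of_le hL,
    integral_Ioc_eq_integral_Ioo, mul_comm]

theorem moments_of_le {L : ℝ} {f h : ℝ → ℝ} (hf : IsProfileCP L f h) {R : ℝ}
    (hA : ∀ c ∈ Reg R, Gam R c ≤ 2 * ∫ r in Ioo 0 L, √(1 - Veff f h c.1 c.2 r))
    {a b : ℕ} (hV : 2 * (Kc a b * Vm L f h a b) ≤ Lam R a b) (i j : ℕ) :
    Lam R i j = 2 * (Kc i j * Vm L f h i j) := by
  have hfc : Continuous f := hf.smooth_f.continuous
  have hhc : Continuous h := hf.smooth_h.continuous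
  obtain ⟨M1, hM1⟩ := isCompact_Icc.exists_bound_of_continuousOn (s := Icc 0 L) hfc.continuousOn
  obtain ⟨M2, hM2⟩ := isCompact_Icc.exists_bound_of_continuousOn (s := Icc 0 L) hhc.continuousOn
  set M := max (max M1 M2) R with hMdef
  have hRM : R ≤ M := le_max_right _ _
  have hM : ∀ r ∈ Ioo 0 L, 0 < f r ∧ f r ≤ M ∧ 0 < h r ∧ h r ≤ M := by
    intro r hr
    refine ⟨hf.f_pos r hr.1 hr.2, ?_, hf.h_pos r hr.1 hr.2.le, ?_⟩
    · exact (le_abs_self _).trans ((hM1 r (Ioo_subset_Icc_self hr)).trans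
        ((le_max_left _ _).trans (le_max_left _ _)))
    · exact (le_abs_self _).trans ((hM2 r (Ioo_subset_Icc_self hr)).trans
        ((le_max_right _ _).trans (le_max_left _ _)))
  set B : Set (ℝ × ℝ) := Ioc (0 : ℝ) M ×ˢ Ioc (0 : ℝ) M with hB
  have hBm : MeasurableSet B := measurableSet_Ioc.prod measurableSet_Ioc
  have hbox := box hfc hhc hf.pos.le hM
  have hGi : ∀ i j : ℕ, IntegrableOn (fun c : ℝ × ℝ =>
      indicator (Reg R) (fun c => Gam R c * (c.1 ^ i * c.2 ^ j)) c) B := by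
    intro i j
    apply Integrable.integrableOn
    rw [integrable_indicator_iff (Reg_measurable R)]
    have h2 : IntegrableOn (fun c : ℝ × ℝ => Gam R c * (c.1 ^ i * c.2 ^ j))
        (Icc (0 : ℝ) R ×ˢ Icc (0 : ℝ) R) := by
      unfold Gam
      exact (Continuous.continuousOn (by fun_prop)).integrableOn_compact
        (isCompact_Icc.prod isCompact_Icc)
    exact h2.mono_set ((Reg_subset_Ioc R).trans
      (prod_mono Ioc_subset_Icc_self Ioc_subset_Icc_self))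
  have hGe : ∀ i j : ℕ, ∫ c in B, indicator (Reg R) (fun c => Gam R c * (c.1 ^ i * c.2 ^ j)) c =
      Lam R i j := by
    intro i j
    rw [setIntegral_indicator (Reg_measurable R), inter_eq_self_of_subset_right (Reg_mono hRM)]
    rfl
  set G : ℝ × ℝ → ℝ := fun c => 2 * (∫ r in Ioo 0 L, √(1 - Veff f h c.1 c.2 r)) -
    indicator (Reg R) (Gam R) c with hG
  have hGw : ∀ i j : ℕ, ∀ c : ℝ × ℝ, G c * (c.1 ^ i * c.2 ^ j) =
      2 * ((∫ r in Ioo 0 L, √(1 - Veff f h c.1 c.2 r)) * (c.1 ^ i * c.2 ^ j)) -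
      indicator (Reg R) (fun c => Gam R c * (c.1 ^ i * c.2 ^ j)) c := by
    intro i j c
    rw [hG]
    simp only
    by_cases hc : c ∈ Reg R
    · rw [indicator_of_mem hc, indicator_of_mem hc]
      ring
    · rw [indicator_of_notMem hc, indicator_of_notMem hc]
      ring
  have hint : ∀ i j : ℕ, IntegrableOn (fun c => G c * (c.1 ^ i * c.2 ^ j)) B := by
    intro i j
    simp_rw [hGw i j]
    exact ((hbox i j).1.const_mul 2).sub (hGi i j)
  have hval : ∀ i j : ℕ, ∫ c in B, G c * (c.1 ^ i * c.2 ^ j) =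
      2 * (Kc i j * Vm L f h i j) - Lam R i j := by
    intro i j
    simp_rw [hGw i j]
    rw [integral_sub ((hbox i j).1.const_mul 2) (hGi i j), integral_const_mul, (hbox i j).2, hGe]
  have hGnn : ∀ c ∈ B, 0 ≤ G c := by
    intro c hc
    rw [hG]
    simp only
    by_cases hcR : c ∈ Reg R
    · rw [indicator_of_mem hcR]
      linarith [hA c hcR]
    · rw [indicator_of_notMem hcR, sub_zero]
      have : 0 ≤ ∫ r in Ioo 0 L, √(1 - Veff f h c.1 c.2 r) :=
        setIntegral_nonneg measurableSet_Ioo (fun _ _ => Real.sqrt_nonneg _)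
      linarith
  have hpos : ∀ᵐ c ∂(volume.restrict B), 0 ≤ G c * (c.1 ^ a * c.2 ^ b) := by
    filter_upwards [ae_restrict_mem hBm] with c hc
    have h1 := hc.1.1
    have h2 := hc.2.1
    exact mul_nonneg (hGnn c hc) (by positivity)
  have hzero : ∫ c in B, G c * (c.1 ^ a * c.2 ^ b) = 0 := by
    apply le_antisymm
    · rw [hval a b]
      linarith
    · exact integral_nonneg_of_ae hpos
  have hae : (fun c => G c * (c.1 ^ a * c.2 ^ b)) =ᵐ[volume.restrict B] 0 :=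
    (integral_eq_zero_iff_of_nonneg_ae hpos (hint a b)).1 hzero
  have hij : ∫ c in B, G c * (c.1 ^ i * c.2 ^ j) = 0 := by
    rw [← integral_zero (ℝ × ℝ) ℝ (μ := volume.restrict B)]
    apply integral_congr_ae
    filter_upwards [hae, ae_restrict_mem hBm] with c hc hcB
    have h1 := hcB.1.1
    have h2 := hcB.2.1
    have h3 : 0 < c.1 ^ a * c.2 ^ b := by positivity
    have h4 : G c = 0 := by
      simp only [Pi.zero_apply] at hc
      exact (mul_eq_zero.1 hc).resolve_right h3.ne'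
    rw [h4, zero_mul]
  rw [hval i j] at hij
  linarith

/-! ### Scaling -/

lemma Lam_scale {R : ℝ} (hR : 0 < R) (i j : ℕ) : Lam R i j = R ^ (i + j + 3) * Lam 1 i j := by
  have h1 := Measure.setIntegral_comp_smul_of_pos (volume : Measure (ℝ × ℝ))
    (fun c : ℝ × ℝ => Gam R c * (c.1 ^ i * c.2 ^ j)) (Reg 1) hR
  have hset : R • Reg 1 = Reg R := by
    ext c
    rw [mem_smul_set_iff_inv_smul_mem₀ hR.ne']
    simp only [Reg, mem_ofPred_eq, Prod.smul_fst, Prod.smul_snd, smul_eq_mul]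
    have e1 : (R⁻¹ * c.1) ^ 2 + (R⁻¹ * c.2) ^ 2 = R⁻¹ ^ 2 * (c.1 ^ 2 + c.2 ^ 2) := by ring
    rw [e1, Real.sqrt_mul (by positivity), Real.sqrt_sq (by positivity)]
    have hRi : 0 < R⁻¹ := by positivity
    rw [mul_pos_iff_of_pos_left hRi, mul_pos_iff_of_pos_left hRi]
    have e2 : R⁻¹ * c.1 + R⁻¹ * √(c.1 ^ 2 + c.2 ^ 2) < 1 ↔ c.1 + √(c.1 ^ 2 + c.2 ^ 2) < R := by
      rw [← mul_add, inv_mul_lt_iff₀ hR, mul_one]
    rw [e2]
  rw [hset] at h1
  have hfr : Module.finrank ℝ (ℝ × ℝ) = 2 := by simp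
  rw [hfr] at h1
  have e : ∀ c : ℝ × ℝ, Gam R (R • c) * ((R • c).1 ^ i * (R • c).2 ^ j) =
      R ^ (i + j + 1) * (Gam 1 c * (c.1 ^ i * c.2 ^ j)) := by
    intro c
    simp only [Gam, Prod.smul_fst, Prod.smul_snd, smul_eq_mul]
    have e1 : (R * c.1) ^ 2 + (R * c.2) ^ 2 = R ^ 2 * (c.1 ^ 2 + c.2 ^ 2) := by ring
    rw [e1, Real.sqrt_mul (by positivity), Real.sqrt_sq hR.le]
    ring
  simp only [e] at h1
  rw [integral_const_mul] at h1
  unfold Lam
  rw [smul_eq_mul] at h1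
  have hR2 : (R ^ 2) ≠ 0 := by positivity
  have h2 : ∫ c in Reg R, Gam R c * (c.1 ^ i * c.2 ^ j) =
      R ^ 2 * (R ^ (i + j + 1) * ∫ c in Reg 1, Gam 1 c * (c.1 ^ i * c.2 ^ j)) := by
    rw [h1]
    field_simp
  rw [h2]
  ring

end H804OP.Rig
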