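import Pool.Agent.H804.OP.Rig1

/-!
# The moments in the case of equality are those of the Fubini-Study metric
-/

open Real Set MeasureTheory
open scoped ContDiff
open Pool.Agent.H206R2.Rot2 (Veff)
open H738CP

namespace H804OP.Rig

/-- the moments of the Fubini-Study metric -/
noncomputable def V0 (i j : ℕ) : ℝ := Vm (π / 2) (fun r => Real.sin r * Real.cos r) Real.sin i j

lemma action_limit {L : ℝ} {f h : ℝ → ℝ} (hf : IsProfileCP L f h) {n : ℕ} (hn : 2 ≤ n) {R : ℝ}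
    (hno : ∀ (γ : ℝ → Submodule ℂ (ℂ × EuclideanSpace ℂ (Fin n))) (T : ℝ), 0 < T →
      IsGeodesicCP L f h 1 γ → (∀ t, γ (t + T) = γ t) → π * R ≤ T) :
    ∀ c ∈ Reg R, Gam R c ≤ 2 * ∫ r in Ioo 0 L, √(1 - Veff f h c.1 c.2 r) := by
  intro c hc
  by_contra hlt
  rw [not_le] at hlt
  set A := 2 * ∫ r in Ioo 0 L, √(1 - Veff f h c.1 c.2 r) with hAdef
  have hA0 : 0 ≤ A := by
    have : 0 ≤ ∫ r in Ioo 0 L, √(1 - Veff f h c.1 c.2 r) :=
      setIntegral_nonneg measurableSet_Ioo (fun _ _ => Real.sqrt_nonneg _)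
    rw [hAdef]
    linarith
  have hpi := Real.pi_pos
  set s := c.1 + √(c.1 ^ 2 + c.2 ^ 2) with hs
  have hs0 : 0 < s := by
    have := Real.sqrt_nonneg (c.1 ^ 2 + c.2 ^ 2)
    have := hc.1
    linarith
  have h1 : A < π * (R - s) := by
    have : Gam R c = π * (R - s) := by
      rw [Gam, hs]
      ring
    rw [← this]
    exact hlt
  have h2 : A / π < R - s := by
    rw [div_lt_iff₀ hpi]
    linarith
  have h3 : 0 ≤ A / π := by positivity
  set R' := (s + A / π + R) / 2 with hR'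
  have h4 : R' < R := by rw [hR']; linarith
  have h5 : s + A / π < R' := by rw [hR']; linarith
  have h6 : 0 < R' := by linarith
  have hcR : c ∈ Reg R' := ⟨hc.1, hc.2.1, by
    have : s < R' := by linarith
    exact this⟩
  have h7 := (H738CP.Main.action_bound hf hn h6 (fun γ T hT hγ hper =>
    lt_of_lt_of_le (mul_lt_mul_of_pos_left h4 hpi) (hno γ T hT hγ hper))).1 c hcR
  have h8 : π * (R' - s) ≤ A := by
    have : π * (R' - c.1 - √(c.1 ^ 2 + c.2 ^ 2)) = π * (R' - s) := by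
      rw [hs]
      ring
    rw [← this]
    exact h7
  have h9 : R' - s ≤ A / π := by
    rw [le_div_iff₀ hpi]
    linarith
  linarith

lemma V0_one : V0 0 1 = 1 / 4 := by
  unfold V0 Vm
  have e : ∀ r : ℝ, (Real.sin r * Real.cos r) ^ (0 + 1) * Real.sin r ^ (1 + 1) =
      Real.sin r ^ 3 * Real.cos r := by
    intro r
    ring
  simp only [e]
  have hd : ∀ x ∈ uIcc (0 : ℝ) (π / 2), HasDerivAt (fun x => Real.sin x ^ 4 / 4)
      (Real.sin x ^ 3 * Real.cos x) x := by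
    intro x _
    refine (((Real.hasDerivAt_sin x).fun_pow 4).div_const 4).congr_deriv ?_
    push_cast
    ring
  rw [intervalIntegral.integral_eq_sub_of_hasDerivAt hd
    (Continuous.intervalIntegrable (by fun_prop) _ _)]
  rw [Real.sin_pi_div_two, Real.sin_zero]
  norm_num

lemma FS_Lam (i j : ℕ) : Lam 1 i j = 2 * (Kc i j * V0 i j) := by
  refine moments_of_le (a := 0) (b := 1) FP.profile_FS
    (action_limit FP.profile_FS (n := 2) le_rfl (fun γ T hT hγ hper => ?_)) ?_ i j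
  · have := FL.length_FS one_pos hT hγ hper
    linarith
  · have hL : Lam 1 0 1 = π * (1 ^ (1 + 3) / ((((1 : ℕ) : ℝ) + 1) * (((1 : ℕ) : ℝ) + 3) ^ 2)) :=
      VB.lower_int one_pos 1
    have hB : ∫ x in (0 : ℝ)..1, √(1 - x ^ 2) * x ^ 1 =
      (1 / (((1 : ℕ) : ℝ) + 2)) * ∫ x in (0 : ℝ)..(π / 2), Real.sin x ^ 1 :=
        Pool.Agent.H206R2.Rot.TE.B_eq 1
    have hid := Pool.Agent.H206R2.Rot2.TI.beta_id 0 1
    rw [← hB] at hid
    have hK : (∫ x in (0 : ℝ)..1, √(1 - x ^ 2) * x ^ 1) *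
      Pool.Agent.H206R2.Rot2.TI.SC 0 (1 + 3) = Kc 0 1 := rfl
    rw [hK, Pool.Agent.H206R2.Rot2.TI.SC_one] at hid
    have hV : Vm (π / 2) (fun r => Real.sin r * Real.cos r) Real.sin 0 1 = 1 / 4 := V0_one
    rw [hL, hV]
    norm_num [Nat.factorial] at hid ⊢
    linarith

theorem moments {L : ℝ} {f h : ℝ → ℝ} (hf : IsProfileCP L f h) {n : ℕ} (hn : 2 ≤ n) {R : ℝ}
    (hR : 0 < R)
    (hno : ∀ (γ : ℝ → Submodule ℂ (ℂ × EuclideanSpace ℂ (Fin n))) (T : ℝ), 0 < T →
      IsGeodesicCP L f h 1 γ → (∀ t, γ (t + T) = γ t) → π * R ≤ T)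
    {a b : ℕ} (hV : Vm L f h a b ≤ R ^ (a + b + 3) * V0 a b) (i j : ℕ) :
    Vm L f h i j = R ^ (i + j + 3) * V0 i j := by
  have h1 := moments_of_le (a := a) (b := b) hf (action_limit hf hn hno) (by
    rw [Lam_scale hR, FS_Lam]
    have h2 := mul_le_mul_of_nonneg_left hV (Kc_nonneg a b)
    calc 2 * (Kc a b * Vm L f h a b) ≤ 2 * (Kc a b * (R ^ (a + b + 3) * V0 a b)) := by linarith
      _ = _ := by ring) i j
  rw [Lam_scale hR, FS_Lam] at h1
  have h2 := Kc_pos i j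
  have h3 : Kc i j * Vm L f h i j = Kc i j * (R ^ (i + j + 3) * V0 i j) := by linarith
  exact mul_left_cancel₀ h2.ne' h3

end H804OP.Rig
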