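import Pool.Agent.H804.OP.Rig2

/-!
# The moments determine the profile
-/

open Real Set MeasureTheory Filter Topology
open scoped ContDiff
open H738CP

namespace H804OP.Rig

lemma zero_of_integral {L : ℝ} (hL : 0 < L) {F : ℝ → ℝ} (hF : Continuous F)
    (hnn : ∀ x ∈ Icc 0 L, 0 ≤ F x) (h0 : ∫ x in (0 : ℝ)..L, F x = 0) :
    ∀ x ∈ Icc 0 L, F x = 0 := by
  intro x hx
  by_contra hne
  have h1 : 0 < F x := lt_of_le_of_ne (hnn x hx) (Ne.symm hne)
  have h2 := intervalIntegral.integral_pos hL hF.continuousOn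
    (fun y hy => hnn y (Ioc_subset_Icc_self hy)) ⟨x, hx, h1⟩
  linarith

lemma V0_even (k j : ℕ) :
    V0 (2 * k) j = ∫ x in (0 : ℝ)..1, x ^ (2 * k + j + 2) * (1 - x ^ 2) ^ k := by
  have h2 := intervalIntegral.integral_comp_mul_deriv (a := 0) (b := π / 2)
    (f := Real.sin) (f' := Real.cos) (g := fun x => x ^ (2 * k + j + 2) * (1 - x ^ 2) ^ k)
    (fun x _ => Real.hasDerivAt_sin x) Real.continuous_cos.continuousOn (by fun_prop)
  rw [Real.sin_zero, Real.sin_pi_div_two] at h2
  rw [← h2]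
  unfold V0 Vm
  apply intervalIntegral.integral_congr
  intro x _
  simp only [Function.comp]
  have h3 : 1 - Real.sin x ^ 2 = Real.cos x ^ 2 := by rw [Real.cos_sq']
  rw [h3, mul_pow, ← pow_mul]
  ring

lemma V0_zero (j : ℕ) : V0 0 j = 1 / ((j : ℝ) + 3) := by
  have h := V0_even 0 j
  rw [mul_zero] at h
  rw [h]
  have e : ∀ x : ℝ, x ^ (0 + j + 2) * (1 - x ^ 2) ^ 0 = x ^ (j + 2) := by
    intro x
    ring
  simp only [e, integral_pow]
  have e1 : (((j + 2 : ℕ) : ℝ) + 1) = (j : ℝ) + 3 := by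
    push_cast
    ring
  rw [e1]
  simp

lemma V0_two (j : ℕ) : V0 2 j = 1 / ((j : ℝ) + 5) - 1 / ((j : ℝ) + 7) := by
  have h := V0_even 1 j
  rw [mul_one] at h
  rw [h]
  have e : ∀ x : ℝ, x ^ (2 + j + 2) * (1 - x ^ 2) ^ 1 = x ^ (j + 4) - x ^ (j + 6) := by
    intro x
    ring
  simp only [e]
  rw [intervalIntegral.integral_sub (Continuous.intervalIntegrable (by fun_prop) _ _)
    (Continuous.intervalIntegrable (by fun_prop) _ _), integral_pow, integral_pow]
  push_cast
  norm_num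
  congr 2 <;> ring

lemma V0_four (j : ℕ) : V0 4 j = 1 / ((j : ℝ) + 7) - 2 * (1 / ((j : ℝ) + 9)) + 1 / ((j : ℝ) + 11) := by
  have h := V0_even 2 j
  rw [show 2 * 2 = 4 by norm_num] at h
  rw [h]
  have e : ∀ x : ℝ, x ^ (4 + j + 2) * (1 - x ^ 2) ^ 2 =
      x ^ (j + 6) - 2 * x ^ (j + 8) + x ^ (j + 10) := by
    intro x
    ring
  simp only [e]
  rw [intervalIntegral.integral_add (Continuous.intervalIntegrable (by fun_prop) _ _)
    (Continuous.intervalIntegrable (by fun_prop) _ _),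
    intervalIntegral.integral_sub (Continuous.intervalIntegrable (by fun_prop) _ _)
    (Continuous.intervalIntegrable (by fun_prop) _ _), intervalIntegral.integral_const_mul,
    integral_pow, integral_pow, integral_pow]
  push_cast
  norm_num
  have e1 : (j : ℝ) + 6 + 1 = j + 7 := by ring
  have e2 : (j : ℝ) + 8 + 1 = j + 9 := by ring
  have e3 : (j : ℝ) + 10 + 1 = j + 11 := by ring
  rw [e1, e2, e3]

/-! ### The relation between `f` and `h` -/

theorem relation {L : ℝ} {f h : ℝ → ℝ} (hf : IsProfileCP L f h) {R : ℝ}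
    (hm : ∀ i j, Vm L f h i j = R ^ (i + j + 3) * V0 i j) :
    ∀ r ∈ Icc 0 L, R ^ 2 * f r ^ 2 - R ^ 2 * h r ^ 2 + h r ^ 4 = 0 := by
  have hfc : Continuous f := hf.smooth_f.continuous
  have hhc : Continuous h := hf.smooth_h.continuous
  have hI : ∫ r in (0 : ℝ)..L, f r * h r * (R ^ 2 * f r ^ 2 - R ^ 2 * h r ^ 2 + h r ^ 4) ^ 2 = 0 := by
    have e : ∀ r, f r * h r * (R ^ 2 * f r ^ 2 - R ^ 2 * h r ^ 2 + h r ^ 4) ^ 2 =
        R ^ 4 * (f r ^ (4 + 1) * h r ^ (0 + 1)) + f r ^ (0 + 1) * h r ^ (8 + 1)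
        - 2 * R ^ 2 * (f r ^ (0 + 1) * h r ^ (6 + 1)) + R ^ 4 * (f r ^ (0 + 1) * h r ^ (4 + 1))
        + 2 * R ^ 2 * (f r ^ (2 + 1) * h r ^ (4 + 1)) - 2 * R ^ 4 * (f r ^ (2 + 1) * h r ^ (2 + 1)) := by
      intro r
      ring
    simp only [e]
    rw [intervalIntegral.integral_sub (Continuous.intervalIntegrable (by fun_prop) _ _)
      (Continuous.intervalIntegrable (by fun_prop) _ _),
      intervalIntegral.integral_add (Continuous.intervalIntegrable (by fun_prop) _ _)
      (Continuous.intervalIntegrable (by fun_prop) _ _),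
      intervalIntegral.integral_add (Continuous.intervalIntegrable (by fun_prop) _ _)
      (Continuous.intervalIntegrable (by fun_prop) _ _),
      intervalIntegral.integral_sub (Continuous.intervalIntegrable (by fun_prop) _ _)
      (Continuous.intervalIntegrable (by fun_prop) _ _),
      intervalIntegral.integral_add (Continuous.intervalIntegrable (by fun_prop) _ _)
      (Continuous.intervalIntegrable (by fun_prop) _ _)]
    simp only [intervalIntegral.integral_const_mul]
    have m1 : ∫ r in (0 : ℝ)..L, f r ^ (4 + 1) * h r ^ (0 + 1) = R ^ (4 + 0 + 3) * V0 4 0 := hm 4 0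
    have m2 : ∫ r in (0 : ℝ)..L, f r ^ (0 + 1) * h r ^ (8 + 1) = R ^ (0 + 8 + 3) * V0 0 8 := hm 0 8
    have m3 : ∫ r in (0 : ℝ)..L, f r ^ (0 + 1) * h r ^ (6 + 1) = R ^ (0 + 6 + 3) * V0 0 6 := hm 0 6
    have m4 : ∫ r in (0 : ℝ)..L, f r ^ (0 + 1) * h r ^ (4 + 1) = R ^ (0 + 4 + 3) * V0 0 4 := hm 0 4
    have m5 : ∫ r in (0 : ℝ)..L, f r ^ (2 + 1) * h r ^ (4 + 1) = R ^ (2 + 4 + 3) * V0 2 4 := hm 2 4
    have m6 : ∫ r in (0 : ℝ)..L, f r ^ (2 + 1) * h r ^ (2 + 1) = R ^ (2 + 2 + 3) * V0 2 2 := hm 2 2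
    rw [m1, m2, m3, m4, m5, m6, V0_four, V0_zero, V0_zero, V0_zero, V0_two, V0_two]
    push_cast
    ring
  have h0 := zero_of_integral hf.pos (by fun_prop) (fun x hx => by
    rcases eq_or_lt_of_le hx.1 with h1 | h1
    · rw [← h1]
      have : f 0 = 0 := by
        have := hf.f_odd 0
        rw [neg_zero] at this
        linarith
      rw [this]
      simp
    · have h2 : 0 ≤ f x := by
        rcases eq_or_lt_of_le hx.2 with h3 | h3
        · have := hf.f_odd_L 0
          rw [add_zero, sub_zero] at this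
          rw [h3]
          linarith
        · exact (hf.f_pos x h1 h3).le
      have h3 := hf.h_pos x h1 hx.2
      positivity) hI
  have h1 : EqOn (fun r => R ^ 2 * f r ^ 2 - R ^ 2 * h r ^ 2 + h r ^ 4) 0 (Ioo 0 L) := by
    intro r hr
    have h2 := h0 r (Ioo_subset_Icc_self hr)
    have h3 := hf.f_pos r hr.1 hr.2
    have h4 := hf.h_pos r hr.1 hr.2.le
    rcases mul_eq_zero.1 h2 with h5 | h5
    · exact absurd h5 (mul_pos h3 h4).ne'
    · simpa using h5
  have h2 := h1.closure (by fun_prop) continuous_zero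
  rw [closure_Ioo hf.pos.ne] at h2
  exact fun r hr => h2 hr

/-! ### Continuous test functions -/

lemma poly_test {L : ℝ} {f h : ℝ → ℝ} (hf : IsProfileCP L f h) {R : ℝ}
    (hm : ∀ i j, Vm L f h i j = R ^ (i + j + 3) * V0 i j) (p : Polynomial ℝ) :
    ∫ r in (0 : ℝ)..L, p.eval (h r) * (f r * h r) = ∫ x in (0 : ℝ)..R, p.eval x * x ^ 2 := by
  have hfc : Continuous f := hf.smooth_f.continuous
  have hhc : Continuous h := hf.smooth_h.continuous
  have hpc : ∀ p : Polynomial ℝ, Continuous (fun x => p.eval x) := fun p => p.continuous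
  induction p using Polynomial.induction_on' with
  | add p q hp hq =>
    simp only [Polynomial.eval_add, add_mul]
    rw [intervalIntegral.integral_add, intervalIntegral.integral_add, hp, hq]
    · exact ((hpc p).mul (by fun_prop)).intervalIntegrable _ _
    · exact ((hpc q).mul (by fun_prop)).intervalIntegrable _ _
    · exact (((hpc p).comp hhc).mul (by fun_prop)).intervalIntegrable _ _
    · exact (((hpc q).comp hhc).mul (by fun_prop)).intervalIntegrable _ _
  | monomial n a =>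
    simp only [Polynomial.eval_monomial]
    have e1 : ∀ r, a * h r ^ n * (f r * h r) = a * (f r ^ (0 + 1) * h r ^ (n + 1)) := by
      intro r
      ring
    have e2 : ∀ x : ℝ, a * x ^ n * x ^ 2 = a * x ^ (n + 2) := by
      intro x
      ring
    simp only [e1, e2]
    rw [intervalIntegral.integral_const_mul, intervalIntegral.integral_const_mul, integral_pow]
    have m1 : ∫ r in (0 : ℝ)..L, f r ^ (0 + 1) * h r ^ (n + 1) = R ^ (0 + n + 3) * V0 0 n := hm 0 n
    rw [m1, V0_zero]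
    congr 1
    push_cast
    have : (n : ℝ) + 2 + 1 = n + 3 := by ring
    rw [this]
    simp
    ring

theorem cont_test {L : ℝ} {f h : ℝ → ℝ} (hf : IsProfileCP L f h) {R : ℝ} (hR : 0 < R)
    (hm : ∀ i j, Vm L f h i j = R ^ (i + j + 3) * V0 i j)
    (hh : ∀ r ∈ Icc 0 L, 0 ≤ h r ∧ h r ≤ R) (hfn : ∀ r ∈ Icc 0 L, 0 ≤ f r)
    {φ : ℝ → ℝ} (hφ : Continuous φ) :
    ∫ r in (0 : ℝ)..L, φ (h r) * (f r * h r) = ∫ x in (0 : ℝ)..R, φ x * x ^ 2 := by
  have hfc : Continuous f := hf.smooth_f.continuous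
  have hhc : Continuous h := hf.smooth_h.continuous
  set C : ℝ := (∫ r in (0 : ℝ)..L, f r * h r) + ∫ x in (0 : ℝ)..R, x ^ 2 with hC
  have hC0 : 0 ≤ C := by
    have h1 : 0 ≤ ∫ r in (0 : ℝ)..L, f r * h r :=
      intervalIntegral.integral_nonneg hf.pos.le (fun r hr => mul_nonneg (hfn r hr) (hh r hr).1)
    have h2 : 0 ≤ ∫ x in (0 : ℝ)..R, x ^ 2 :=
      intervalIntegral.integral_nonneg hR.le (fun r hr => sq_nonneg _)
    linarith
  have key : ∀ ε > 0, |(∫ r in (0 : ℝ)..L, φ (h r) * (f r * h r)) -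
      ∫ x in (0 : ℝ)..R, φ x * x ^ 2| ≤ ε * C := by
    intro ε hε
    obtain ⟨p, hp⟩ := exists_polynomial_near_of_continuousOn 0 R φ hφ.continuousOn ε hε
    have h1 := poly_test hf hm p
    have hpc : Continuous (fun x => p.eval x) := p.continuous
    have h2 : (∫ r in (0 : ℝ)..L, φ (h r) * (f r * h r)) - ∫ x in (0 : ℝ)..R, φ x * x ^ 2 =
        (∫ r in (0 : ℝ)..L, (φ (h r) - p.eval (h r)) * (f r * h r)) -
        ∫ x in (0 : ℝ)..R, (φ x - p.eval x) * x ^ 2 := by
      simp only [sub_mul]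
      rw [intervalIntegral.integral_sub, intervalIntegral.integral_sub, h1]
      · ring
      · exact (hφ.mul (by fun_prop)).intervalIntegrable _ _
      · exact (hpc.mul (by fun_prop)).intervalIntegrable _ _
      · exact ((hφ.comp hhc).mul (by fun_prop)).intervalIntegrable _ _
      · exact ((hpc.comp hhc).mul (by fun_prop)).intervalIntegrable _ _
    rw [h2]
    have h3 : |∫ r in (0 : ℝ)..L, (φ (h r) - p.eval (h r)) * (f r * h r)| ≤
        ∫ r in (0 : ℝ)..L, ε * (f r * h r) := by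
      rw [← Real.norm_eq_abs]
      apply intervalIntegral.norm_integral_le_of_norm_le hf.pos.le
      · refine Eventually.of_forall (fun r hr => ?_)
        have hr' := Ioc_subset_Icc_self hr
        have h4 := hp (h r) ⟨(hh r hr').1, (hh r hr').2⟩
        have h5 : 0 ≤ f r * h r := mul_nonneg (hfn r hr') (hh r hr').1
        rw [Real.norm_eq_abs, abs_mul, abs_of_nonneg h5, abs_sub_comm]
        exact mul_le_mul_of_nonneg_right h4.le h5
      · exact Continuous.intervalIntegrable (by fun_prop) _ _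
    have h4 : |∫ x in (0 : ℝ)..R, (φ x - p.eval x) * x ^ 2| ≤ ∫ x in (0 : ℝ)..R, ε * x ^ 2 := by
      rw [← Real.norm_eq_abs]
      apply intervalIntegral.norm_integral_le_of_norm_le hR.le
      · refine Eventually.of_forall (fun r hr => ?_)
        have h4 := hp r (Ioc_subset_Icc_self hr)
        rw [Real.norm_eq_abs, abs_mul, abs_of_nonneg (sq_nonneg r), abs_sub_comm]
        exact mul_le_mul_of_nonneg_right h4.le (sq_nonneg r)
      · exact Continuous.intervalIntegrable (by fun_prop) _ _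
    rw [intervalIntegral.integral_const_mul] at h3 h4
    calc _ ≤ |∫ r in (0 : ℝ)..L, (φ (h r) - p.eval (h r)) * (f r * h r)| +
        |∫ x in (0 : ℝ)..R, (φ x - p.eval x) * x ^ 2| := abs_sub _ _
      _ ≤ ε * C := by
        rw [hC]
        linarith
  have h5 : |(∫ r in (0 : ℝ)..L, φ (h r) * (f r * h r)) - ∫ x in (0 : ℝ)..R, φ x * x ^ 2| ≤ 0 := by
    apply le_of_forall_pos_le_add
    intro ε hε
    have h6 := key (ε / (C + 1)) (by positivity)
    have h7 : ε / (C + 1) * C ≤ ε := by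
      rw [div_mul_eq_mul_div, div_le_iff₀ (by positivity)]
      nlinarith
    linarith
  have h6 := abs_nonpos_iff.1 h5
  linarith

end H804OP.Rig
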