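import Pool.Agent.H804.OP.Rig3

/-!
# Rigidity
-/

open Real Set MeasureTheory Filter Topology
open scoped ContDiff
open H738CP

namespace H804OP.Rig

lemma int_parab (x₁ k ε s g : ℝ) :
    ∫ r in (x₁ - s)..(x₁ + s), g * (ε ^ 2 - k ^ 2 * (r - x₁) ^ 2) =
      g * (2 * ε ^ 2 * s - 2 / 3 * k ^ 2 * s ^ 3) := by
  have hd : ∀ x ∈ uIcc (x₁ - s) (x₁ + s), HasDerivAt
      (fun r => g * (ε ^ 2 * (r - x₁) - k ^ 2 * ((r - x₁) ^ 3 / 3)))
      (g * (ε ^ 2 - k ^ 2 * (x - x₁) ^ 2)) x := by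
    intro x _
    have h1 := (hasDerivAt_id x).sub_const x₁
    have h2 := ((h1.fun_pow 3).div_const 3).const_mul (k ^ 2)
    have h3 := ((h1.const_mul (ε ^ 2)).sub h2).const_mul g
    refine h3.congr_deriv ?_
    simp only [id]
    push_cast
    ring
  rw [intervalIntegral.integral_eq_sub_of_hasDerivAt hd
    (Continuous.intervalIntegrable (by fun_prop) _ _)]
  ring

lemma slope {L R : ℝ} {h g : ℝ → ℝ} (hg : Continuous g) (hhc : Continuous h)
    (hgnn : ∀ r ∈ Icc 0 L, 0 ≤ g r)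
    (hφ : ∀ φ : ℝ → ℝ, Continuous φ →
      ∫ r in (0 : ℝ)..L, φ (h r) * g r = ∫ x in (0 : ℝ)..R, φ x * x ^ 2)
    {r₁ h' : ℝ} (hr : r₁ ∈ Ioo 0 L) (hx : 0 < h r₁ ∧ h r₁ < R) (hd : HasDerivAt h h' r₁) :
    g r₁ ≤ |h'| * h r₁ ^ 2 := by
  by_contra hlt
  rw [not_le] at hlt
  set x₁ := h r₁ with hx₁
  have hx2 : 0 < x₁ ^ 2 := pow_pos hx.1 2
  obtain ⟨κ, hκ1, hκ2⟩ : ∃ κ, |h'| < κ ∧ κ * x₁ ^ 2 < g r₁ := by
    have h1 : |h'| < g r₁ / x₁ ^ 2 := by
      rw [lt_div_iff₀ hx2]
      exact hlt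
    obtain ⟨κ, h2, h3⟩ := exists_between h1
    exact ⟨κ, h2, (lt_div_iff₀ hx2).1 h3⟩
  have hκ0 : 0 < κ := lt_of_le_of_lt (abs_nonneg _) hκ1
  obtain ⟨g₁, hg1, hg2⟩ := exists_between hκ2
  have hg0 : 0 < g₁ := lt_trans (mul_pos hκ0 hx2) hg1
  -- local estimates
  have hloc : ∀ᶠ r in 𝓝 r₁, |h r - x₁| ≤ κ * |r - r₁| ∧ g₁ < g r := by
    have h1 := (hasDerivAt_iff_isLittleO.1 hd).def (sub_pos.2 hκ1)
    have h2 := (hg.tendsto r₁).eventually (lt_mem_nhds hg2)
    filter_upwards [h1, h2] with r h3 h4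
    refine ⟨?_, h4⟩
    rw [Real.norm_eq_abs, Real.norm_eq_abs, smul_eq_mul] at h3
    have h5 : h r - x₁ = (h r - h r₁ - (r - r₁) * h') + (r - r₁) * h' := by
      rw [hx₁]
      ring
    rw [h5]
    calc _ ≤ |h r - h r₁ - (r - r₁) * h'| + |(r - r₁) * h'| := abs_add_le _ _
      _ ≤ (κ - |h'|) * |r - r₁| + |r - r₁| * |h'| := by
        rw [abs_mul]
        linarith
      _ = κ * |r - r₁| := by ring
  obtain ⟨δ, hδ, hδl⟩ := Metric.eventually_nhds_iff.1 hloc
  -- choice of ε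
  have hev : ∀ (F : ℝ → ℝ) (v : ℝ), Continuous F → F 0 < v → ∀ᶠ ε in 𝓝[>] (0 : ℝ), F ε < v := by
    intro F v hF h1
    exact mem_nhdsWithin_of_mem_nhds ((hF.tendsto 0).eventually (gt_mem_nhds h1))
  have e1 := hev (fun ε => κ * (x₁ + ε) ^ 2) g₁ (by fun_prop) (by simpa using hg1)
  have e2 := hev (fun ε => ε / κ) δ (by fun_prop) (by simpa using hδ)
  have e3 := hev (fun ε => ε) x₁ (by fun_prop) hx.1
  have e4 := hev (fun ε => ε) (R - x₁) (by fun_prop) (sub_pos.2 hx.2)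
  have e5 := hev (fun ε => ε / κ) r₁ (by fun_prop) (by simpa using hr.1)
  have e6 := hev (fun ε => ε / κ) (L - r₁) (by fun_prop) (by simpa using hr.2)
  have e7 : ∀ᶠ ε in 𝓝[>] (0 : ℝ), 0 < ε := self_mem_nhdsWithin
  obtain ⟨ε, ⟨⟨⟨⟨⟨⟨q1, q2⟩, q3⟩, q4⟩, q5⟩, q6⟩, q7⟩⟩ :=
    ((((((e1.and e2).and e3).and e4).and e5).and e6).and e7).exists
  set s := ε / κ with hs
  have hs0 : 0 < s := by positivity
  have hκs : κ * s = ε := by
    rw [hs]
    field_simp
  set φ : ℝ → ℝ := fun x => max 0 (ε ^ 2 - (x - x₁) ^ 2) with hφd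
  have hφc : Continuous φ := by
    rw [hφd]
    fun_prop
  have hφ0 : ∀ x, 0 ≤ φ x := fun x => le_max_left _ _
  have hmain := hφ φ hφc
  -- lower bound
  have l1 : g₁ * (2 * ε ^ 2 * s - 2 / 3 * κ ^ 2 * s ^ 3) ≤ ∫ r in (0 : ℝ)..L, φ (h r) * g r := by
    rw [← int_parab r₁ κ ε s g₁]
    calc _ ≤ ∫ r in (r₁ - s)..(r₁ + s), φ (h r) * g r := by
          apply intervalIntegral.integral_mono_on (by linarith)
            (Continuous.intervalIntegrable (by fun_prop) _ _)
            (((hφc.comp hhc).mul hg).intervalIntegrable _ _)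
          intro r hr'
          have h1 : |r - r₁| ≤ s := by
            rw [abs_le]
            constructor <;> linarith [hr'.1, hr'.2]
          obtain ⟨h2, h3⟩ := hδl (y := r) (by rw [Real.dist_eq]; linarith)
          have h4 : (h r - x₁) ^ 2 ≤ κ ^ 2 * (r - r₁) ^ 2 := by
            rw [← sq_abs (h r - x₁), ← sq_abs (r - r₁), ← mul_pow]
            exact pow_le_pow_left₀ (abs_nonneg _) h2 2
          have h5 : κ ^ 2 * (r - r₁) ^ 2 ≤ ε ^ 2 := by
            rw [← sq_abs (r - r₁), ← mul_pow, ← hκs]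
            exact pow_le_pow_left₀ (by positivity) (mul_le_mul_of_nonneg_left h1 hκ0.le) 2
          have h6 : ε ^ 2 - κ ^ 2 * (r - r₁) ^ 2 ≤ φ (h r) :=
            le_trans (by linarith) (le_max_right _ _)
          calc g₁ * (ε ^ 2 - κ ^ 2 * (r - r₁) ^ 2) ≤ g r * (ε ^ 2 - κ ^ 2 * (r - r₁) ^ 2) :=
                mul_le_mul_of_nonneg_right h3.le (by linarith)
            _ ≤ g r * φ (h r) := mul_le_mul_of_nonneg_left h6 (by linarith)
            _ = _ := mul_comm _ _
      _ ≤ _ := by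
          apply intervalIntegral.integral_mono_interval (by linarith) (by linarith) (by linarith)
          · filter_upwards [ae_restrict_mem measurableSet_Ioc] with r hr'
            exact mul_nonneg (hφ0 _) (hgnn r (Ioc_subset_Icc_self hr'))
          · exact ((hφc.comp hhc).mul hg).intervalIntegrable _ _
  -- upper bound
  have hφz : ∀ x, ε ≤ |x - x₁| → φ x = 0 := by
    intro x h1
    rw [hφd]
    apply max_eq_left
    have : ε ^ 2 ≤ (x - x₁) ^ 2 := by
      rw [← sq_abs (x - x₁)]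
      exact pow_le_pow_left₀ q7.le h1 2
    linarith
  have u1 : ∫ x in (0 : ℝ)..R, φ x * x ^ 2 ≤
      (x₁ + ε) ^ 2 * (2 * ε ^ 2 * ε - 2 / 3 * 1 ^ 2 * ε ^ 3) := by
    have hi : ∀ a b : ℝ, IntervalIntegrable (fun x => φ x * x ^ 2) volume a b := fun a b =>
      (hφc.mul (by fun_prop)).intervalIntegrable _ _
    rw [← int_parab x₁ 1 ε ε ((x₁ + ε) ^ 2),
      ← intervalIntegral.integral_add_adjacent_intervals (hi 0 (x₁ - ε)) (hi (x₁ - ε) R),
      ← intervalIntegral.integral_add_adjacent_intervals (hi (x₁ - ε) (x₁ + ε)) (hi (x₁ + ε) R)]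
    have z1 : ∫ x in (0 : ℝ)..(x₁ - ε), φ x * x ^ 2 = 0 := by
      refine Eq.trans ?_ (intervalIntegral.integral_zero (μ := volume) (a := (0 : ℝ)) (b := x₁ - ε))
      apply intervalIntegral.integral_congr
      intro x hx'
      rw [uIcc_of_le (by linarith)] at hx'
      simp only
      rw [hφz x, zero_mul]
      rw [abs_of_nonpos (by linarith [hx'.2])]
      linarith [hx'.2]
    have z2 : ∫ x in (x₁ + ε)..R, φ x * x ^ 2 = 0 := by
      refine Eq.trans ?_ (intervalIntegral.integral_zero (μ := volume) (a := x₁ + ε) (b := R))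
      apply intervalIntegral.integral_congr
      intro x hx'
      rw [uIcc_of_le (by linarith)] at hx'
      simp only
      rw [hφz x, zero_mul]
      rw [abs_of_nonneg (by linarith [hx'.1])]
      linarith [hx'.1]
    rw [z1, z2, zero_add, add_zero]
    apply intervalIntegral.integral_mono_on (by linarith) (hi _ _)
      (Continuous.intervalIntegrable (by fun_prop) _ _)
    intro x hx'
    have h1 : (x - x₁) ^ 2 ≤ ε ^ 2 := by
      rw [← sq_abs (x - x₁)]
      exact pow_le_pow_left₀ (abs_nonneg _) (by rw [abs_le]; constructor <;> linarith [hx'.1, hx'.2]) 2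
    have h2 : φ x = ε ^ 2 - (x - x₁) ^ 2 := max_eq_right (by linarith)
    have h3 : x ^ 2 ≤ (x₁ + ε) ^ 2 := pow_le_pow_left₀ (by linarith [hx'.1]) hx'.2 2
    rw [h2]
    calc (ε ^ 2 - (x - x₁) ^ 2) * x ^ 2 ≤ (ε ^ 2 - (x - x₁) ^ 2) * (x₁ + ε) ^ 2 :=
          mul_le_mul_of_nonneg_left h3 (by linarith)
      _ = _ := by ring
  -- comparison
  have hfin : g₁ * (2 * ε ^ 2 * s - 2 / 3 * κ ^ 2 * s ^ 3) ≤
      (x₁ + ε) ^ 2 * (2 * ε ^ 2 * ε - 2 / 3 * 1 ^ 2 * ε ^ 3) := by
    calc _ ≤ _ := l1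
      _ = _ := hmain
      _ ≤ _ := u1
  have a1 : 2 * ε ^ 2 * s - 2 / 3 * κ ^ 2 * s ^ 3 = 4 / 3 * ε ^ 2 * s := by
    have : κ ^ 2 * s ^ 3 = ε ^ 2 * s := by
      rw [← hκs]
      ring
    linarith
  have a2 : 2 * ε ^ 2 * ε - 2 / 3 * 1 ^ 2 * ε ^ 3 = 4 / 3 * ε ^ 2 * s * κ := by
    rw [mul_assoc _ s κ, mul_comm s κ, hκs]
    ring
  rw [a1, a2] at hfin
  have a3 : (4 / 3 * ε ^ 2 * s) * g₁ ≤ (4 / 3 * ε ^ 2 * s) * (κ * (x₁ + ε) ^ 2) := by
    calc _ = g₁ * (4 / 3 * ε ^ 2 * s) := by ring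
      _ ≤ (x₁ + ε) ^ 2 * (4 / 3 * ε ^ 2 * s * κ) := hfin
      _ = _ := by ring
  have a4 := le_of_mul_le_mul_left a3 (by positivity)
  linarith

/-! ### The theorem -/

theorem rigid {L : ℝ} {f h : ℝ → ℝ} (hf : IsProfileCP L f h) {R : ℝ} (hR : 0 < R)
    (hm : ∀ i j, Vm L f h i j = R ^ (i + j + 3) * V0 i j) :
    L = π * R / 2 ∧ ∀ r ∈ Icc 0 L, f r = R * (Real.sin (r / R) * Real.cos (r / R)) ∧
      h r = R * Real.sin (r / R) := by
  have hfc : Continuous f := hf.smooth_f.continuous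
  have hhc : Continuous h := hf.smooth_h.continuous
  have hrel := relation hf hm
  have hf0 : f 0 = 0 := by
    have := hf.f_odd 0
    rw [neg_zero] at this
    linarith
  have hh0 : h 0 = 0 := by
    have := hf.h_odd 0
    rw [neg_zero] at this
    linarith
  have hfL : f L = 0 := by
    have := hf.f_odd_L 0
    rw [add_zero, sub_zero] at this
    linarith
  have hfn : ∀ r ∈ Icc 0 L, 0 ≤ f r := by
    intro r hr
    rcases eq_or_lt_of_le hr.1 with h1 | h1
    · rw [← h1, hf0]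
    · rcases eq_or_lt_of_le hr.2 with h2 | h2
      · rw [h2, hfL]
      · exact (hf.f_pos r h1 h2).le
  have hhn : ∀ r ∈ Icc 0 L, 0 ≤ h r := by
    intro r hr
    rcases eq_or_lt_of_le hr.1 with h1 | h1
    · rw [← h1, hh0]
    · exact (hf.h_pos r h1 hr.2).le
  have hhL : h L = R := by
    have h1 := hrel L ⟨hf.pos.le, le_rfl⟩
    rw [hfL] at h1
    have h2 := hf.h_pos L hf.pos le_rfl
    have h3 : h L ^ 2 * (h L ^ 2 - R ^ 2) = 0 := by linarith
    have h4 : h L ^ 2 - R ^ 2 = 0 := (mul_eq_zero.1 h3).resolve_left (pow_pos h2 2).ne'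
    have h5 : (h L - R) * (h L + R) = 0 := by linarith
    have h6 := (mul_eq_zero.1 h5).resolve_right (by linarith : (0 : ℝ) < h L + R).ne'
    linarith
  have hlt : ∀ r ∈ Ioo 0 L, 0 < h r ∧ h r < R := by
    intro r hr
    have h1 := hrel r (Ioo_subset_Icc_self hr)
    have h2 := hf.f_pos r hr.1 hr.2
    have h3 := hf.h_pos r hr.1 hr.2.le
    refine ⟨h3, ?_⟩
    by_contra h4
    rw [not_lt] at h4
    have h5 : 0 < R ^ 2 * f r ^ 2 := by positivity
    have h6 : R ^ 2 ≤ h r ^ 2 := pow_le_pow_left₀ hR.le h4 2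
    have h7 : 0 ≤ h r ^ 2 * (h r ^ 2 - R ^ 2) := mul_nonneg (sq_nonneg _) (by linarith)
    linarith
  have hh : ∀ r ∈ Icc 0 L, 0 ≤ h r ∧ h r ≤ R := by
    intro r hr
    refine ⟨hhn r hr, ?_⟩
    rcases eq_or_lt_of_le hr.1 with h1 | h1
    · rw [← h1, hh0]
      exact hR.le
    · rcases eq_or_lt_of_le hr.2 with h2 | h2
      · rw [h2, hhL]
      · exact (hlt r ⟨h1, h2⟩).2.le
  have hhd : ∀ x, HasDerivAt h (deriv h x) x := fun x =>
    (hf.smooth_h.differentiable (by norm_num) x).hasDerivAt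
  have hdc : Continuous (deriv h) := hf.smooth_h.continuous_deriv (by simp)
  -- the slope bound
  have hsl : ∀ r ∈ Ioo 0 L, f r * h r ≤ |deriv h r| * h r ^ 2 := fun r hr =>
    slope (g := fun r => f r * h r) (by fun_prop) hhc
      (fun x hx => mul_nonneg (hfn x hx) (hhn x hx))
      (fun φ hφ => cont_test hf hR hm hh hfn hφ) hr (hlt r hr) (hhd r)
  have hne : ∀ r ∈ Ioo 0 L, deriv h r ≠ 0 := by
    intro r hr h1
    have h2 := hsl r hr
    rw [h1, abs_zero, zero_mul] at h2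
    have := mul_pos (hf.f_pos r hr.1 hr.2) (hf.h_pos r hr.1 hr.2.le)
    linarith
  have hpos : ∀ r ∈ Ioo 0 L, 0 < deriv h r := by
    intro r hr
    by_contra h1
    rw [not_lt] at h1
    have h2 : (0 : ℝ) ∈ Icc (deriv h r) (deriv h 0) := ⟨h1, by rw [hf.h_deriv]; exact zero_le_one⟩
    obtain ⟨y, hy, hy0⟩ := intermediate_value_Icc' hr.1.le hdc.continuousOn h2
    rcases eq_or_lt_of_le hy.1 with h3 | h3
    · rw [← h3, hf.h_deriv] at hy0
      exact one_ne_zero hy0
    · exact hne y ⟨h3, lt_of_le_of_lt hy.2 hr.2⟩ hy0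
  have hint : ∫ r in (0 : ℝ)..L, (h r ^ 2 * deriv h r - f r * h r) = 0 := by
    rw [intervalIntegral.integral_sub (Continuous.intervalIntegrable (by fun_prop) _ _)
      (Continuous.intervalIntegrable (by fun_prop) _ _)]
    have h1 : ∫ r in (0 : ℝ)..L, h r ^ 2 * deriv h r = R ^ 3 / 3 := by
      have hd : ∀ x ∈ uIcc (0 : ℝ) L, HasDerivAt (fun x => h x ^ 3 / 3) (h x ^ 2 * deriv h x) x := by
        intro x _
        refine (((hhd x).fun_pow 3).div_const 3).congr_deriv ?_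
        push_cast
        ring
      rw [intervalIntegral.integral_eq_sub_of_hasDerivAt hd
        (Continuous.intervalIntegrable (by fun_prop) _ _), hhL, hh0]
      ring
    have h2 : ∫ r in (0 : ℝ)..L, f r * h r = R ^ 3 / 3 := by
      have h3 := hm 0 0
      unfold Vm at h3
      simp only [zero_add, pow_one] at h3
      rw [h3, V0_zero]
      push_cast
      ring
    rw [h1, h2, sub_self]
  have hnn : ∀ x ∈ Icc 0 L, 0 ≤ h x ^ 2 * deriv h x - f x * h x := by
    have h1 : ∀ x ∈ Ioo 0 L, 0 ≤ h x ^ 2 * deriv h x - f x * h x := by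
      intro x hx
      have h2 := hsl x hx
      rw [abs_of_pos (hpos x hx)] at h2
      linarith
    intro x hx
    rcases eq_or_lt_of_le hx.1 with h2 | h2
    · rw [← h2, hf0, hh0]
      simp
    · rcases eq_or_lt_of_le hx.2 with h3 | h3
      · rw [h3, hfL, zero_mul, sub_zero]
        have h4 : 0 ≤ deriv h L := by
          have h5 : L ∈ closure (Ioo 0 L) := by
            rw [closure_Ioo hf.pos.ne]
            exact ⟨hf.pos.le, le_rfl⟩
          exact closure_minimal (fun y hy => (hpos y hy).le)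
            (isClosed_le continuous_const hdc) h5
        positivity
      · exact h1 x ⟨h2, h3⟩
  have heq := zero_of_integral hf.pos (F := fun x => h x ^ 2 * deriv h x - f x * h x)
    (by fun_prop) hnn hint
  have hder : ∀ r ∈ Ioo 0 L, deriv h r = √(1 - (h r / R) ^ 2) := by
    intro r hr
    have h1 := heq r (Ioo_subset_Icc_self hr)
    have h2 := hf.h_pos r hr.1 hr.2.le
    have h3 : h r * deriv h r = f r := by
      have h4 : h r * (h r * deriv h r - f r) = 0 := by linarith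
      have h5 := (mul_eq_zero.1 h4).resolve_left h2.ne'
      linarith
    have h4 := hrel r (Ioo_subset_Icc_self hr)
    rw [← h3] at h4
    have h5 : h r ^ 2 * (R ^ 2 * deriv h r ^ 2 - R ^ 2 + h r ^ 2) = 0 := by linarith
    have h6 := (mul_eq_zero.1 h5).resolve_left (pow_pos h2 2).ne'
    symm
    rw [Real.sqrt_eq_iff_mul_self_eq_of_pos (hpos r hr)]
    rw [div_pow]
    field_simp
    linarith
  -- arcsin
  set θ : ℝ → ℝ := fun r => Real.arcsin (h r / R) - r / R with hθ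
  have hθc : Continuous θ := by
    rw [hθ]
    exact (Real.continuous_arcsin.comp (by fun_prop)).sub (by fun_prop)
  have hθd : ∀ r ∈ Ioo 0 L, HasDerivAt θ 0 r := by
    intro r hr
    obtain ⟨h1, h2⟩ := hlt r hr
    have h3 : 0 < h r / R := by positivity
    have h4 : h r / R < 1 := by rwa [div_lt_one hR]
    have h5 := (Real.hasDerivAt_arcsin (by linarith) (by linarith)).comp r ((hhd r).div_const R)
    have h6 := h5.sub ((hasDerivAt_id r).div_const R)
    refine h6.congr_deriv ?_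
    have h7 : 0 < √(1 - (h r / R) ^ 2) := by
      rw [← hder r hr]
      exact hpos r hr
    rw [hder r hr]
    generalize √(1 - (h r / R) ^ 2) = y at h7
    have h8 : y ≠ 0 := h7.ne'
    field_simp
    ring
  have hθ0 : θ 0 = 0 := by
    rw [hθ]
    simp [hh0]
  have hθz : ∀ r ∈ Icc 0 L, θ r = 0 := by
    intro r hr
    rcases eq_or_lt_of_le hr.1 with h1 | h1
    · rw [← h1, hθ0]
    · obtain ⟨c, _, hc2⟩ := exists_hasDerivAt_eq_slope θ (fun _ => 0) h1 hθc.continuousOn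
        (fun x hx => hθd x ⟨hx.1, lt_of_lt_of_le hx.2 hr.2⟩)
      rw [hθ0, sub_zero, sub_zero] at hc2
      have h2 := (div_eq_zero_iff.1 hc2.symm).resolve_right h1.ne'
      exact h2
  have harc : ∀ r ∈ Icc 0 L, Real.arcsin (h r / R) = r / R := by
    intro r hr
    have := hθz r hr
    rw [hθ] at this
    simp only at this
    linarith
  have hLR : L = π * R / 2 := by
    have h1 := harc L ⟨hf.pos.le, le_rfl⟩
    rw [hhL, div_self hR.ne', Real.arcsin_one] at h1
    field_simp at h1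
    linarith
  refine ⟨hLR, fun r hr => ?_⟩
  have hsin : h r = R * Real.sin (r / R) := by
    rw [← harc r hr, Real.sin_arcsin]
    · field_simp
    · have := (hh r hr).1
      have : 0 ≤ h r / R := by positivity
      linarith
    · rw [div_le_one hR]
      exact (hh r hr).2
  refine ⟨?_, hsin⟩
  have hcos : 0 ≤ Real.cos (r / R) := by
    apply Real.cos_nonneg_of_mem_Icc
    constructor
    · have : 0 ≤ r / R := div_nonneg hr.1 hR.le
      linarith [Real.pi_pos]
    · rw [div_le_iff₀ hR]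
      have := hr.2
      linarith
  have hsn : 0 ≤ Real.sin (r / R) := by
    have h1 := (hh r hr).1
    rw [hsin] at h1
    exact nonneg_of_mul_nonneg_right h1 hR
  have h1 := hrel r hr
  rw [hsin] at h1
  have h2 : Real.cos (r / R) ^ 2 = 1 - Real.sin (r / R) ^ 2 := Real.cos_sq' _
  have h3 : R ^ 2 * (f r ^ 2 - (R * (Real.sin (r / R) * Real.cos (r / R))) ^ 2) = 0 := by
    rw [mul_pow, mul_pow, h2]
    linarith
  have h4 := (mul_eq_zero.1 h3).resolve_left (by positivity)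
  exact (pow_left_inj₀ (hfn r hr) (by positivity) two_ne_zero).1 (by linarith)

end H804OP.Rig
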