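import Pool.Agent.H804.OP.Rig4
import Pool.Graph.R_seed8.H738R3.CP.HE
import Pool.Agent.H804.OP.Em

/-!
# Rigidity for the three families
-/

open Real Set MeasureTheory Filter Topology Quaternion
open scoped ContDiff
open H738CP

namespace H804OP.Rig

/-- `dr² + f(r)² g_V + h(r)² g_H` is the symmetric metric, of diameter `π R / 2`. -/
def IsSymm (R L : ℝ) (f h : ℝ → ℝ) : Prop :=
  L = π * R / 2 ∧ ∀ r ∈ Icc 0 L, f r = R * (Real.sin (r / R) * Real.cos (r / R)) ∧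
    h r = R * Real.sin (r / R)

lemma exists_root {N : ℕ} (hN : N ≠ 0) {x : ℝ} (hx : 0 < x) : ∃ R : ℝ, 0 < R ∧ R ^ N = x := by
  refine ⟨x ^ (((N : ℕ) : ℝ)⁻¹), Real.rpow_pos_of_pos hx _, ?_⟩
  rw [Real.rpow_inv_natCast_pow hx.le hN]

lemma Vm_pos {L : ℝ} {f h : ℝ → ℝ} (hf : IsProfileCP L f h) (a b : ℕ) : 0 < Vm L f h a b := by
  have hfc : Continuous f := hf.smooth_f.continuous
  have hhc : Continuous h := hf.smooth_h.continuous
  refine intervalIntegral.intervalIntegral_pos_of_pos_on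
    (((hfc.pow _).mul (hhc.pow _)).intervalIntegrable _ _) (fun x hx => ?_) hf.pos
  exact mul_pos (pow_pos (hf.f_pos x hx.1 hx.2) _) (pow_pos (hf.h_pos x hx.1 hx.2.le) _)

/-- The general form: `c` is the normalisation constant. -/
theorem rigid_general {L : ℝ} {f h : ℝ → ℝ} (hf : IsProfileCP L f h) {a b : ℕ} {c : ℝ}
    (hc : c * V0 a b = 1) {n : ℕ} (hn : 2 ≤ n)
    (hno : ∀ (γ : ℝ → Submodule ℂ (ℂ × EuclideanSpace ℂ (Fin n))) (T : ℝ), 0 < T →
      IsGeodesicCP L f h 1 γ → (∀ t, γ (t + T) = γ t) →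
      c * π ^ (a + b + 3) * Vm L f h a b ≤ T ^ (a + b + 3)) :
    ∃ R : ℝ, 0 < R ∧ IsSymm R L f h := by
  have hV := Vm_pos hf a b
  have hc0 : 0 < c := by
    have h1 : 0 < V0 a b := Vm_pos FP.profile_FS a b
    by_contra h2
    rw [not_lt] at h2
    have := mul_nonpos_of_nonpos_of_nonneg h2 h1.le
    linarith
  obtain ⟨R, hR, hRN⟩ := exists_root (N := a + b + 3) (by omega) (mul_pos hc0 hV)
  refine ⟨R, hR, rigid hf hR (moments (a := a) (b := b) hf hn hR (fun γ T hT hγ hper => ?_) ?_)⟩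
  · have h1 := hno γ T hT hγ hper
    have h2 : (π * R) ^ (a + b + 3) ≤ T ^ (a + b + 3) := by
      rw [mul_pow, hRN]
      calc _ = c * π ^ (a + b + 3) * Vm L f h a b := by ring
        _ ≤ _ := h1
    exact le_of_pow_le_pow_left₀ (by omega) hT.le h2
  · rw [hRN]
    apply le_of_eq
    calc Vm L f h a b = (c * V0 a b) * Vm L f h a b := by rw [hc, one_mul]
      _ = _ := by ring

/-! ### The normalisations -/

lemma norm_CP {n : ℕ} (hn : 2 ≤ n) : (2 * (n : ℝ)) * V0 0 (2 * n - 3) = 1 := by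
  obtain ⟨m, rfl⟩ : ∃ m, n = m + 2 := ⟨n - 2, by omega⟩
  rw [V0_zero, show 2 * (m + 2) - 3 = 2 * m + 1 by omega]
  push_cast
  field_simp
  ring

lemma norm_HP {n : ℕ} (hn : 2 ≤ n) : (4 * (n : ℝ) * (2 * n + 1)) * V0 2 (4 * n - 5) = 1 := by
  obtain ⟨m, rfl⟩ : ∃ m, n = m + 2 := ⟨n - 2, by omega⟩
  rw [V0_two, show 4 * (m + 2) - 5 = 4 * m + 3 by omega]
  push_cast
  have h1 : (4 * (m : ℝ) + 3 + 5) ≠ 0 := by positivity
  have h2 : (4 * (m : ℝ) + 3 + 7) ≠ 0 := by positivity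
  field_simp
  ring

lemma norm_OP : (2640 : ℝ) * V0 6 7 = 1 := by
  have h := V0_even 3 7
  rw [show 2 * 3 = 6 by norm_num] at h
  rw [h]
  have e : ∀ x : ℝ, x ^ (6 + 7 + 2) * (1 - x ^ 2) ^ 3 =
      x ^ 15 - 3 * x ^ 17 + (3 * x ^ 19 - x ^ 21) := by
    intro x
    ring
  simp only [e]
  rw [intervalIntegral.integral_add (Continuous.intervalIntegrable (by fun_prop) _ _)
    (Continuous.intervalIntegrable (by fun_prop) _ _),
    intervalIntegral.integral_sub (Continuous.intervalIntegrable (by fun_prop) _ _)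
    (Continuous.intervalIntegrable (by fun_prop) _ _),
    intervalIntegral.integral_sub (Continuous.intervalIntegrable (by fun_prop) _ _)
    (Continuous.intervalIntegrable (by fun_prop) _ _), intervalIntegral.integral_const_mul,
    intervalIntegral.integral_const_mul, integral_pow, integral_pow, integral_pow, integral_pow]
  norm_num

/-! ### The three families -/

theorem rigid_CP {n : ℕ} (hn : 2 ≤ n) {L : ℝ} {f h : ℝ → ℝ} (hf : IsProfileCP L f h)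
    (hno : ∀ (γ : ℝ → Submodule ℂ (ℂ × EuclideanSpace ℂ (Fin n))) (T : ℝ), 0 < T →
      IsGeodesicCP L f h 1 γ → (∀ t, γ (t + T) = γ t) →
      2 * n * π ^ (2 * n) * (∫ r in (0 : ℝ)..L, f r * h r ^ (2 * n - 2)) ≤ T ^ (2 * n)) :
    ∃ R : ℝ, 0 < R ∧ IsSymm R L f h := by
  refine rigid_general hf (norm_CP hn) hn (fun γ T hT hγ hper => ?_)
  have h1 := hno γ T hT hγ hper
  have e1 : 0 + (2 * n - 3) + 3 = 2 * n := by omega
  have e2 : Vm L f h 0 (2 * n - 3) = ∫ r in (0 : ℝ)..L, f r * h r ^ (2 * n - 2) := by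
    unfold Vm
    rw [show 2 * n - 3 + 1 = 2 * n - 2 by omega]
    simp
  rw [e1, e2]
  exact h1

theorem rigid_HP {n : ℕ} (hn : 2 ≤ n) {L : ℝ} {f h : ℝ → ℝ} (hf : IsProfileCP L f h)
    (hno : ∀ (γ : ℝ → Set (ℍ[ℝ] × (Fin n → ℍ[ℝ]))) (T : ℝ), 0 < T →
      IsGeodesicHP L f h 1 γ → (∀ t, γ (t + T) = γ t) →
      4 * n * (2 * n + 1) * π ^ (4 * n) *
        (∫ r in (0 : ℝ)..L, f r ^ 3 * h r ^ (4 * n - 4)) ≤ T ^ (4 * n)) :
    ∃ R : ℝ, 0 < R ∧ IsSymm R L f h := by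
  refine rigid_general hf (norm_HP hn) (n := 2) le_rfl (fun γ T hT hγ hper => ?_)
  obtain ⟨γ', hγ', hper'⟩ := HE.embedHP hf hn hγ
  have h1 := hno γ' T hT hγ' (hper' T hper)
  have e1 : 2 + (4 * n - 5) + 3 = 4 * n := by omega
  have e2 : Vm L f h 2 (4 * n - 5) = ∫ r in (0 : ℝ)..L, f r ^ 3 * h r ^ (4 * n - 4) := by
    unfold Vm
    rw [show 4 * n - 5 + 1 = 4 * n - 4 by omega]
  rw [e1, e2]
  exact h1

theorem rigid_OP {A : Fin 9 → E16 →L[ℝ] E16} (hA : IsClifford A) {L : ℝ} {f h : ℝ → ℝ}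
    (hf : IsProfileCP L f h)
    (hno : ∀ (γ : ℝ → ℝ × E16 × (Fin 9 → ℝ)) (T : ℝ), 0 < T →
      IsGeodesicOP A L f h 1 γ → (∀ t, γ (t + T) = γ t) →
      2640 * π ^ 16 * (∫ r in (0 : ℝ)..L, f r ^ 7 * h r ^ 8) ≤ T ^ 16) :
    ∃ R : ℝ, 0 < R ∧ IsSymm R L f h := by
  obtain ⟨e, he, he1⟩ := Sl.exists_e hA
  refine rigid_general hf norm_OP (n := 2) le_rfl (fun γ T hT hγ hper => ?_)
  obtain ⟨γ', hγ', hper'⟩ := Em.embedOP hA he he1 hf hγ
  exact hno γ' T hT hγ' (hper' T hper)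

end H804OP.Rig
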