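import Pool.Agent.H804.OP.Rig5
import Pool.Graph.R_seed8.H738R3.CP.HL
import Pool.Agent.H804.OP.Low

/-!
# The symmetric metrics attain equality
-/

open Real Set MeasureTheory Filter Topology Quaternion
open scoped ContDiff
open H738CP

namespace H804OP.Rig

lemma ext_zero {L : ℝ} {D : ℝ → ℝ} (hodd : ∀ r, D (-r) = -D r) (s : ℝ)
    (hL : ∀ r, D (L + r) = s * D (L - r)) (hz : ∀ r ∈ Icc 0 L, D r = 0) (hpos : 0 < L) :
    ∀ r, D r = 0 := by
  have key : ∀ n : ℕ, ∀ r, |r| ≤ ((n : ℝ) + 1) * L → D r = 0 := by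
    intro n
    induction n with
    | zero =>
      intro r hr
      rw [Nat.cast_zero, zero_add, one_mul, abs_le] at hr
      rcases le_total 0 r with h1 | h1
      · exact hz r ⟨h1, hr.2⟩
      · have h2 := hz (-r) ⟨by linarith, by linarith [hr.1]⟩
        rw [hodd] at h2
        linarith
    | succ n ih =>
      have hp : ∀ r, 0 ≤ r → r ≤ ((n : ℝ) + 2) * L → D r = 0 := by
        intro r h0 h1
        rcases le_or_gt r (((n : ℝ) + 1) * L) with h2 | h2
        · exact ih r (by rw [abs_of_nonneg h0]; exact h2)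
        · have h3 := hL (r - L)
          have e1 : L + (r - L) = r := by ring
          have e2 : L - (r - L) = 2 * L - r := by ring
          rw [e1, e2] at h3
          rw [h3, ih (2 * L - r), mul_zero]
          have hn : (0 : ℝ) ≤ n := Nat.cast_nonneg n
          have hnL : 0 ≤ (n : ℝ) * L := by positivity
          rw [abs_le]
          constructor <;> linarith
      intro r hr
      push_cast at hr
      rcases le_total 0 r with h1 | h1
      · rw [abs_of_nonneg h1] at hr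
        exact hp r h1 (by linarith)
      · rw [abs_of_nonpos h1] at hr
        have h2 := hp (-r) (by linarith) (by linarith)
        rw [hodd] at h2
        linarith
  intro r
  obtain ⟨n, hn⟩ := exists_nat_ge (|r| / L)
  refine key n r ?_
  rw [div_le_iff₀ hpos] at hn
  linarith

lemma symm_ext {L : ℝ} {f h : ℝ → ℝ} (hf : IsProfileCP L f h) {R : ℝ} (hR : 0 < R)
    (hs : IsSymm R L f h) :
    (∀ r, f r = R * (Real.sin (r / R) * Real.cos (r / R))) ∧ ∀ r, h r = R * Real.sin (r / R) := by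
  obtain ⟨hL, hfh⟩ := hs
  have e1 : ∀ r, (L + r) / R = π / 2 + r / R := by
    intro r
    rw [hL]
    field_simp
  have e2 : ∀ r, (L - r) / R = π / 2 - r / R := by
    intro r
    rw [hL]
    field_simp
  have c1 : ∀ x : ℝ, Real.sin (π / 2 + x) = Real.cos x := by
    intro x
    rw [add_comm, Real.sin_add_pi_div_two]
  have c2 : ∀ x : ℝ, Real.cos (π / 2 + x) = -Real.sin x := by
    intro x
    rw [add_comm, Real.cos_add_pi_div_two]
  constructor
  · have h1 := ext_zero (L := L) (D := fun r => f r - R * (Real.sin (r / R) * Real.cos (r / R)))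
      (fun r => by
        rw [hf.f_odd, neg_div, Real.sin_neg, Real.cos_neg]
        ring) (-1) (fun r => by
        rw [hf.f_odd_L, e1, e2, Real.sin_pi_div_two_sub, Real.cos_pi_div_two_sub, c1, c2]
        ring) (fun r hr => by
        rw [(hfh r hr).1]
        ring) hf.pos
    intro r
    have := h1 r
    linarith
  · have h1 := ext_zero (L := L) (D := fun r => h r - R * Real.sin (r / R))
      (fun r => by
        rw [hf.h_odd, neg_div, Real.sin_neg]
        ring) 1 (fun r => by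
        rw [hf.h_even_L, e1, e2, Real.sin_pi_div_two_sub, c1]
        ring) (fun r hr => by
        rw [(hfh r hr).2]
        ring) hf.pos
    intro r
    have := h1 r
    linarith

lemma deriv_scaled {R : ℝ} (hR : 0 < R) {f F : ℝ → ℝ} (hF : Differentiable ℝ F)
    (hf : ∀ r, f r = R * F (r / R)) (r : ℝ) : deriv f r = deriv F (r / R) := by
  have e : f = fun r => R * F (r / R) := funext hf
  have h1 := ((hF (r / R)).hasDerivAt.comp r ((hasDerivAt_id r).div_const R)).const_mul R
  have h2 : HasDerivAt f (R * (deriv F (r / R) * (1 / R))) r := by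
    rw [e]
    exact h1
  rw [h2.deriv]
  field_simp

lemma diff_F : Differentiable ℝ (fun r => Real.sin r * Real.cos r) := by fun_prop

lemma deriv_div2 {R : ℝ} (r : ℝ → ℝ) (t : ℝ) :
    deriv (fun t => r t / R) t = deriv r t / R ∧
    deriv (deriv (fun t => r t / R)) t = deriv (deriv r) t / R := by
  have h1 : deriv (fun t => r t / R) = fun t => deriv r t / R := by
    funext t
    rw [deriv_div_const]
  refine ⟨by rw [h1], ?_⟩
  rw [h1, deriv_div_const]

theorem scaleCP {R : ℝ} (hR : 0 < R) {L : ℝ} {f h : ℝ → ℝ} (hL : L = π * R / 2)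
    (hf : ∀ r, f r = R * (Real.sin (r / R) * Real.cos (r / R)))
    (hh : ∀ r, h r = R * Real.sin (r / R)) {n : ℕ}
    {γ : ℝ → Submodule ℂ (ℂ × EuclideanSpace ℂ (Fin n))} (hγ : IsGeodesicCP L f h 1 γ) :
    IsGeodesicCP (π / 2) (fun r => Real.sin r * Real.cos r) Real.sin (1 / R) γ := by
  obtain ⟨r, z, hr, hz, hn, hγ', h1, ⟨P, h2⟩, h3, h4⟩ := hγ
  have hfd : ∀ x, deriv f x = deriv (fun r => Real.sin r * Real.cos r) (x / R) :=
    deriv_scaled hR diff_F hf
  have hhd : ∀ x, deriv h x = deriv Real.sin (x / R) :=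
    deriv_scaled hR Real.differentiable_sin hh
  have hRc : ((R : ℝ) : ℂ) ≠ 0 := by exact_mod_cast hR.ne'
  refine ⟨fun t => r t / R, z, hr.div_const R, hz, hn, ?_, ?_, ⟨P / R ^ 2, ?_⟩, ?_, ?_⟩
  · intro t
    rw [hγ' t]
    unfold cpt
    have e : π * r t / (2 * L) = π * (r t / R) / (2 * (π / 2)) := by
      rw [hL]
      field_simp
    rw [e]
  · intro t
    rw [(deriv_div2 r t).2, h1 t, hfd, hhd, hf, hh]
    field_simp
  · intro t
    rw [← h2 t, hf]
    field_simp
  · intro t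
    have h5 := h3 t
    rw [hhd, hf, hh] at h5
    simp only
    rw [(deriv_div2 r t).1]
    set S := Real.sin (r t / R)
    set C := Real.cos (r t / R)
    set S' := deriv Real.sin (r t / R)
    have h6 : ((R ^ 2 : ℝ) : ℂ) • (((S ^ 2 : ℝ) : ℂ) • (deriv (hor z) t +
        ((‖hor z t‖ ^ 2 : ℝ) : ℂ) • z t)
        + ((2 * S * S' * (deriv r t / R) : ℝ) : ℂ) • hor z t
        + (((2 * (S * C) ^ 2 - S ^ 2) * hopf z t : ℝ) * Complex.I) • hor z t) = 0 := by
      rw [← h5, smul_add, smul_add, smul_smul, smul_smul, smul_smul]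
      congr 1
      · congr 1
        · congr 1
          push_cast
          ring
        · congr 1
          push_cast
          field_simp
      · congr 1
        push_cast
        ring
    have h7 : ((R ^ 2 : ℝ) : ℂ) ≠ 0 := by exact_mod_cast (pow_pos hR 2).ne'
    exact (smul_eq_zero.1 h6).resolve_left h7
  · intro t
    have h5 := h4 t
    rw [hf, hh] at h5
    rw [(deriv_div2 r t).1]
    have h6 : R ^ 2 * ((deriv r t / R) ^ 2 +
        (Real.sin (r t / R) * Real.cos (r t / R)) ^ 2 * hopf z t ^ 2 +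
        Real.sin (r t / R) ^ 2 * ‖hor z t‖ ^ 2) = 1 := by
      rw [← one_pow 2, ← h5]
      field_simp
    simp only
    field_simp
    field_simp at h6
    linarith

theorem scaleHP {R : ℝ} (hR : 0 < R) {L : ℝ} {f h : ℝ → ℝ} (hL : L = π * R / 2)
    (hf : ∀ r, f r = R * (Real.sin (r / R) * Real.cos (r / R)))
    (hh : ∀ r, h r = R * Real.sin (r / R)) {n : ℕ}
    {γ : ℝ → Set (ℍ[ℝ] × (Fin n → ℍ[ℝ]))} (hγ : IsGeodesicHP L f h 1 γ) :
    IsGeodesicHP (π / 2) (fun r => Real.sin r * Real.cos r) Real.sin (1 / R) γ := by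
  obtain ⟨r, z, hr, hz, hn, hγ', h1, ⟨P, h2⟩, h3, h4⟩ := hγ
  have hfd : ∀ x, deriv f x = deriv (fun r => Real.sin r * Real.cos r) (x / R) :=
    deriv_scaled hR diff_F hf
  have hhd : ∀ x, deriv h x = deriv Real.sin (x / R) :=
    deriv_scaled hR Real.differentiable_sin hh
  refine ⟨fun t => r t / R, z, hr.div_const R, hz, hn, ?_, ?_, ⟨(1 / R ^ 2) • P, ?_⟩, ?_, ?_⟩
  · intro t
    rw [hγ' t]
    unfold hpt
    have e : π * r t / (2 * L) = π * (r t / R) / (2 * (π / 2)) := by
      rw [hL]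
      field_simp
    rw [e]
  · intro t
    rw [(deriv_div2 r t).2, h1 t, hfd, hhd, hf, hh]
    field_simp
  · intro t
    rw [← h2 t, hf, smul_smul]
    congr 1
    field_simp
  · intro t i
    have h5 := h3 t i
    rw [hhd, hf, hh] at h5
    simp only
    rw [(deriv_div2 r t).1]
    set S := Real.sin (r t / R)
    set C := Real.cos (r t / R)
    set S' := deriv Real.sin (r t / R)
    have h6 : (R ^ 2) • (S ^ 2 • (deriv (qhor z) t i + nsq (qhor z t) • z t i)
        + (2 * S * S' * (deriv r t / R)) • qhor z t i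
        + (2 * (S * C) ^ 2 - S ^ 2) • (qhor z t i * qvert z t)) = 0 := by
      rw [← h5, smul_add, smul_add, smul_smul, smul_smul, smul_smul]
      congr 1
      · congr 1
        · congr 1
          ring
        · congr 1
          field_simp
      · congr 1
        ring
    exact (smul_eq_zero.1 h6).resolve_left (pow_pos hR 2).ne'
  · intro t
    have h5 := h4 t
    rw [hf, hh] at h5
    rw [(deriv_div2 r t).1]
    have h6 : R ^ 2 * ((deriv r t / R) ^ 2 +
        (Real.sin (r t / R) * Real.cos (r t / R)) ^ 2 * ‖qvert z t‖ ^ 2 +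
        Real.sin (r t / R) ^ 2 * nsq (qhor z t)) = 1 := by
      rw [← one_pow 2, ← h5]
      field_simp
    simp only
    field_simp
    field_simp at h6
    linarith

theorem scaleOP {A : Fin 9 → E16 →L[ℝ] E16} {R : ℝ} (hR : 0 < R) {L : ℝ} {f h : ℝ → ℝ}
    (hL : L = π * R / 2)
    (hf : ∀ r, f r = R * (Real.sin (r / R) * Real.cos (r / R)))
    (hh : ∀ r, h r = R * Real.sin (r / R))
    {γ : ℝ → ℝ × E16 × (Fin 9 → ℝ)} (hγ : IsGeodesicOP A L f h 1 γ) :
    IsGeodesicOP A (π / 2) (fun r => Real.sin r * Real.cos r) Real.sin (1 / R) γ := by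
  obtain ⟨r, z, hr, hz, hn, hγ', h1, h3, h4⟩ := hγ
  have hfd : ∀ x, deriv f x = deriv (fun r => Real.sin r * Real.cos r) (x / R) :=
    deriv_scaled hR diff_F hf
  have hhd : ∀ x, deriv h x = deriv Real.sin (x / R) :=
    deriv_scaled hR Real.differentiable_sin hh
  refine ⟨fun t => r t / R, z, hr.div_const R, hz, hn, ?_, ?_, ?_, ?_⟩
  · intro t
    rw [hγ' t]
    unfold opt
    have e : π * r t / L = π * (r t / R) / (π / 2) := by
      rw [hL]
      field_simp
    rw [e]
  · intro t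
    rw [(deriv_div2 r t).2, h1 t, hfd, hhd, hf, hh]
    field_simp
  · intro t
    obtain ⟨l, hl⟩ := h3 t
    have hm : mom A f h r z = fun t => (R ^ 2) • mom A (fun r => Real.sin r * Real.cos r) Real.sin
        (fun t => r t / R) z t := by
      funext t
      unfold mom
      rw [hf, hh, smul_add, smul_smul, smul_smul]
      congr 1
      · congr 1
        ring
      · congr 1
        ring
    have hF : force A f h r z t = (R ^ 2) • force A (fun r => Real.sin r * Real.cos r) Real.sin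
        (fun t => r t / R) z t := by
      unfold force
      rw [hf, hh, smul_smul]
      congr 1
      ring
    rw [hm, hF, deriv_fun_const_smul_field, ← smul_sub] at hl
    refine ⟨(R ^ 2)⁻¹ * l, ?_⟩
    rw [← smul_smul, ← hl, smul_smul, inv_mul_cancel₀ (pow_pos hR 2).ne', one_smul]
  · intro t
    have h5 := h4 t
    rw [hf, hh] at h5
    rw [(deriv_div2 r t).1]
    have h6 : R ^ 2 * ((deriv r t / R) ^ 2 +
        (Real.sin (r t / R) * Real.cos (r t / R)) ^ 2 * vsq A (z t) (deriv z t) +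
        Real.sin (r t / R) ^ 2 * hsq A (z t) (deriv z t)) = 1 := by
      rw [← one_pow 2, ← h5]
      field_simp
    simp only
    field_simp
    field_simp at h6
    linarith

/-! ### The volume and the converse -/

lemma Vm_symm {R : ℝ} (hR : 0 < R) {L : ℝ} {f h : ℝ → ℝ} (hL : L = π * R / 2)
    (hf : ∀ r, f r = R * (Real.sin (r / R) * Real.cos (r / R)))
    (hh : ∀ r, h r = R * Real.sin (r / R)) (a b : ℕ) :
    Vm L f h a b = R ^ (a + b + 3) * V0 a b := by
  have e : ∀ r, f r ^ (a + 1) * h r ^ (b + 1) = R ^ (a + b + 2) *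
      ((Real.sin (r / R) * Real.cos (r / R)) ^ (a + 1) * Real.sin (r / R) ^ (b + 1)) := by
    intro r
    rw [hf, hh]
    ring
  have e2 : L / R = π / 2 := by
    rw [hL]
    field_simp
  have h1 := intervalIntegral.integral_comp_div (a := 0) (b := L)
    (fun x => (Real.sin x * Real.cos x) ^ (a + 1) * Real.sin x ^ (b + 1)) hR.ne'
  rw [zero_div, e2, smul_eq_mul] at h1
  unfold Vm V0 Vm
  simp only [e]
  rw [intervalIntegral.integral_const_mul, h1]
  ring

lemma conv_general {L : ℝ} {f h : ℝ → ℝ} (hf : IsProfileCP L f h) {R : ℝ} (hR : 0 < R)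
    (hs : IsSymm R L f h) {a b : ℕ} {c : ℝ} (hc : c * V0 a b = 1) {T : ℝ} (hT : π ≤ 1 / R * T) :
    c * π ^ (a + b + 3) * Vm L f h a b ≤ T ^ (a + b + 3) := by
  obtain ⟨h1, h2⟩ := symm_ext hf hR hs
  rw [Vm_symm hR hs.1 h1 h2]
  have h3 : π * R ≤ T := by
    rw [one_div, inv_mul_eq_div, le_div_iff₀ hR] at hT
    exact hT
  calc c * π ^ (a + b + 3) * (R ^ (a + b + 3) * V0 a b) =
      (c * V0 a b) * (π * R) ^ (a + b + 3) := by rw [mul_pow]; ring
    _ = (π * R) ^ (a + b + 3) := by rw [hc, one_mul]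
    _ ≤ _ := pow_le_pow_left₀ (by have := Real.pi_pos; positivity) h3 _

theorem conv_CP {n : ℕ} (hn : 2 ≤ n) {L : ℝ} {f h : ℝ → ℝ} (hf : IsProfileCP L f h) {R : ℝ}
    (hR : 0 < R) (hs : IsSymm R L f h)
    (γ : ℝ → Submodule ℂ (ℂ × EuclideanSpace ℂ (Fin n))) (T : ℝ) (hT : 0 < T)
    (hγ : IsGeodesicCP L f h 1 γ) (hper : ∀ t, γ (t + T) = γ t) :
    2 * n * π ^ (2 * n) * (∫ r in (0 : ℝ)..L, f r * h r ^ (2 * n - 2)) ≤ T ^ (2 * n) := by
  obtain ⟨h1, h2⟩ := symm_ext hf hR hs
  have h3 := FL.length_FS (by positivity) hT (scaleCP hR hs.1 h1 h2 hγ) hper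
  have h4 := conv_general hf hR hs (norm_CP hn) h3
  have e1 : 0 + (2 * n - 3) + 3 = 2 * n := by omega
  have e2 : Vm L f h 0 (2 * n - 3) = ∫ r in (0 : ℝ)..L, f r * h r ^ (2 * n - 2) := by
    unfold Vm
    rw [show 2 * n - 3 + 1 = 2 * n - 2 by omega]
    simp
  rw [e1, e2] at h4
  exact h4

theorem conv_HP {n : ℕ} (hn : 2 ≤ n) {L : ℝ} {f h : ℝ → ℝ} (hf : IsProfileCP L f h) {R : ℝ}
    (hR : 0 < R) (hs : IsSymm R L f h)
    (γ : ℝ → Set (ℍ[ℝ] × (Fin n → ℍ[ℝ]))) (T : ℝ) (hT : 0 < T)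
    (hγ : IsGeodesicHP L f h 1 γ) (hper : ∀ t, γ (t + T) = γ t) :
    4 * n * (2 * n + 1) * π ^ (4 * n) *
      (∫ r in (0 : ℝ)..L, f r ^ 3 * h r ^ (4 * n - 4)) ≤ T ^ (4 * n) := by
  obtain ⟨h1, h2⟩ := symm_ext hf hR hs
  have h3 := HL.length_HP (by positivity) hT (scaleHP hR hs.1 h1 h2 hγ) hper
  have h4 := conv_general hf hR hs (norm_HP hn) h3
  have e1 : 2 + (4 * n - 5) + 3 = 4 * n := by omega
  have e2 : Vm L f h 2 (4 * n - 5) = ∫ r in (0 : ℝ)..L, f r ^ 3 * h r ^ (4 * n - 4) := by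
    unfold Vm
    rw [show 4 * n - 5 + 1 = 4 * n - 4 by omega]
  rw [e1, e2] at h4
  exact h4

theorem conv_OP {A : Fin 9 → E16 →L[ℝ] E16} (hA : IsClifford A) {L : ℝ} {f h : ℝ → ℝ}
    (hf : IsProfileCP L f h) {R : ℝ} (hR : 0 < R) (hs : IsSymm R L f h)
    (γ : ℝ → ℝ × E16 × (Fin 9 → ℝ)) (T : ℝ) (hT : 0 < T)
    (hγ : IsGeodesicOP A L f h 1 γ) (hper : ∀ t, γ (t + T) = γ t) :
    2640 * π ^ 16 * (∫ r in (0 : ℝ)..L, f r ^ 7 * h r ^ 8) ≤ T ^ 16 := by
  obtain ⟨h1, h2⟩ := symm_ext hf hR hs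
  have h3 := Low.length_OP hA (by positivity) hT (scaleOP hR hs.1 h1 h2 hγ) hper
  exact conv_general hf hR hs norm_OP h3

end H804OP.Rig
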