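import Pool.Agent.H804.OP.Cl

/-!
# The totally geodesic `ℂP²` in the Cayley plane
-/

open Real Set MeasureTheory Filter Topology
open scoped ContDiff RealInnerProductSpace
open H738CP

namespace H804OP.Sl

open Cl

variable {A : Fin 9 → E16 →L[ℝ] E16}

/-- an eigenvector of `A 0` -/
lemma exists_e (hA : IsClifford A) : ∃ e : E16, A 0 e = e ∧ ‖e‖ = 1 := by
  have hne : ∃ x : E16, A 0 x = x ∧ x ≠ 0 := by
    set b : E16 := EuclideanSpace.single 0 1 with hb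
    have hb0 : b ≠ 0 := by
      intro h
      have : ‖b‖ = 0 := by rw [h, norm_zero]
      rw [hb] at this
      simp at this
    by_cases h : b + A 0 b = 0
    · refine ⟨A 1 b, ?_, ?_⟩
      · have h1 : A 0 b = -b := by
          rw [eq_neg_iff_add_eq_zero, add_comm]
          exact h
        exact eig_swap' hA (by decide) h1
      · intro h2
        apply hb0
        rw [← hA.sq 1 b, h2, map_zero]
    · exact ⟨b + A 0 b, by rw [map_add, hA.sq, add_comm], h⟩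
  obtain ⟨x, hx, hx0⟩ := hne
  have hn : ‖x‖ ≠ 0 := norm_ne_zero_iff.2 hx0
  exact ⟨‖x‖⁻¹ • x, by rw [map_smul, hx],
    by rw [norm_smul, norm_inv, norm_norm, inv_mul_cancel₀ hn]⟩

/-- the embedding `ℂ² → ℝ^16` -/
noncomputable def Ph (A : Fin 9 → E16 →L[ℝ] E16) (e : E16) : EuclideanSpace ℂ (Fin 2) →L[ℝ] E16 :=
  ((Complex.reCLM.comp ((EuclideanSpace.proj 0 : EuclideanSpace ℂ (Fin 2) →L[ℂ] ℂ).restrictScalars ℝ)).smulRight e) +
  ((Complex.imCLM.comp ((EuclideanSpace.proj 0 : EuclideanSpace ℂ (Fin 2) →L[ℂ] ℂ).restrictScalars ℝ)).smulRight (A 1 (A 2 e))) +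
  ((Complex.reCLM.comp ((EuclideanSpace.proj 1 : EuclideanSpace ℂ (Fin 2) →L[ℂ] ℂ).restrictScalars ℝ)).smulRight (A 1 e)) +
  ((Complex.imCLM.comp ((EuclideanSpace.proj 1 : EuclideanSpace ℂ (Fin 2) →L[ℂ] ℂ).restrictScalars ℝ)).smulRight (A 2 e))

lemma Ph_apply (e : E16) (w : EuclideanSpace ℂ (Fin 2)) : Ph A e w =
    (w 0).re • e + (w 0).im • A 1 (A 2 e) + (w 1).re • A 1 e + (w 1).im • A 2 e := rfl

section
variable {e : E16} (hA : IsClifford A) (he : A 0 e = e) (he1 : ‖e‖ = 1)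
include hA he

lemma A0g : A 0 (A 1 (A 2 e)) = A 1 (A 2 e) := by
  rw [anti' hA (i := 0) (j := 1) (by decide), anti' hA (i := 0) (j := 2) (by decide), he, map_neg,
    neg_neg]

lemma A0u : A 0 (A 1 e) = -A 1 e := eig_swap hA (by decide) he

lemma A0s : A 0 (A 2 e) = -A 2 e := eig_swap hA (by decide) he

omit he in
lemma A2g : A 2 (A 1 (A 2 e)) = -A 1 e := by
  rw [anti' hA (i := 2) (j := 1) (by decide), hA.sq]

omit he in
lemma A2u : A 2 (A 1 e) = -A 1 (A 2 e) := anti' hA (by decide) e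

lemma A0Ph (w : EuclideanSpace ℂ (Fin 2)) : A 0 (Ph A e w) =
    (w 0).re • e + (w 0).im • A 1 (A 2 e) + (-(w 1).re) • A 1 e + (-(w 1).im) • A 2 e := by
  rw [Ph_apply, map_add, map_add, map_add, map_smul, map_smul, map_smul, map_smul, he,
    A0g hA he, A0u hA he, A0s hA he]
  module

omit he in
lemma A1Ph (w : EuclideanSpace ℂ (Fin 2)) : A 1 (Ph A e w) =
    (w 1).re • e + (w 1).im • A 1 (A 2 e) + (w 0).re • A 1 e + (w 0).im • A 2 e := by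
  rw [Ph_apply, map_add, map_add, map_add, map_smul, map_smul, map_smul, map_smul, hA.sq, hA.sq]
  module

omit he in
lemma A2Ph (w : EuclideanSpace ℂ (Fin 2)) : A 2 (Ph A e w) =
    (w 1).im • e + (-(w 1).re) • A 1 (A 2 e) + (-(w 0).im) • A 1 e + (w 0).re • A 2 e := by
  rw [Ph_apply, map_add, map_add, map_add, map_smul, map_smul, map_smul, map_smul, hA.sq,
    A2g hA, A2u hA]
  module

include he1

/-- the inner product of two vectors of the slice -/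
lemma inner_comb (a b c d a' b' c' d' : ℝ) :
    ⟪a • e + b • A 1 (A 2 e) + c • A 1 e + d • A 2 e,
      a' • e + b' • A 1 (A 2 e) + c' • A 1 e + d' • A 2 e⟫ = a * a' + b * b' + c * c' + d * d' := by
  have n1 : ⟪e, e⟫ = (1 : ℝ) := by rw [real_inner_self_eq_norm_sq, he1]; norm_num
  have n2 : ⟪A 1 (A 2 e), A 1 (A 2 e)⟫ = (1 : ℝ) := by rw [inner_AA hA, inner_AA hA, n1]
  have n3 : ⟪A 1 e, A 1 e⟫ = (1 : ℝ) := by rw [inner_AA hA, n1]
  have n4 : ⟪A 2 e, A 2 e⟫ = (1 : ℝ) := by rw [inner_AA hA, n1]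
  have m1 : ⟪e, A 1 (A 2 e)⟫ = (0 : ℝ) := by
    rw [← hA.symm]
    exact inner_orth hA (by decide) e
  have m2 : ⟪e, A 1 e⟫ = (0 : ℝ) := eig_orth hA 0 he (A0u hA he)
  have m3 : ⟪e, A 2 e⟫ = (0 : ℝ) := eig_orth hA 0 he (A0s hA he)
  have m4 : ⟪A 1 (A 2 e), A 1 e⟫ = (0 : ℝ) := eig_orth hA 0 (A0g hA he) (A0u hA he)
  have m5 : ⟪A 1 (A 2 e), A 2 e⟫ = (0 : ℝ) := eig_orth hA 0 (A0g hA he) (A0s hA he)
  have m6 : ⟪A 1 e, A 2 e⟫ = (0 : ℝ) := inner_orth hA (by decide) e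
  have m1' : ⟪A 1 (A 2 e), e⟫ = (0 : ℝ) := by rw [real_inner_comm]; exact m1
  have m2' : ⟪A 1 e, e⟫ = (0 : ℝ) := by rw [real_inner_comm]; exact m2
  have m3' : ⟪A 2 e, e⟫ = (0 : ℝ) := by rw [real_inner_comm]; exact m3
  have m4' : ⟪A 1 e, A 1 (A 2 e)⟫ = (0 : ℝ) := by rw [real_inner_comm]; exact m4
  have m5' : ⟪A 2 e, A 1 (A 2 e)⟫ = (0 : ℝ) := by rw [real_inner_comm]; exact m5
  have m6' : ⟪A 2 e, A 1 e⟫ = (0 : ℝ) := by rw [real_inner_comm]; exact m6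
  simp only [inner_add_left, inner_add_right, real_inner_smul_left, real_inner_smul_right, n1, n2,
    n3, n4, m1, m2, m3, m4, m5, m6, m1', m2', m3', m4', m5', m6']
  ring

omit he1 in
/-- the other members of the Clifford system do not see the slice -/
lemma inner_other {i : Fin 9} (h0 : i ≠ 0) (h1 : i ≠ 1) (h2 : i ≠ 2) (a b c d a' b' c' d' : ℝ) :
    ⟪A i (a • e + b • A 1 (A 2 e) + c • A 1 e + d • A 2 e),
      a' • e + b' • A 1 (A 2 e) + c' • A 1 e + d' • A 2 e⟫ = 0 := by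
  -- the images of the basis
  have e1 : A 0 (A i e) = -(A i e) := eig_swap hA h0.symm he
  have e2 : A 0 (A i (A 1 (A 2 e))) = -(A i (A 1 (A 2 e))) := eig_swap hA h0.symm (A0g hA he)
  have e3 : A 0 (A i (A 1 e)) = A i (A 1 e) := eig_swap' hA h0.symm (A0u hA he)
  have e4 : A 0 (A i (A 2 e)) = A i (A 2 e) := eig_swap' hA h0.symm (A0s hA he)
  have p1 : ⟪A i e, e⟫ = (0 : ℝ) := eig_orth' hA 0 he e1
  have p2 : ⟪A i e, A 1 (A 2 e)⟫ = (0 : ℝ) := eig_orth' hA 0 (A0g hA he) e1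
  have p3 : ⟪A i e, A 1 e⟫ = (0 : ℝ) := inner_orth hA h1 e
  have p4 : ⟪A i e, A 2 e⟫ = (0 : ℝ) := inner_orth hA h2 e
  have q1 : ⟪A i (A 1 (A 2 e)), e⟫ = (0 : ℝ) := eig_orth' hA 0 he e2
  have q2 : ⟪A i (A 1 (A 2 e)), A 1 (A 2 e)⟫ = (0 : ℝ) := eig_orth' hA 0 (A0g hA he) e2
  have q3 : ⟪A i (A 1 (A 2 e)), A 1 e⟫ = (0 : ℝ) := by
    rw [anti' hA h1, inner_neg_left, inner_AA hA, real_inner_comm e, ← hA.symm, real_inner_comm,
      inner_orth hA h2.symm, neg_zero]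
  have q4 : ⟪A i (A 1 (A 2 e)), A 2 e⟫ = (0 : ℝ) := by
    rw [anti' hA h1, inner_neg_left, anti' hA h2, map_neg, inner_neg_left, hA.symm,
      anti' hA (i := 1) (j := 2) (by decide), inner_neg_right, inner_AA hA,
      inner_orth hA h1, neg_zero, neg_zero, neg_zero]
  have r1 : ⟪A i (A 1 e), e⟫ = (0 : ℝ) := by
    rw [anti' hA h1, inner_neg_left, hA.symm, inner_orth hA h1, neg_zero]
  have r2 : ⟪A i (A 1 e), A 1 (A 2 e)⟫ = (0 : ℝ) := by
    rw [hA.symm, real_inner_comm, ← q3]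
  have r3 : ⟪A i (A 1 e), A 1 e⟫ = (0 : ℝ) := eig_orth hA 0 e3 (A0u hA he)
  have r4 : ⟪A i (A 1 e), A 2 e⟫ = (0 : ℝ) := eig_orth hA 0 e3 (A0s hA he)
  have s1 : ⟪A i (A 2 e), e⟫ = (0 : ℝ) := by
    rw [anti' hA h2, inner_neg_left, hA.symm, inner_orth hA h2, neg_zero]
  have s2 : ⟪A i (A 2 e), A 1 (A 2 e)⟫ = (0 : ℝ) := by
    rw [hA.symm, real_inner_comm, ← q4]
  have s3 : ⟪A i (A 2 e), A 1 e⟫ = (0 : ℝ) := eig_orth hA 0 e4 (A0u hA he)
  have s4 : ⟪A i (A 2 e), A 2 e⟫ = (0 : ℝ) := eig_orth hA 0 e4 (A0s hA he)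
  simp only [map_add, map_smul, inner_add_left, inner_add_right, real_inner_smul_left,
    real_inner_smul_right, p1, p2, p3, p4, q1, q2, q3, q4, r1, r2, r3, r4, s1, s2, s3, s4]
  ring


lemma in0 (z w : EuclideanSpace ℂ (Fin 2)) : ⟪A 0 (Ph A e z), Ph A e w⟫ =
    (z 0).re * (w 0).re + (z 0).im * (w 0).im - (z 1).re * (w 1).re - (z 1).im * (w 1).im := by
  rw [A0Ph hA he, Ph_apply, inner_comb hA he he1]
  ring

lemma in1 (z w : EuclideanSpace ℂ (Fin 2)) : ⟪A 1 (Ph A e z), Ph A e w⟫ =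
    (z 1).re * (w 0).re + (z 1).im * (w 0).im + (z 0).re * (w 1).re + (z 0).im * (w 1).im := by
  rw [A1Ph hA, Ph_apply, inner_comb hA he he1]

lemma in2 (z w : EuclideanSpace ℂ (Fin 2)) : ⟪A 2 (Ph A e z), Ph A e w⟫ =
    (z 1).im * (w 0).re - (z 1).re * (w 0).im - (z 0).im * (w 1).re + (z 0).re * (w 1).im := by
  rw [A2Ph hA, Ph_apply, inner_comb hA he he1]
  ring

omit he1 in
lemma ino (i : Fin 9) (h0 : i ≠ 0) (h1 : i ≠ 1) (h2 : i ≠ 2) (z w : EuclideanSpace ℂ (Fin 2)) :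
    ⟪A i (Ph A e z), Ph A e w⟫ = 0 := by
  rw [Ph_apply, Ph_apply, inner_other hA he h0 h1 h2]

end

lemma sum3 {M : Type*} [AddCommMonoid M] (g : Fin 9 → M)
    (hg : ∀ i, i ≠ 0 → i ≠ 1 → i ≠ 2 → g i = 0) : ∑ i, g i = g 0 + g 1 + g 2 := by
  rw [Fin.sum_univ_succ, Fin.sum_univ_succ, Fin.sum_univ_succ, Finset.sum_eq_zero]
  · rw [add_zero, ← add_assoc]
    rfl
  · intro i _
    apply hg
    · exact Fin.succ_ne_zero _
    · intro h
      have h' : i.val + 1 + 1 + 1 = 1 := congrArg Fin.val h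
      omega
    · intro h
      have h' : i.val + 1 + 1 + 1 = 2 := congrArg Fin.val h
      omega

lemma nsq2 (z : EuclideanSpace ℂ (Fin 2)) :
    ‖z‖ ^ 2 = (z 0).re ^ 2 + (z 0).im ^ 2 + (z 1).re ^ 2 + (z 1).im ^ 2 := by
  rw [EuclideanSpace.norm_sq_eq, Fin.sum_univ_two, ← Complex.normSq_eq_norm_sq,
    ← Complex.normSq_eq_norm_sq, Complex.normSq_apply, Complex.normSq_apply]
  ring

lemma innim (z w : EuclideanSpace ℂ (Fin 2)) : (inner ℂ z w).im =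
    (z 0).re * (w 0).im - (z 0).im * (w 0).re + ((z 1).re * (w 1).im - (z 1).im * (w 1).re) := by
  rw [PiLp.inner_apply, Fin.sum_univ_two]
  simp
  ring

section
variable {e : E16} (hA : IsClifford A) (he : A 0 e = e) (he1 : ‖e‖ = 1)
include hA he he1

lemma hsq_Ph (z w : EuclideanSpace ℂ (Fin 2)) :
    hsq A (Ph A e z) (Ph A e w) = ‖z‖ ^ 2 * ‖w‖ ^ 2 - (inner ℂ z w).im ^ 2 := by
  unfold hsq
  rw [sum3 _ (fun i h0 h1 h2 => by rw [ino hA he i h0 h1 h2]; norm_num), in0 hA he he1,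
    in1 hA he he1, in2 hA he he1, nsq2, nsq2, innim]
  ring

lemma nsq_Ph (z : EuclideanSpace ℂ (Fin 2)) : ‖Ph A e z‖ ^ 2 = ‖z‖ ^ 2 := by
  rw [← real_inner_self_eq_norm_sq, Ph_apply, inner_comb hA he he1, nsq2]
  ring

omit he1 hA he in
lemma Ph_Ismul (θ : ℝ) (w : EuclideanSpace ℂ (Fin 2)) : Ph A e (((θ : ℂ) * Complex.I) • w) =
    θ • ((-(w 0).im) • e + (w 0).re • A 1 (A 2 e) + (-(w 1).im) • A 1 e + (w 1).re • A 2 e) := by
  rw [Ph_apply]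
  have h1 : ∀ j, ((((θ : ℂ) * Complex.I) • w) j).re = -(θ * (w j).im) := by
    intro j; simp
  have h2 : ∀ j, ((((θ : ℂ) * Complex.I) • w) j).im = θ * (w j).re := by
    intro j; simp
  rw [h1, h2, h1, h2]
  module

lemma horp_Ph (z w : EuclideanSpace ℂ (Fin 2)) (hz : ‖z‖ = 1) :
    horp A (Ph A e z) (Ph A e w) = Ph A e (w - (((inner ℂ z w).im : ℂ) * Complex.I) • z) := by
  unfold horp
  have h1 : (z 0).re ^ 2 + (z 0).im ^ 2 + (z 1).re ^ 2 + (z 1).im ^ 2 = 1 := by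
    rw [← nsq2, hz]; norm_num
  rw [sum3 _ (fun i h0 h1 h2 => by rw [ino hA he i h0 h1 h2, zero_smul]), in0 hA he he1,
    in1 hA he he1, in2 hA he he1, map_sub, Ph_Ismul, A0Ph hA he, A1Ph hA, A2Ph hA, innim]
  have h2 : Ph A e w = ((z 0).re ^ 2 + (z 0).im ^ 2 + (z 1).re ^ 2 + (z 1).im ^ 2) • Ph A e w := by
    rw [h1, one_smul]
  rw [h2, Ph_apply]
  module

lemma force_Ph (z w : EuclideanSpace ℂ (Fin 2)) :
    ∑ i, ⟪A i (Ph A e z), Ph A e w⟫ • A i (Ph A e w) =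
      Ph A e ((((inner ℂ z w).im : ℂ) * Complex.I) • w + (‖w‖ ^ 2) • z) := by
  rw [sum3 _ (fun i h0 h1 h2 => by rw [ino hA he i h0 h1 h2, zero_smul]), in0 hA he he1,
    in1 hA he he1, in2 hA he he1, map_add, Ph_Ismul, A0Ph hA he, A1Ph hA, A2Ph hA, innim, map_smul,
    nsq2, Ph_apply]
  module

end

end H804OP.Sl
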